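import Mathlib

/-!
# MP_bde085_nt: coordinates of Shimura periods are at most `exp(C ψ(N) log (2 + ω(N)))`

Definitions and exact statements `ST_X` of all modules.  Blueprint: `/team-store/h96_mp_blueprint.md`.
-/

set_option autoImplicit false

namespace Pool.Agent.Helper96.MP

open Complex MeasureTheory Filter Topology
open scoped MatrixGroups

/-! ## Basic notions -/

/-- the upper half plane -/
def UH : Set ℂ := {z | 0 < z.im}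

/-- `∑ b_k e(k τ)` -/
noncomputable def qs (b : ℕ → ℂ) (τ : ℂ) : ℂ :=
  ∑' k : ℕ, b k * exp (2 * (Real.pi : ℂ) * I * (k : ℂ) * τ)

/-- `∑ (b_k / k) e(k τ)` -/
noncomputable def Fs (b : ℕ → ℂ) (τ : ℂ) : ℂ :=
  ∑' k : ℕ, b k / (k : ℂ) * exp (2 * (Real.pi : ℂ) * I * (k : ℂ) * τ)

/-- weight two cusp forms of level `M`, as sequences of coefficients -/
structure Cusp (M : ℕ) (b : ℕ → ℂ) : Prop where
  sum : ∀ τ : ℂ, 0 < τ.im →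
    Summable (fun k : ℕ => b k * exp (2 * (Real.pi : ℂ) * I * (k : ℂ) * τ))
  inv : ∀ τ : ℂ, 0 < τ.im → ∀ p q r s : ℤ, p * s - q * r = 1 → (M : ℤ) ∣ r →
    qs b (((p : ℂ) * τ + (q : ℂ)) / ((r : ℂ) * τ + (s : ℂ))) = ((r : ℂ) * τ + (s : ℂ)) ^ 2 * qs b τ
  bdd : ∃ B : ℝ, ∀ τ : ℂ, 0 < τ.im → τ.im * ‖qs b τ‖ ≤ B

/-- Hecke operator at a prime `l`, on coefficients -/
def Tl (l : ℕ) (b : ℕ → ℂ) (n : ℕ) : ℂ := b (l * n) + if l ∣ n then (l : ℂ) * b (n / l) else 0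

/-- newforms of level `N` with integral coefficients, as in the frozen statement -/
structure Newform (N : ℕ) (a : ℕ → ℤ) : Prop where
  zero : a 0 = 0
  one : a 1 = 1
  cusp : Cusp N (fun k => (a k : ℂ))
  hecke : ∀ l : ℕ, l.Prime → ¬ l ∣ N → ∀ n : ℕ,
    a (l * n) + (if l ∣ n then (l : ℤ) * a (n / l) else 0) = a l * a n
  new : ∀ M : ℕ, 0 < M → M ∣ N → M < N → ∀ b : ℕ → ℂ, Cusp M b →
    (∀ l : ℕ, l.Prime → ¬ l ∣ N → ∀ n : ℕ, Tl l b n = (a l : ℂ) * b n) → ∀ n : ℕ, b n = 0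

/-- membership of `(p,q;r,s)` in `Γ₀(N)` -/
def G0 (N : ℕ) (p q r s : ℤ) : Prop := p * s - q * r = 1 ∧ (N : ℤ) ∣ r

/-- Möbius action -/
noncomputable def mo (p q r s : ℤ) (z : ℂ) : ℂ :=
  ((p : ℂ) * z + (q : ℂ)) / ((r : ℂ) * z + (s : ℂ))

/-- functions on `P¹(ℚ)`, as homogeneous functions on pairs of integers -/
def Hom0 {V : Type} (C : ℤ → ℤ → V) : Prop :=
  ∀ k p q : ℤ, k ≠ 0 → C (k * p) (k * q) = C p q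

/-- value of the primitive `F_b` at the cusp `p / q` -/
noncomputable def FC (b : ℕ → ℂ) (p q : ℤ) : ℂ :=
  if q = 0 then 0 else limUnder (𝓝[>] (0 : ℝ)) (fun t : ℝ => Fs b ((p : ℂ) / (q : ℂ) + I * (t : ℂ)))

/-- `C` transforms under `Γ₀(N)` by adding constants -/
def EqC {V : Type} [AddCommGroup V] (N : ℕ) (C : ℤ → ℤ → V) : Prop :=
  ∀ p q r s : ℤ, G0 N p q r s → ∀ x y : ℤ, (x ≠ 0 ∨ y ≠ 0) →
    C (p * x + q * y) (r * x + s * y) = C x y + (C p r - C 1 0)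

/-! ## The projective line over `ℤ/N` and Manin symbols -/

/-- `gcd(c,d,N) = 1` -/
def Uni (N : ℕ) (c d : ℤ) : Prop := Int.gcd (Int.gcd c d) N = 1

/-- proportional modulo `N` -/
def eqv (N : ℕ) (c d c' d' : ℤ) : Prop :=
  ∃ l : ℤ, IsCoprime l (N : ℤ) ∧ (N : ℤ) ∣ c' - l * c ∧ (N : ℤ) ∣ d' - l * d

/-- unimodular pairs -/
def UP (N : ℕ) := {u : ℤ × ℤ // Uni N u.1 u.2}

theorem eqv_refl (N : ℕ) (c d : ℤ) : eqv N c d c d :=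
  ⟨1, isCoprime_one_left, by simp, by simp⟩

theorem eqv_symm {N : ℕ} {c d c' d' : ℤ} (h : eqv N c d c' d') : eqv N c' d' c d := by
  obtain ⟨l, ⟨u, v, huv⟩, hc, hd⟩ := h
  refine ⟨u, ⟨l, v, by linarith [mul_comm l u]⟩, ?_, ?_⟩
  · have h1 : c - u * c' = (N : ℤ) * (v * c) - u * (c' - l * c) := by
      linear_combination (-c) * huv
    rw [h1]; exact dvd_sub (dvd_mul_right _ _) (Dvd.dvd.mul_left hc u)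
  · have h1 : d - u * d' = (N : ℤ) * (v * d) - u * (d' - l * d) := by
      linear_combination (-d) * huv
    rw [h1]; exact dvd_sub (dvd_mul_right _ _) (Dvd.dvd.mul_left hd u)

theorem eqv_trans {N : ℕ} {c d c' d' c'' d'' : ℤ} (h : eqv N c d c' d')
    (h' : eqv N c' d' c'' d'') : eqv N c d c'' d'' := by
  obtain ⟨l, hl, hc, hd⟩ := h
  obtain ⟨m, hm, hc', hd'⟩ := h'
  refine ⟨m * l, hm.mul_left hl, ?_, ?_⟩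
  · have : c'' - m * l * c = (c'' - m * c') + m * (c' - l * c) := by ring
    rw [this]; exact dvd_add hc' (Dvd.dvd.mul_left hc m)
  · have : d'' - m * l * d = (d'' - m * d') + m * (d' - l * d) := by ring
    rw [this]; exact dvd_add hd' (Dvd.dvd.mul_left hd m)

/-- setoid on unimodular pairs -/
def sPN (N : ℕ) : Setoid (UP N) where
  r u v := eqv N u.1.1 u.1.2 v.1.1 v.1.2
  iseqv := ⟨fun u => eqv_refl N _ _, fun h => eqv_symm h, fun h h' => eqv_trans h h'⟩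

/-- the projective line over `ℤ/N` -/
def PN (N : ℕ) : Type := Quotient (sPN N)

/-- evaluation of a function on `PN N` at a pair of integers (zero if not unimodular) -/
noncomputable def ev {N : ℕ} {V : Type} [Zero V] (v : PN N → V) (c d : ℤ) : V := by
  classical
  exact if h : Uni N c d then v (Quotient.mk (sPN N) ⟨(c, d), h⟩) else 0

/-- `S_n`: matrices `(a,b;c,d)` with `a > b ≥ 0`, `d > c ≥ 0`, determinant `n` -/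
def Sn (n : ℕ) : Finset (ℕ × ℕ × ℕ × ℕ) :=
  ((Finset.range (n + 1)) ×ˢ (Finset.range (n + 1)) ×ˢ (Finset.range (n + 1)) ×ˢ
    (Finset.range (n + 1))).filter
    (fun m => m.2.1 < m.1 ∧ m.2.2.1 < m.2.2.2 ∧ m.1 * m.2.2.2 = n + m.2.1 * m.2.2.1)

/-- `T_n`: matrices `(a,b;0,d)` with `0 ≤ b < d`, determinant `n`; the triple is `(a,b,d)` -/
def Tn (n : ℕ) : Finset (ℕ × ℕ × ℕ) :=
  ((Finset.range (n + 1)) ×ˢ (Finset.range (n + 1)) ×ˢ (Finset.range (n + 1))).filter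
    (fun t => t.1 * t.2.2 = n ∧ t.2.1 < t.2.2)

/-- Manin relations with sign `ε` -/
structure Rel (N : ℕ) (ε : ℝ) (v : PN N → ℝ) : Prop where
  two : ∀ c d : ℤ, Uni N c d → ev v c d + ev v d (-c) = 0
  three : ∀ c d : ℤ, Uni N c d → ev v c d + ev v (c + d) (-c) + ev v d (-c - d) = 0
  sign : ∀ c d : ℤ, Uni N c d → ev v (-c) d = ε * ev v c d

/-- the row conditions `A_n v = α v` -/
def HRow (N n : ℕ) (α : ℝ) (v : PN N → ℝ) : Prop :=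
  ∀ c d : ℤ, Uni N c d →
    ∑ m ∈ Sn n, ev v (c * m.1 + d * m.2.2.1) (c * m.2.1 + d * m.2.2.2) = α * ev v c d

/-- `ψ(N) = N ∏ (1 + 1/p)` -/
noncomputable def psi (N : ℕ) : ℝ := (N : ℝ) * ∏ p ∈ N.primeFactors, (1 + 1 / (p : ℝ))

/-! ## Combinatorics of matrices -/

/-- Hermite normal form for `SL₂(ℤ) \ M_n`. -/
def ST_HERM : Prop := ∀ (n : ℕ), 1 ≤ n → ∀ p q r s : ℤ, p * s - q * r = (n : ℤ) →
  ∃! t : ℕ × ℕ × ℕ, t ∈ Tn n ∧ ∃ p' q' r' s' : ℤ, p' * s' - q' * r' = 1 ∧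
    p = p' * t.1 ∧ q = p' * t.2.1 + q' * t.2.2 ∧ r = r' * t.1 ∧ s = r' * t.2.1 + s' * t.2.2

/-- `Γ₀(N)` permutes the cosets: `δ γ = γ' δ'`. -/
def ST_PERM : Prop := ∀ (N n : ℕ), 1 ≤ N → 1 ≤ n → Nat.Coprime n N → ∀ p q r s : ℤ, G0 N p q r s →
  ∃ e : Equiv.Perm {t // t ∈ Tn n}, ∀ t, ∃ p' q' r' s' : ℤ, G0 N p' q' r' s' ∧
    (t.1.1 : ℤ) * p + t.1.2.1 * r = p' * (e t).1.1 ∧
    (t.1.1 : ℤ) * q + t.1.2.1 * s = p' * (e t).1.2.1 + q' * (e t).1.2.2 ∧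
    (t.1.2.2 : ℤ) * r = r' * (e t).1.1 ∧
    (t.1.2.2 : ℤ) * s = r' * (e t).1.2.1 + s' * (e t).1.2.2

/-- telescoping over the matrices of `S_n` in one right coset -/
def ST_CHAIN : Prop := ∀ (V : Type) [AddCommGroup V] (n : ℕ), 1 ≤ n → ∀ f : ℤ → ℤ → V, Hom0 f →
  ∀ x y z w : ℤ, x * w - y * z = (n : ℤ) →
  ∑ m ∈ (Sn n).filter (fun m => (n : ℤ) ∣ x * m.1 + y * m.2.2.1 ∧ (n : ℤ) ∣ x * m.2.1 + y * m.2.2.2 ∧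
      (n : ℤ) ∣ z * m.1 + w * m.2.2.1 ∧ (n : ℤ) ∣ z * m.2.1 + w * m.2.2.2),
    (f m.1 m.2.2.1 - f m.2.1 m.2.2.2) = f 1 0 - f 0 1

/-- Hecke operators on Manin symbols -/
def ST_TILE : Prop := ∀ (V : Type) [AddCommGroup V] (N n : ℕ), 1 ≤ N → 1 ≤ n → Nat.Coprime n N →
  ∀ (C : ℤ → ℤ → V) (v : PN N → V), Hom0 C →
  (∀ p x q y : ℤ, p * y - x * q = 1 → ev v q y = C p q - C x y) →
  ∀ p x q y : ℤ, p * y - x * q = 1 →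
    ∑ m ∈ Sn n, ev v (q * m.1 + y * m.2.2.1) (q * m.2.1 + y * m.2.2.2)
      = ∑ t ∈ Tn n, (C (t.1 * p + t.2.1 * q) (t.2.2 * q) - C (t.1 * x + t.2.1 * y) (t.2.2 * y))

/-- lifting residues -/
def ST_SURJ : Prop := ∀ N : ℕ, 1 ≤ N →
  (∀ c d : ℤ, Uni N c d → ∃ c' d' : ℤ, IsCoprime c' d' ∧ (N : ℤ) ∣ c' - c ∧ (N : ℤ) ∣ d' - d) ∧
  (∀ p q r s : ℤ, (N : ℤ) ∣ p * s - q * r - 1 → ∃ p' q' r' s' : ℤ, p' * s' - q' * r' = 1 ∧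
    (N : ℤ) ∣ p' - p ∧ (N : ℤ) ∣ q' - q ∧ (N : ℤ) ∣ r' - r ∧ (N : ℤ) ∣ s' - s)

/-- the projective line is finite -/
def ST_PNF : Prop := ∀ N : ℕ, 1 ≤ N → Finite (PN N) ∧ N ≤ Nat.card (PN N) ∧
  (Nat.card (PN N) : ℝ) ≤ psi N

/-- Manin's theorem: relations give a potential on cusps -/
def ST_FAREY : Prop := ∀ N : ℕ, 1 ≤ N → ∀ v : PN N → ℝ,
  (∀ c d : ℤ, Uni N c d → ev v c d + ev v d (-c) = 0) →
  (∀ c d : ℤ, Uni N c d → ev v c d + ev v (c + d) (-c) + ev v d (-c - d) = 0) →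
  ∃ C : ℤ → ℤ → ℝ, Hom0 C ∧ EqC N C ∧
    ∀ p x q y : ℤ, p * y - x * q = 1 → ev v q y = C p q - C x y

/-- connectedness of the Farey graph -/
def ST_CONN : Prop := ∀ (V : Type) [AddCommGroup V] (A : AddSubgroup V) (C : ℤ → ℤ → V), Hom0 C →
  (∀ p x q y : ℤ, p * y - x * q = 1 → C p q - C x y ∈ A) →
  ∀ p q : ℤ, (p ≠ 0 ∨ q ≠ 0) → C p q - C 1 0 ∈ A

/-- short paths in the Farey graph -/
def ST_FPATH : Prop := ∀ (C : ℤ → ℤ → ℝ) (R : ℝ), 0 ≤ R → Hom0 C →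
  (∀ p x q y : ℤ, p * y - x * q = 1 → |C p q - C x y| ≤ R) →
  ∀ p q : ℤ, IsCoprime p q → |C p q - C 1 0| ≤ (1 + Real.logb 2 (1 + |(q : ℝ)|)) * R

/-- potentials give Manin symbols -/
def ST_VEX : Prop := ∀ (V : Type) [AddCommGroup V] (N : ℕ), 1 ≤ N → ∀ C : ℤ → ℤ → V, Hom0 C →
  EqC N C → ∃ v : PN N → V, ∀ p x q y : ℤ, p * y - x * q = 1 → ev v q y = C p q - C x y

/-- invariant functions on cusps which are Hecke eigenvectors up to constants are constant -/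
def ST_BDRY : Prop := ∀ (N l : ℕ), 1 ≤ N → l.Prime → ¬ l ∣ N → ∀ D : ℤ → ℤ → ℝ, Hom0 D →
  (∀ p q r s : ℤ, G0 N p q r s → ∀ x y : ℤ, (x ≠ 0 ∨ y ≠ 0) →
    D (p * x + q * y) (r * x + s * y) = D x y) →
  ∀ a κ : ℝ, a ^ 2 ≠ ((l : ℝ) + 1) ^ 2 →
  (∀ x y : ℤ, (x ≠ 0 ∨ y ≠ 0) →
    ∑ t ∈ Tn l, D (t.1 * x + t.2.1 * y) (t.2.2 * y) = a * D x y + κ) →
  ∀ x y x' y' : ℤ, (x ≠ 0 ∨ y ≠ 0) → (x' ≠ 0 ∨ y' ≠ 0) → D x y = D x' y'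

/-! ## Elementary estimates -/

/-- divisor bound -/
def ST_DIVB : Prop := ∃ C : ℝ, 0 < C ∧ ∀ n : ℕ, 1 ≤ n →
  (n.divisors.card : ℝ) ≤ C * (n : ℝ) ^ (1 / 16 : ℝ)

/-- Chebyshev lower bound -/
def ST_CHEB : Prop := ∃ c : ℝ, 0 < c ∧ ∀ j : ℕ, 1 ≤ j →
  c * 2 ^ j / (j : ℝ) ≤ (Nat.primeCounting (2 ^ j) : ℝ)

/-- size of `S_n` -/
def ST_SCARD : Prop := ∃ C : ℝ, 0 < C ∧ ∀ n : ℕ, 1 ≤ n →
  n ≤ (Sn n).card ∧ ((Sn n).card : ℝ) ≤ C * (n : ℝ) ^ (9 / 8 : ℝ)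

/-- number of coincidences of two matrices on the projective line;
`B = M adj(M')` is not scalar, its entries are at most `A` -/
def ST_FIX : Prop := ∀ (N A : ℕ) (a b c d a' b' c' d' : ℤ), 1 ≤ N →
  IsCoprime (a * d - b * c) (N : ℤ) → IsCoprime (a' * d' - b' * c') (N : ℤ) →
  |a * d' - b * c'| ≤ A → |b * a' - a * b'| ≤ A → |c * d' - d * c'| ≤ A → |d * a' - c * b'| ≤ A →
  ¬ (b * a' - a * b' = 0 ∧ c * d' - d * c' = 0 ∧ a * d' - b * c' = d * a' - c * b') →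
  (Nat.card {x : PN N // ∃ (s t : ℤ) (h : Uni N s t), x = Quotient.mk (sPN N) ⟨(s, t), h⟩ ∧
    eqv N (s * a + t * c) (s * b + t * d) (s * a' + t * c') (s * b' + t * d')} : ℝ)
    ≤ 2 * A * (N.divisors.card : ℝ) ^ 2 * Real.sqrt N

/-- Hilbert-Schmidt bound for the multiplicity of an eigenvalue -/
def ST_HS : Prop := ∀ (P : Type) [Fintype P] (Q : P → P → ℝ) (L : ℝ)
  (E : Submodule ℝ (P → ℝ)), (∀ v ∈ E, ∀ x, ∑ y, Q x y * v y = L * v x) →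
  L ^ 2 * (Module.finrank ℝ E : ℝ) ≤ ∑ x, ∑ y, Q x y ^ 2

/-- dimension bound -/
def ST_DIMB : Prop := ∃ C : ℝ, 0 < C ∧ ∀ (N j : ℕ) (a : ℕ → ℤ) (E : Submodule ℝ (PN N → ℝ)),
  1 ≤ N → 1 ≤ j → (4 : ℝ) ^ (20 * j) ≤ N →
  C * ((N.primeFactors.card : ℝ) + 1) ^ 2 ≤ 2 ^ j →
  (∀ l : ℕ, l.Prime → ¬ l ∣ N → |a l| ≤ l + 1) →
  (∀ v ∈ E, ∀ l : ℕ, l.Prime → ¬ l ∣ N → l ≤ 2 ^ j →
    HRow N l (a l) v ∧ HRow N (l ^ 2) ((a l : ℝ) ^ 2 - l) v) →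
  (Module.finrank ℝ E : ℝ) ≤ C * (Nat.card (PN N) : ℝ) * (2 : ℝ) ^ (-(j : ℝ) / 4)

/-- integer solutions of linear systems given in blocks -/
def ST_LA : Prop := ∀ (P : Type) [Fintype P] (J : ℕ) (Rw : ℕ → Set (P → ℤ)) (B : ℕ → ℝ)
  (E : ℕ → Submodule ℝ (P → ℝ)), (∀ j, 1 ≤ B j) →
  (∀ j, ∀ r ∈ Rw j, ∑ x, |(r x : ℝ)| ≤ B j) →
  (∀ j, ∀ v, v ∈ E j ↔ ∀ i, i < j → ∀ r ∈ Rw i, ∑ x, (r x : ℝ) * v x = 0) →
  Module.finrank ℝ (E J) = 1 →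
  ∃ v : P → ℤ, v ≠ 0 ∧ (fun x => (v x : ℝ)) ∈ E J ∧
    ∀ x, |(v x : ℝ)| ≤ ∏ j ∈ Finset.range J,
      (B j) ^ (Module.finrank ℝ (E j) - Module.finrank ℝ (E (j + 1)))

/-- the space `E^ε` -/
def Eall (N : ℕ) (a : ℕ → ℤ) (ε : ℝ) (v : PN N → ℝ) : Prop :=
  Rel N ε v ∧ ∀ l : ℕ, l.Prime → ¬ l ∣ N → l ≤ N ^ 6 →
    HRow N l (a l) v ∧ HRow N (l ^ 2) ((a l : ℝ) ^ 2 - l) v

/-- conclusion of the linear algebra: a small integral generator of a line -/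
def ST_TOT : Prop := ∃ C : ℝ, 0 < C ∧ ∀ (N : ℕ) (a : ℕ → ℤ) (ε : ℤ), 1 ≤ N →
  (ε = 1 ∨ ε = -1) → (∀ l : ℕ, l.Prime → ¬ l ∣ N → |a l| ≤ l + 1) →
  ∀ E : Submodule ℝ (PN N → ℝ), (∀ v, v ∈ E ↔ Eall N a ε v) → Module.finrank ℝ E = 1 →
  ∃ v : PN N → ℤ, v ≠ 0 ∧ (fun x => (v x : ℝ)) ∈ E ∧
    ∀ x, |(v x : ℝ)| ≤ Real.exp (C * psi N * Real.log (2 + N.primeFactors.card))

/-! ## Modular forms -/

/-- differentiability of q-series and of the primitive; `b 0 = 0` -/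
def ST_QDIF : Prop := ∀ (M : ℕ) (b : ℕ → ℂ), 1 ≤ M → Cusp M b →
  b 0 = 0 ∧ DifferentiableOn ℂ (qs b) UH ∧
  (∀ τ ∈ UH, HasDerivAt (Fs b) (2 * (Real.pi : ℂ) * I * qs b τ) τ) ∧
  (∀ τ ∈ UH, Summable (fun k : ℕ => b k / (k : ℂ) * exp (2 * (Real.pi : ℂ) * I * (k : ℂ) * τ))) ∧
  (∀ τ ∈ UH, Fs b (τ + 1) = Fs b τ) ∧
  (∃ K : ℝ, ∀ τ ∈ UH, 1 ≤ τ.im → ‖qs b τ‖ ≤ K * Real.exp (-2 * Real.pi * τ.im) ∧
    ‖Fs b τ‖ ≤ K * Real.exp (-2 * Real.pi * τ.im))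

/-- a function transforming like a cusp form is one -/
def ST_QEXP : Prop := ∀ (M : ℕ) (g : ℂ → ℂ), 1 ≤ M → DifferentiableOn ℂ g UH →
  (∀ τ ∈ UH, ∀ p q r s : ℤ, G0 M p q r s →
    g (mo p q r s τ) = ((r : ℂ) * τ + (s : ℂ)) ^ 2 * g τ) →
  (∃ B : ℝ, ∀ τ ∈ UH, τ.im * ‖g τ‖ ≤ B) →
  ∃ b : ℕ → ℂ, Cusp M b ∧ ∀ τ ∈ UH, qs b τ = g τ

/-- uniqueness of coefficients -/
def ST_QUNI : Prop := ∀ b b' : ℕ → ℂ,
  (∀ τ ∈ UH, Summable (fun k : ℕ => b k * exp (2 * (Real.pi : ℂ) * I * (k : ℂ) * τ))) →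
  (∀ τ ∈ UH, Summable (fun k : ℕ => b' k * exp (2 * (Real.pi : ℂ) * I * (k : ℂ) * τ))) →
  (∀ τ ∈ UH, qs b τ = qs b' τ) → b = b'

/-- behaviour of a cusp form and its primitive at all cusps -/
def ST_FLIM : Prop := ∀ (M : ℕ) (b : ℕ → ℂ), 1 ≤ M → Cusp M b →
  (∀ p x q y : ℤ, 0 < p * y - x * q →
    Tendsto (fun z : ℂ => Fs b (mo p x q y z)) (comap Complex.im atTop) (𝓝 (FC b p q)) ∧
    Tendsto (fun z : ℂ => (mo p x q y z).im * ‖qs b (mo p x q y z)‖)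
      (comap Complex.im atTop) (𝓝 0)) ∧
  Hom0 (FC b) ∧ EqC M (FC b) ∧
  (∀ p q r s : ℤ, G0 M p q r s → ∀ τ ∈ UH,
    Fs b (mo p q r s τ) - Fs b τ = FC b p r - FC b 1 0) ∧
  ((∀ k, (starRingEnd ℂ) (b k) = b k) → ∀ p q : ℤ, FC b (-p) q = (starRingEnd ℂ) (FC b p q))

/-- a cusp form has a q-expansion at every cusp for its primitive -/
def ST_FCUSP : Prop := ∀ (M : ℕ) (b : ℕ → ℂ), 1 ≤ M → Cusp M b →
  ∀ p x q y : ℤ, p * y - x * q = 1 → ∃ G : ℂ → ℂ, DifferentiableOn ℂ G (Metric.ball 0 1) ∧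
    ∀ z ∈ UH, G (exp (2 * (Real.pi : ℂ) * I * z / (M : ℂ))) = Fs b (mo p x q y z)

/-- Hecke operators and the primitive -/
def ST_TF : Prop := ∀ (M n : ℕ) (b : ℕ → ℂ), 1 ≤ M → 1 ≤ n → Cusp M b → ∀ τ ∈ UH,
  ∑ t ∈ Tn n, Fs b (((t.1 : ℂ) * τ + (t.2.1 : ℂ)) / (t.2.2 : ℂ))
    = Fs (fun r => ∑ e ∈ (Nat.gcd n r).divisors, (e : ℂ) * b (n * r / e ^ 2)) τ

/-- Hecke operators preserve cusp forms -/
def ST_HECKE : Prop := ∀ (M l : ℕ) (b : ℕ → ℂ), 1 ≤ M → l.Prime → ¬ l ∣ M → Cusp M b →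
  Cusp M (Tl l b)

/-- strict bound for eigenvalues -/
def ST_STRICT : Prop := ∀ (M l : ℕ) (b : ℕ → ℂ) (α : ℂ), 1 ≤ M → l.Prime → ¬ l ∣ M → Cusp M b →
  (∃ n, b n ≠ 0) → (∀ n, Tl l b n = α * b n) → ‖α‖ < l + 1

/-- Sturm bound (crude) -/
def ST_STURM : Prop := ∀ (M : ℕ) (b : ℕ → ℂ), 1 ≤ M → Cusp M b → (∀ n ≤ M ^ 2, b n = 0) →
  ∀ n, b n = 0

/-- depletion -/
def ST_DEPL : Prop := ∀ (M N : ℕ) (b : ℕ → ℂ), 1 ≤ M → 1 ≤ N → Cusp M b →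
  Cusp (M * N ^ 2) (fun n => if Nat.Coprime n N then b n else 0)

/-- abstract form of the Atkin-Lehner lemma -/
def ST_ALG : Prop := ∀ (G : Type) [Group G] [Fintype G] (V : Type) [AddCommGroup V] [Module ℂ V]
  (ρ : Representation ℂ G V) (ι : Type) [DecidableEq ι] (P Q K : ι → Subgroup G) (l : List ι),
  l.Nodup → (∀ i, Q i ≤ P i) → (∀ i, K i ≤ P i) → (∀ i, P i ≤ Q i ⊔ K i) →
  (∀ i j, i ≠ j → ∀ x ∈ P i, ∀ y ∈ P j, x * y = y * x) →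
  ∀ v : V, (∀ i, ∀ x ∈ Q i, ρ x v = v) →
  (∀ e : ι → Module.End ℂ V,
    (∀ i, ∀ w, e i w = ((Nat.card (K i) : ℂ))⁻¹ • ∑ᶠ k : K i, ρ k.1 w) →
    (l.map (fun i => (1 : Module.End ℂ V) - e i)).prod v = 0) →
  ∃ w : ι → V, v = ∑ i ∈ l.toFinset, w i ∧
    ∀ i ∈ l, (∀ x ∈ P i, ρ x (w i) = w i) ∧ ∀ j, j ≠ i → ∀ x ∈ Q j, ρ x (w i) = w i

/-- the subgroups of `SL₂(ℤ/M)` used for the Atkin-Lehner lemma -/
def ST_ALC : Prop := ∀ M : ℕ, 1 ≤ M → ∃ P Q K : ℕ → Subgroup (Matrix.SpecialLinearGroup (Fin 2) (ZMod M)),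
  (∀ p, p.Prime → p ∣ M → Q p ≤ P p ∧ K p ≤ P p ∧ P p ≤ Q p ⊔ K p ∧
    (∀ g ∈ Q p, g 0 1 = 0) ∧
    (∀ g, g ∈ K p ↔ ∃ j : ℕ, g 0 0 = 1 ∧ g 1 0 = 0 ∧ g 1 1 = 1 ∧ g 0 1 = ((j * (M / p) : ℕ) : ZMod M))) ∧
  (∀ p p', p.Prime → p ∣ M → p'.Prime → p' ∣ M → p ≠ p' → ∀ x ∈ P p, ∀ y ∈ P p', x * y = y * x) ∧
  (∀ p, p.Prime → p ∣ M → ∀ g : Matrix.SpecialLinearGroup (Fin 2) (ZMod M),
    (((M / p : ℕ) : ZMod M) ∣ g 0 1) →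
    g ∈ P p ⊔ ⨆ p' ∈ (M.primeFactors.erase p), Q p')

/-- Atkin-Lehner main lemma -/
def ST_AL : Prop := ∀ (M : ℕ) (b : ℕ → ℂ), 1 ≤ M → Cusp M b → (∀ n, Nat.Coprime n M → b n = 0) →
  ∃ w : ℕ → ℕ → ℂ, (∀ p ∈ M.primeFactors, Cusp (M / p) (w p)) ∧
    ∀ n, b n = ∑ p ∈ M.primeFactors, if p ∣ n then w p (n / p) else 0

/-- linear algebra of commuting families -/
def ST_EIG : Prop := ∀ (V W : Type) [AddCommGroup V] [Module ℂ V] [AddCommGroup W] [Module ℂ W]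
  [FiniteDimensional ℂ V] (ι : Type) (T : ι → Module.End ℂ V) (S : ι → Module.End ℂ W)
  (Ψ : V →ₗ[ℂ] W) (lam : ι → ℂ),
  (∀ i j, T i * T j = T j * T i) → (∀ i x, Ψ (T i x) = S i (Ψ x)) →
  (∀ v : V, v ≠ 0 → ∃ (x : V) (μ : ι → ℂ), x ≠ 0 ∧ ∀ i, T i x = μ i • x) ∧
  (∀ v : V, Ψ v ≠ 0 → (∀ i, S i (Ψ v) = lam i • Ψ v) → ∃ x : V, x ≠ 0 ∧ ∀ i, T i x = lam i • x)

/-- finite dimensionality: the submodule of cusp forms -/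
def ST_FD : Prop := ∀ M : ℕ, 1 ≤ M → ∃ S : Submodule ℂ (ℕ → ℂ), (∀ b, b ∈ S ↔ Cusp M b) ∧
  FiniteDimensional ℂ S

/-- strong multiplicity one -/
def ST_MONE : Prop := ∀ (N : ℕ) (a : ℕ → ℤ), 1 ≤ N → Newform N a → ∀ b : ℕ → ℂ, Cusp N b →
  (∀ l : ℕ, l.Prime → ¬ l ∣ N → l ≤ N ^ 6 → ∀ n, Tl l b n = (a l : ℂ) * b n) →
  ∃ κ : ℂ, ∀ n, b n = κ * a n

/-- a cusp form whose periods are purely imaginary vanishes -/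
def ST_INJ : Prop := ∀ (N : ℕ) (b : ℕ → ℂ), 1 ≤ N → Cusp N b →
  (∀ p q r s : ℤ, G0 N p q r s → (FC b p r - FC b 1 0).re = 0) → ∀ n, b n = 0

/-! ## Eichler-Shimura: existence of cusp forms with given real periods -/

/-- Möbius action of `SL₂(ℤ)` -/
noncomputable def mob (g : SL(2, ℤ)) (z : ℂ) : ℂ := mo (g 0 0) (g 0 1) (g 1 0) (g 1 1) z

/-- automorphy factor -/
noncomputable def jj (g : SL(2, ℤ)) (z : ℂ) : ℂ := ((g 1 0 : ℤ) : ℂ) * z + ((g 1 1 : ℤ) : ℂ)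

/-- a weight function: `∑_{γ ∈ Γ₀(N)} W(γ z) = 1` -/
structure WOK (N : ℕ) (W : ℂ → ℝ) : Prop where
  meas : Measurable W
  nonneg : ∀ z, 0 ≤ W z
  le_one : ∀ z, W z ≤ 1
  sum : ∀ z ∈ UH, HasSum (fun g : CongruenceSubgroup.Gamma0 N => W (mob g.1 z)) 1
  supp : ∃ G : Finset SL(2, ℤ), ∀ z, W z ≠ 0 →
    ∃ g ∈ G, ∃ w ∈ UH, |w.re| ≤ 1 / 2 ∧ 1 ≤ ‖w‖ ∧ z = mob g w

/-- existence of the weight function -/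
def ST_WT : Prop := ∀ N : ℕ, 1 ≤ N → ∃ W : ℂ → ℝ, WOK N W

/-- unfolding -/
def ST_UNF : Prop := ∀ (N : ℕ) (W Ψ : ℂ → ℝ), 1 ≤ N → WOK N W → Continuous Ψ →
  HasCompactSupport Ψ → tsupport Ψ ⊆ UH →
  IntegrableOn (fun z => W z * ∑' g : CongruenceSubgroup.Gamma0 N,
    Ψ (mob g.1 z) * (‖jj g.1 z‖ ^ 4)⁻¹) UH ∧
  ∫ z in UH, W z * ∑' g : CongruenceSubgroup.Gamma0 N, Ψ (mob g.1 z) * (‖jj g.1 z‖ ^ 4)⁻¹
    = ∫ z in UH, Ψ z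

/-- integrals over regions with bounded overlap -/
def ST_COV : Prop := ∀ (N : ℕ) (W : ℂ → ℝ), 1 ≤ N → WOK N W → ∀ (K : Set ℂ) (m : ℕ),
  MeasurableSet K → K ⊆ UH →
  (∀ z ∈ K, {g : SL(2, ℤ) | mob g z ∈ K}.Finite ∧ {g : SL(2, ℤ) | mob g z ∈ K}.ncard ≤ m) →
  ∀ Φ : ℂ → ℝ, ContinuousOn Φ UH → (∀ z ∈ UH, 0 ≤ Φ z) →
  (∀ g ∈ CongruenceSubgroup.Gamma0 N, ∀ z ∈ UH, Φ (mob g z) = ‖jj g z‖ ^ 4 * Φ z) →
  IntegrableOn (fun z => W z * Φ z) UH →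
  IntegrableOn Φ K ∧ ∫ z in K, Φ z ≤ m * ∫ z in UH, W z * Φ z

/-- compact sets have bounded overlap; so have the pieces of cusp neighbourhoods -/
def ST_OVER : Prop := (∀ K : Set ℂ, IsCompact K → K ⊆ UH → ∃ m : ℕ, ∀ z ∈ K,
    {g : SL(2, ℤ) | mob g z ∈ K}.Finite ∧ {g : SL(2, ℤ) | mob g z ∈ K}.ncard ≤ m) ∧
  (∀ h : SL(2, ℤ), ∀ z ∈ mob h '' {z : ℂ | 0 ≤ z.re ∧ z.re ≤ 1 ∧ 2 ≤ z.im},
    {g : SL(2, ℤ) | mob g z ∈ mob h '' {z : ℂ | 0 ≤ z.re ∧ z.re ≤ 1 ∧ 2 ≤ z.im}}.Finite ∧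
    {g : SL(2, ℤ) | mob g z ∈ mob h '' {z : ℂ | 0 ≤ z.re ∧ z.re ≤ 1 ∧ 2 ≤ z.im}}.ncard ≤ 6)

/-- partial derivatives -/
noncomputable def ux (u : ℂ → ℝ) (z : ℂ) : ℝ := fderiv ℝ u z 1
noncomputable def uy (u : ℂ → ℝ) (z : ℂ) : ℝ := fderiv ℝ u z I

/-- `∇u · ∇v` -/
noncomputable def DD (u v : ℂ → ℝ) (z : ℂ) : ℝ := ux u z * ux v z + uy u z * uy v z

/-- `u_x - i u_y` -/
noncomputable def cc (u : ℂ → ℝ) (z : ℂ) : ℂ := (ux u z : ℂ) - I * (uy u z : ℂ)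

/-- admissible functions with periods `ρ` -/
structure Adm (N : ℕ) (W : ℂ → ℝ) (ρ : SL(2, ℤ) → ℝ) (u : ℂ → ℝ) : Prop where
  smooth : ContDiffOn ℝ (⊤ : ℕ∞) u UH
  eqv : ∀ g ∈ CongruenceSubgroup.Gamma0 N, ∀ z ∈ UH, u (mob g z) = u z + ρ g
  fin : IntegrableOn (fun z => W z * DD u u z) UH

/-- existence of an admissible function -/
def ST_UZ : Prop := ∀ (N : ℕ) (W : ℂ → ℝ) (C : ℤ → ℤ → ℝ), 1 ≤ N → WOK N W → Hom0 C → EqC N C →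
  ∃ u : ℂ → ℝ, Adm N W (fun g => C (g 0 0) (g 1 0) - C 1 0) u

/-- conformal invariance of the energy density, and of `cc` -/
def ST_CONF : Prop := ∀ (N : ℕ) (W : ℂ → ℝ) (ρ ρ' : SL(2, ℤ) → ℝ) (u v : ℂ → ℝ), 1 ≤ N →
  Adm N W ρ u → Adm N W ρ' v → ∀ g ∈ CongruenceSubgroup.Gamma0 N, ∀ z ∈ UH,
    cc u (mob g z) = jj g z ^ 2 * cc u z ∧ DD u v (mob g z) = ‖jj g z‖ ^ 4 * DD u v z

/-- minimizing sequence -/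
def ST_MIN : Prop := ∀ (N : ℕ) (W : ℂ → ℝ) (ρ : SL(2, ℤ) → ℝ) (u0 : ℂ → ℝ), 1 ≤ N → WOK N W →
  Adm N W ρ u0 → ∃ u : ℕ → ℂ → ℝ, (∀ j, Adm N W ρ (u j)) ∧
    (∀ ε : ℝ, 0 < ε → ∃ J : ℕ, ∀ i j, J ≤ i → J ≤ j →
      ∫ z in UH, W z * DD (fun w => u i w - u j w) (fun w => u i w - u j w) z ≤ ε) ∧
    (∀ v : ℂ → ℝ, Adm N W (fun _ => 0) v →
      Tendsto (fun j => ∫ z in UH, W z * DD (u j) v z) atTop (𝓝 0)) ∧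
    (∃ B : ℝ, ∀ j, ∫ z in UH, W z * DD (u j) (u j) z ≤ B)

/-- periodization of a test function is admissible with zero periods, and unfolds -/
def ST_TEST : Prop := ∀ (N : ℕ) (W : ℂ → ℝ) (ρ : SL(2, ℤ) → ℝ) (u a : ℂ → ℝ), 1 ≤ N → WOK N W →
  Adm N W ρ u → ContDiff ℝ (⊤ : ℕ∞) a → HasCompactSupport a → tsupport a ⊆ UH →
  Adm N W (fun _ => 0) (fun z => ∑' g : CongruenceSubgroup.Gamma0 N, a (mob g.1 z)) ∧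
  ∫ z in UH, W z * DD u (fun z => ∑' g : CongruenceSubgroup.Gamma0 N, a (mob g.1 z)) z
    = ∫ z in UH, DD u a z

/-- Weyl's lemma on discs for sequences -/
def ST_WEYL2 : Prop := ∀ (z0 : ℂ) (r : ℝ) (u : ℕ → ℂ → ℝ), 0 < r →
  (∀ j, ContDiffOn ℝ (⊤ : ℕ∞) (u j) (Metric.ball z0 (2 * r))) →
  (∀ ε : ℝ, 0 < ε → ∃ J : ℕ, ∀ i j, J ≤ i → J ≤ j →
    ∫ z in Metric.ball z0 r, ‖cc (u i) z - cc (u j) z‖ ^ 2 ≤ ε) →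
  (∀ a : ℂ → ℝ, ContDiff ℝ (⊤ : ℕ∞) a → HasCompactSupport a → tsupport a ⊆ Metric.ball z0 r →
    Tendsto (fun j => ∫ z in Metric.ball z0 r, DD (u j) a z) atTop (𝓝 0)) →
  ∃ h : ℂ → ℂ, DifferentiableOn ℂ h (Metric.ball z0 r) ∧
    IntegrableOn (fun z => ‖h z‖ ^ 2) (Metric.ball z0 r) ∧
    Tendsto (fun j => ∫ z in Metric.ball z0 r, ‖cc (u j) z - h z‖ ^ 2) atTop (𝓝 0)

/-- the limit -/
def ST_LIM : Prop := ∀ (N : ℕ) (W : ℂ → ℝ) (ρ : SL(2, ℤ) → ℝ) (u : ℕ → ℂ → ℝ), 1 ≤ N → WOK N W →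
  (∀ j, Adm N W ρ (u j)) →
  (∀ ε : ℝ, 0 < ε → ∃ J : ℕ, ∀ i j, J ≤ i → J ≤ j →
    ∫ z in UH, W z * DD (fun w => u i w - u j w) (fun w => u i w - u j w) z ≤ ε) →
  (∀ v : ℂ → ℝ, Adm N W (fun _ => 0) v →
    Tendsto (fun j => ∫ z in UH, W z * DD (u j) v z) atTop (𝓝 0)) →
  ∃ h : ℂ → ℂ, DifferentiableOn ℂ h UH ∧ ∀ z0 ∈ UH, ∃ r : ℝ, 0 < r ∧ Metric.closedBall z0 r ⊆ UH ∧
    Tendsto (fun j => ∫ z in Metric.ball z0 r, ‖cc (u j) z - h z‖ ^ 2) atTop (𝓝 0)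

/-- equivariance and finite energy of the limit -/
def ST_EQV : Prop := ∀ (N : ℕ) (W : ℂ → ℝ) (ρ : SL(2, ℤ) → ℝ) (u : ℕ → ℂ → ℝ) (h : ℂ → ℂ), 1 ≤ N →
  WOK N W → (∀ j, Adm N W ρ (u j)) →
  (∃ B : ℝ, ∀ j, ∫ z in UH, W z * DD (u j) (u j) z ≤ B) → DifferentiableOn ℂ h UH →
  (∀ z0 ∈ UH, ∃ r : ℝ, 0 < r ∧ Metric.closedBall z0 r ⊆ UH ∧
    Tendsto (fun j => ∫ z in Metric.ball z0 r, ‖cc (u j) z - h z‖ ^ 2) atTop (𝓝 0)) →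
  (∀ g ∈ CongruenceSubgroup.Gamma0 N, ∀ z ∈ UH, h (mob g z) = jj g z ^ 2 * h z) ∧
  IntegrableOn (fun z => W z * ‖h z‖ ^ 2) UH

/-- periods of the limit -/
def ST_PER : Prop := ∀ (N : ℕ) (W : ℂ → ℝ) (ρ : SL(2, ℤ) → ℝ) (u : ℕ → ℂ → ℝ) (h P : ℂ → ℂ), 1 ≤ N →
  (∀ j, Adm N W ρ (u j)) →
  (∀ z ∈ UH, HasDerivAt P (h z) z) → DifferentiableOn ℂ h UH →
  (∀ z0 ∈ UH, ∃ r : ℝ, 0 < r ∧ Metric.closedBall z0 r ⊆ UH ∧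
    Tendsto (fun j => ∫ z in Metric.ball z0 r, ‖cc (u j) z - h z‖ ^ 2) atTop (𝓝 0)) →
  (∀ g ∈ CongruenceSubgroup.Gamma0 N, ∀ z ∈ UH, h (mob g z) = jj g z ^ 2 * h z) →
  ∀ g ∈ CongruenceSubgroup.Gamma0 N, ∀ z ∈ UH, (P (mob g z) - P z).re = ρ g

/-- finite energy implies cuspidality -/
def ST_CSP : Prop := ∀ (N : ℕ) (W : ℂ → ℝ) (h : ℂ → ℂ), 1 ≤ N → WOK N W → DifferentiableOn ℂ h UH →
  (∀ g ∈ CongruenceSubgroup.Gamma0 N, ∀ z ∈ UH, h (mob g z) = jj g z ^ 2 * h z) →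
  IntegrableOn (fun z => W z * ‖h z‖ ^ 2) UH →
  ∃ B : ℝ, ∀ z ∈ UH, z.im * ‖h z‖ ≤ B

/-- Eichler-Shimura: existence of a cusp form with given real periods -/
def ST_ES : Prop := ∀ (N : ℕ) (C : ℤ → ℤ → ℝ), 1 ≤ N → Hom0 C → EqC N C →
  ∃ b : ℕ → ℂ, Cusp N b ∧ ∀ p q r s : ℤ, G0 N p q r s →
    (FC b p r - FC b 1 0).re = C p r - C 1 0

/-! ## Assembly -/

/-- Manin symbols of a newform satisfy all rows -/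
def ST_VF : Prop := ∀ (N : ℕ) (a : ℕ → ℤ), 1 ≤ N → Newform N a →
  ∃ v : PN N → ℂ, (∀ p x q y : ℤ, p * y - x * q = 1 →
    ev v q y = FC (fun k => (a k : ℂ)) p q - FC (fun k => (a k : ℂ)) x y) ∧
    Eall N a 1 (fun x => (v x).re) ∧ Eall N a (-1) (fun x => (v x).im)

/-- the two eigenspaces are at most one dimensional -/
def ST_DIMO : Prop := ∀ (N : ℕ) (a : ℕ → ℤ) (v : PN N → ℂ), 1 ≤ N → Newform N a →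
  (∀ p x q y : ℤ, p * y - x * q = 1 →
    ev v q y = FC (fun k => (a k : ℂ)) p q - FC (fun k => (a k : ℂ)) x y) →
  (∀ w : PN N → ℝ, Eall N a 1 w → ∃ κ : ℝ, ∀ x, w x = κ * (v x).re) ∧
  (∀ w : PN N → ℝ, Eall N a (-1) w → ∃ κ : ℝ, ∀ x, w x = κ * (v x).im)

/-- the main theorem in terms of cusps -/
def ST_MAIN : Prop := ∃ C : ℝ, 0 < C ∧ ∀ (N : ℕ) (a : ℕ → ℤ), 1 ≤ N → Newform N a →
  ∀ (p1 r1 p2 r2 : ℤ) (q1 s1 q2 s2 : ℤ) (Ω₁ Ω₂ : ℂ), G0 N p1 q1 r1 s1 → G0 N p2 q2 r2 s2 →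
  Ω₁ = FC (fun k => (a k : ℂ)) p1 r1 → Ω₂ = FC (fun k => (a k : ℂ)) p2 r2 →
  Ω₁.im = 0 → 0 < Ω₁.re → 0 < Ω₂.im → 0 ≤ Ω₂.re → Ω₂.re < Ω₁.re →
  ∀ p q r s : ℤ, G0 N p q r s → ∀ m n : ℤ,
    FC (fun k => (a k : ℂ)) p r = (m : ℂ) * Ω₁ + (n : ℂ) * Ω₂ →
    |(m : ℝ)| ≤ (1 + Real.log (1 + |(r : ℝ)|)) *
      Real.exp (C * psi N * Real.log (2 + N.primeFactors.card)) ∧
    |(n : ℝ)| ≤ (1 + Real.log (1 + |(r : ℝ)|)) *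
      Real.exp (C * psi N * Real.log (2 + N.primeFactors.card))

end Pool.Agent.Helper96.MP
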