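import Pool.Agent.Helper96.MP.Defs

set_option autoImplicit false

namespace Pool.Agent.Helper96.MP

open Complex

theorem main_ev_add {N : ℕ} (v w : PN N → ℝ) (c d : ℤ) :
    ev (fun x => v x + w x) c d = ev v c d + ev w c d := by
  unfold ev
  by_cases h : Uni N c d
  · simp [h]
  · simp [h]

theorem main_ev_mul {N : ℕ} (k : ℝ) (v : PN N → ℝ) (c d : ℤ) :
    ev (fun x => k * v x) c d = k * ev v c d := by
  unfold ev
  by_cases h : Uni N c d
  · simp [h]
  · simp [h]

theorem main_ev_zero {N : ℕ} (c d : ℤ) : ev (fun _ : PN N => (0 : ℝ)) c d = 0 := by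
  unfold ev
  by_cases h : Uni N c d
  · simp [h]
  · simp [h]

theorem main_ev_bd {N : ℕ} (v : PN N → ℝ) (R : ℝ) (hR : 0 ≤ R) (h : ∀ x, |v x| ≤ R) (c d : ℤ) :
    |ev v c d| ≤ R := by
  unfold ev
  by_cases h' : Uni N c d
  · simp only [h', dif_pos]; exact h _
  · simp only [h', dif_neg, not_false_eq_true]; simpa using hR

theorem main_hrow_add {N n : ℕ} {α : ℝ} {v w : PN N → ℝ} (hv : HRow N n α v) (hw : HRow N n α w) :
    HRow N n α (fun x => v x + w x) := by
  intro c d h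
  simp only [main_ev_add, Finset.sum_add_distrib]
  rw [hv c d h, hw c d h]; ring

theorem main_hrow_mul {N n : ℕ} {α : ℝ} {v : PN N → ℝ} (k : ℝ) (hv : HRow N n α v) :
    HRow N n α (fun x => k * v x) := by
  intro c d h
  simp only [main_ev_mul, ← Finset.mul_sum]
  rw [hv c d h]; ring

theorem main_hrow_zero {N n : ℕ} {α : ℝ} : HRow N n α (fun _ : PN N => (0 : ℝ)) := by
  intro c d h
  simp only [main_ev_zero]; simp

theorem main_rel_add {N : ℕ} {ε : ℝ} {v w : PN N → ℝ} (hv : Rel N ε v) (hw : Rel N ε w) :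
    Rel N ε (fun x => v x + w x) := by
  refine ⟨?_, ?_, ?_⟩
  · intro c d h; have h1 := hv.two c d h; have h2 := hw.two c d h
    simp only [main_ev_add]; linarith
  · intro c d h; have h1 := hv.three c d h; have h2 := hw.three c d h
    simp only [main_ev_add]; linarith
  · intro c d h; have h1 := hv.sign c d h; have h2 := hw.sign c d h
    simp only [main_ev_add]; rw [h1, h2]; ring

theorem main_rel_mul {N : ℕ} {ε : ℝ} {v : PN N → ℝ} (k : ℝ) (hv : Rel N ε v) :
    Rel N ε (fun x => k * v x) := by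
  refine ⟨?_, ?_, ?_⟩
  · intro c d h; have h1 := hv.two c d h
    simp only [main_ev_mul]; rw [← mul_add, h1, mul_zero]
  · intro c d h; have h1 := hv.three c d h
    simp only [main_ev_mul]; rw [← mul_add, ← mul_add, h1, mul_zero]
  · intro c d h; have h1 := hv.sign c d h
    simp only [main_ev_mul]; rw [h1]; ring

theorem main_rel_zero {N : ℕ} {ε : ℝ} : Rel N ε (fun _ : PN N => (0 : ℝ)) := by
  refine ⟨?_, ?_, ?_⟩ <;> intro c d h <;> simp only [main_ev_zero] <;> simp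

/-- `E^ε` as a submodule -/
def mainE (N : ℕ) (a : ℕ → ℤ) (ε : ℝ) : Submodule ℝ (PN N → ℝ) where
  carrier := {v | Eall N a ε v}
  zero_mem' := ⟨main_rel_zero, fun l _ _ _ => ⟨main_hrow_zero, main_hrow_zero⟩⟩
  add_mem' := by
    intro v w hv hw
    exact ⟨main_rel_add hv.1 hw.1, fun l h1 h2 h3 =>
      ⟨main_hrow_add (hv.2 l h1 h2 h3).1 (hw.2 l h1 h2 h3).1,
        main_hrow_add (hv.2 l h1 h2 h3).2 (hw.2 l h1 h2 h3).2⟩⟩
  smul_mem' := by
    intro k v hv
    exact ⟨main_rel_mul k hv.1, fun l h1 h2 h3 =>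
      ⟨main_hrow_mul k (hv.2 l h1 h2 h3).1, main_hrow_mul k (hv.2 l h1 h2 h3).2⟩⟩

theorem main_finrank (N : ℕ) (a : ℕ → ℤ) (ε : ℝ) (u : PN N → ℝ) (hu : Eall N a ε u) (hu0 : u ≠ 0)
    (hline : ∀ w, Eall N a ε w → ∃ κ : ℝ, ∀ x, w x = κ * u x) :
    Module.finrank ℝ (mainE N a ε) = 1 := by
  refine finrank_eq_one_iff'.mpr ⟨⟨u, hu⟩, ?_, ?_⟩
  · intro h
    apply hu0
    exact congrArg Subtype.val h
  · rintro ⟨w, hw⟩
    obtain ⟨κ, hκ⟩ := hline w hw
    refine ⟨κ, ?_⟩
    apply Subtype.ext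
    funext x
    simp [hκ x]

theorem main_line (hFAREY : ST_FAREY) (hFPATH : ST_FPATH) (hCONN : ST_CONN) (C0 : ℝ)
    (hC0 : ∀ (N : ℕ) (a : ℕ → ℤ) (ε : ℤ), 1 ≤ N →
      (ε = 1 ∨ ε = -1) → (∀ l : ℕ, l.Prime → ¬ l ∣ N → |a l| ≤ l + 1) →
      ∀ E : Submodule ℝ (PN N → ℝ), (∀ v, v ∈ E ↔ Eall N a ε v) → Module.finrank ℝ E = 1 →
      ∃ v : PN N → ℤ, v ≠ 0 ∧ (fun x => (v x : ℝ)) ∈ E ∧
        ∀ x, |(v x : ℝ)| ≤ Real.exp (C0 * psi N * Real.log (2 + N.primeFactors.card)))
    (N : ℕ) (a : ℕ → ℤ) (hN : 1 ≤ N) (ε : ℤ) (hε : ε = 1 ∨ ε = -1)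
    (habs : ∀ l : ℕ, l.Prime → ¬ l ∣ N → |a l| ≤ l + 1)
    (u : PN N → ℝ) (D : ℤ → ℤ → ℝ) (hD : Hom0 D)
    (hedge : ∀ p x q y : ℤ, p * y - x * q = 1 → ev u q y = D p q - D x y)
    (hu : Eall N a ε u) (hline : ∀ w, Eall N a ε w → ∃ κ : ℝ, ∀ x, w x = κ * u x)
    (p1 r1 : ℤ) (hcop1 : IsCoprime p1 r1) (h1 : D p1 r1 - D 1 0 ≠ 0)
    (p r : ℤ) (hcop : IsCoprime p r) :
    |D p r - D 1 0| ≤ |D p1 r1 - D 1 0| * ((1 + Real.logb 2 (1 + |(r : ℝ)|)) *
      Real.exp (C0 * psi N * Real.log (2 + N.primeFactors.card))) := by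
  have hne : ∀ p q : ℤ, IsCoprime p q → (p ≠ 0 ∨ q ≠ 0) := by
    intro p q h
    by_contra hcon
    push Not at hcon
    rw [hcon.1, hcon.2, isCoprime_zero_left] at h
    exact not_isUnit_zero h
  have hu0 : u ≠ 0 := by
    intro h0
    apply h1
    have := hCONN ℝ ⊥ D hD (by
      intro p x q y h
      rw [← hedge p x q y h, h0, AddSubgroup.mem_bot]
      exact main_ev_zero (N := N) q y) p1 r1 (hne _ _ hcop1)
    simpa using this
  obtain ⟨w, hw0, hwE, hwR⟩ := hC0 N a ε hN hε habs (mainE N a ε) (fun v => Iff.rfl)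
    (main_finrank N a ε u hu hu0 hline)
  set R := Real.exp (C0 * psi N * Real.log (2 + N.primeFactors.card)) with hR
  have hR0 : 0 ≤ R := (Real.exp_pos _).le
  obtain ⟨κ, hκ⟩ := hline _ hwE
  have hκ0 : κ ≠ 0 := by
    intro h0
    apply hw0
    funext x
    have := hκ x
    rw [h0, zero_mul] at this
    exact_mod_cast this
  obtain ⟨C', hC'h, hC'e, hC'edge⟩ := hFAREY N hN (fun x => (w x : ℝ))
    hwE.1.two hwE.1.three
  -- differences
  have hdiff : ∀ p q : ℤ, (p ≠ 0 ∨ q ≠ 0) → C' p q - C' 1 0 = κ * (D p q - D 1 0) := by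
    intro p q h
    have hH : Hom0 (fun p q => C' p q - κ * D p q) := by
      intro k p q hk
      simp only
      rw [hC'h k p q hk, hD k p q hk]
    have := hCONN ℝ ⊥ (fun p q => C' p q - κ * D p q) hH (by
      intro p x q y h
      have e1 := hC'edge p x q y h
      have e2 := hedge p x q y h
      have e3 : ev (fun x => (w x : ℝ)) q y = κ * ev u q y := by
        rw [← main_ev_mul]
        congr 1
        funext x
        exact hκ x
      rw [AddSubgroup.mem_bot]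
      rw [e1, e2] at e3
      linarith) p q h
    rw [AddSubgroup.mem_bot] at this
    linarith
  -- integrality
  have hint : ∀ p q : ℤ, (p ≠ 0 ∨ q ≠ 0) → ∃ z : ℤ, C' p q - C' 1 0 = z := by
    intro p q h
    have := hCONN ℝ (Int.castAddHom ℝ).range C' hC'h (by
      intro p x q y h
      rw [← hC'edge p x q y h]
      unfold ev
      by_cases h' : Uni N q y
      · simp only [h', dif_pos]
        exact ⟨_, rfl⟩
      · simp only [h', dif_neg, not_false_eq_true]
        exact AddSubgroup.zero_mem _) p q h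
    obtain ⟨z, hz⟩ := this
    exact ⟨z, hz.symm⟩
  have hpath := hFPATH C' R hR0 hC'h (by
    intro p x q y h
    rw [← hC'edge p x q y h]
    exact main_ev_bd _ R hR0 hwR q y) p r hcop
  obtain ⟨z1, hz1⟩ := hint p1 r1 (hne _ _ hcop1)
  have hz10 : z1 ≠ 0 := by
    intro h0
    rw [hdiff p1 r1 (hne _ _ hcop1), h0] at hz1
    have : κ * (D p1 r1 - D 1 0) ≠ 0 := mul_ne_zero hκ0 h1
    exact this (by simpa using hz1)
  have hz1' : (1 : ℝ) ≤ |κ| * |D p1 r1 - D 1 0| := by
    rw [← abs_mul, ← hdiff p1 r1 (hne _ _ hcop1), hz1]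
    have : (1 : ℤ) ≤ |z1| := Int.one_le_abs hz10
    exact_mod_cast this
  rw [hdiff p r (hne _ _ hcop), abs_mul] at hpath
  have hκp : 0 < |κ| := abs_pos.mpr hκ0
  set B := (1 + Real.logb 2 (1 + |(r : ℝ)|)) * R with hB
  have hB0 : 0 ≤ B := by
    apply mul_nonneg _ hR0
    have : 0 ≤ Real.logb 2 (1 + |(r : ℝ)|) :=
      Real.logb_nonneg (by norm_num) (by linarith [abs_nonneg (r : ℝ)])
    linarith
  -- |κ| |D| ≤ B, 1 ≤ |κ| |D1|
  have h3 : |κ| * |D p r - D 1 0| ≤ |κ| * (|D p1 r1 - D 1 0| * B) := by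
    calc |κ| * |D p r - D 1 0| ≤ B := hpath
      _ = 1 * B := (one_mul B).symm
      _ ≤ (|κ| * |D p1 r1 - D 1 0|) * B := mul_le_mul_of_nonneg_right hz1' hB0
      _ = _ := by ring
  exact le_of_mul_le_mul_left h3 hκp

theorem main_psi_one (N : ℕ) (hN : 1 ≤ N) : 1 ≤ psi N := by
  unfold psi
  have h1 : (1 : ℝ) ≤ N := by exact_mod_cast hN
  have h2 : (1 : ℝ) ≤ ∏ p ∈ N.primeFactors, (1 + 1 / (p : ℝ)) := by
    apply Finset.one_le_prod
    intro p _
    have : (0 : ℝ) ≤ 1 / (p : ℝ) := by positivity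
    linarith
  calc (1 : ℝ) = 1 * 1 := by ring
    _ ≤ _ := mul_le_mul h1 h2 (by norm_num) (by linarith)

theorem st_MAIN (hVF : ST_VF) (hDIMO : ST_DIMO) (hTOT : ST_TOT) (hFAREY : ST_FAREY)
    (hFPATH : ST_FPATH) (hCONN : ST_CONN) (hFLIM : ST_FLIM) (hSTRICT : ST_STRICT) : ST_MAIN := by
  obtain ⟨C0, hC0pos, hC0⟩ := hTOT
  refine ⟨C0 + 2, by linarith, ?_⟩
  intro N a hN hnf p1 r1 p2 r2 q1 s1 q2 s2 Ω₁ Ω₂ hg1 hg2 hΩ1 hΩ2 hΩ1im hΩ1re hΩ2im hΩ2re hΩ2lt
    p q r s hg m n hmn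
  set b : ℕ → ℂ := fun k => (a k : ℂ) with hb
  obtain ⟨v, hv, hvre, hvim⟩ := hVF N a hN hnf
  obtain ⟨hline1, hline2⟩ := hDIMO N a v hN hnf hv
  have hFC := hFLIM N b hN hnf.cusp
  obtain ⟨_, hhom, _, _, _⟩ := hFC
  have hFC10 : FC b 1 0 = 0 := by simp [FC]
  have habs : ∀ l : ℕ, l.Prime → ¬ l ∣ N → |a l| ≤ l + 1 := by
    intro l hl hlN
    have h1 := hSTRICT N l b (a l) hN hl hlN hnf.cusp ⟨1, by simp [hb, hnf.one]⟩ (by
      intro n
      have := hnf.hecke l hl hlN n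
      unfold Tl
      simp only [hb]
      rw [← Int.cast_mul, ← this]
      split_ifs <;> push_cast <;> ring)
    have h2 : ‖((a l : ℤ) : ℂ)‖ = ((|a l| : ℤ) : ℝ) := by
      rw [Complex.norm_intCast]; push_cast; rfl
    rw [h2] at h1
    have h3 : ((|a l| : ℤ) : ℝ) < ((l + 1 : ℤ) : ℝ) := by push_cast; push_cast at h1; exact h1
    exact le_of_lt (by exact_mod_cast h3)
  have hcop : ∀ p q r s : ℤ, G0 N p q r s → IsCoprime p r := by
    intro p q r s h
    exact ⟨s, -q, by linarith [h.1]⟩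
  -- real part
  have hre := main_line hFAREY hFPATH hCONN C0 hC0 N a hN 1 (Or.inl rfl) habs
    (fun x => (v x).re) (fun p q => (FC b p q).re)
    (by intro k p q hk; simp only; rw [hhom k p q hk])
    (by
      intro p x q y h
      have := hv p x q y h
      have h2 : ev (fun x => (v x).re) q y = (ev v q y).re := by
        unfold ev
        by_cases h' : Uni N q y
        · simp [h']
        · simp [h']
      rw [h2, this]; simp [hb])
    (by simpa using hvre) (by simpa using hline1) p1 r1 (hcop _ _ _ _ hg1)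
    (by simp only [hFC10]; rw [← hΩ1]; simp; exact ne_of_gt hΩ1re) p r (hcop _ _ _ _ hg)
  have him := main_line hFAREY hFPATH hCONN C0 hC0 N a hN (-1) (Or.inr rfl) habs
    (fun x => (v x).im) (fun p q => (FC b p q).im)
    (by intro k p q hk; simp only; rw [hhom k p q hk])
    (by
      intro p x q y h
      have := hv p x q y h
      have h2 : ev (fun x => (v x).im) q y = (ev v q y).im := by
        unfold ev
        by_cases h' : Uni N q y
        · simp [h']
        · simp [h']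
      rw [h2, this]; simp [hb])
    (by simpa using hvim) (by simpa using hline2) p2 r2 (hcop _ _ _ _ hg2)
    (by simp only [hFC10]; rw [← hΩ2]; simp; exact ne_of_gt hΩ2im) p r (hcop _ _ _ _ hg)
  simp only [hFC10, Complex.zero_re, Complex.zero_im, sub_zero] at hre him
  rw [← hΩ1, hmn] at hre
  rw [← hΩ2, hmn] at him
  have e1 : ((m : ℂ) * Ω₁ + (n : ℂ) * Ω₂).im = n * Ω₂.im := by
    simp [hΩ1im]
  have e2 : ((m : ℂ) * Ω₁ + (n : ℂ) * Ω₂).re = m * Ω₁.re + n * Ω₂.re := by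
    simp
  rw [e1, abs_mul, abs_of_pos hΩ2im] at him
  rw [e2, abs_of_pos hΩ1re] at hre
  set B := (1 + Real.logb 2 (1 + |(r : ℝ)|)) *
      Real.exp (C0 * psi N * Real.log (2 + N.primeFactors.card)) with hB
  have hn : |(n : ℝ)| ≤ B := by
    have : Ω₂.im * |(n : ℝ)| ≤ Ω₂.im * B := by linarith
    exact le_of_mul_le_mul_left this hΩ2im
  have hm : |(m : ℝ)| ≤ 2 * B := by
    have h1 : |(m : ℝ) * Ω₁.re| ≤ Ω₁.re * B + |(n : ℝ) * Ω₂.re| := by
      have : (m : ℝ) * Ω₁.re = ((m : ℝ) * Ω₁.re + n * Ω₂.re) - n * Ω₂.re := by ring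
      rw [this]
      refine (abs_sub _ _).trans ?_
      linarith
    rw [abs_mul, abs_mul, abs_of_pos hΩ1re, abs_of_nonneg hΩ2re] at h1
    have h2 : |(n : ℝ)| * Ω₂.re ≤ B * Ω₁.re :=
      mul_le_mul hn hΩ2lt.le hΩ2re ((abs_nonneg _).trans hn)
    have : Ω₁.re * |(m : ℝ)| ≤ Ω₁.re * (2 * B) := by nlinarith
    exact le_of_mul_le_mul_left this hΩ1re
  -- final constants
  have hB0 : 0 ≤ B := (abs_nonneg _).trans hn
  have hfin : 2 * B ≤ (1 + Real.log (1 + |(r : ℝ)|)) *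
      Real.exp ((C0 + 2) * psi N * Real.log (2 + N.primeFactors.card)) := by
    have hlog : 0 ≤ Real.log (1 + |(r : ℝ)|) :=
      Real.log_nonneg (by linarith [abs_nonneg (r : ℝ)])
    have hl2 : (2 / 3 : ℝ) ≤ Real.log 2 := by
      have := Real.log_two_gt_d9; linarith
    have hlb : Real.logb 2 (1 + |(r : ℝ)|) ≤ 3 / 2 * Real.log (1 + |(r : ℝ)|) := by
      unfold Real.logb
      rw [div_le_iff₀ (by linarith)]
      nlinarith
    have hψ := main_psi_one N hN
    have hL : Real.log 2 ≤ Real.log (2 + N.primeFactors.card) := by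
      apply Real.log_le_log (by norm_num)
      have : (0 : ℝ) ≤ N.primeFactors.card := by positivity
      linarith
    have hexp : (3 : ℝ) ≤ Real.exp (2 * psi N * Real.log (2 + N.primeFactors.card)) := by
      have h4 : 2 * Real.log 2 ≤ 2 * psi N * Real.log (2 + N.primeFactors.card) := by
        have : Real.log 2 ≤ psi N * Real.log (2 + N.primeFactors.card) := by
          calc Real.log 2 ≤ 1 * Real.log (2 + N.primeFactors.card) := by linarith
            _ ≤ _ := mul_le_mul_of_nonneg_right hψ (by linarith)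
        linarith
      calc (3 : ℝ) ≤ 4 := by norm_num
        _ = Real.exp (2 * Real.log 2) := by
            rw [show 2 * Real.log 2 = Real.log (2 ^ 2) by rw [Real.log_pow]; push_cast; ring,
              Real.exp_log (by norm_num)]
            norm_num
        _ ≤ _ := Real.exp_le_exp.mpr h4
    have hsplit : Real.exp ((C0 + 2) * psi N * Real.log (2 + N.primeFactors.card))
        = Real.exp (C0 * psi N * Real.log (2 + N.primeFactors.card)) *
          Real.exp (2 * psi N * Real.log (2 + N.primeFactors.card)) := by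
      rw [← Real.exp_add]; ring_nf
    rw [hsplit, hB]
    set X := Real.exp (C0 * psi N * Real.log (2 + N.primeFactors.card)) with hX
    set Y := Real.exp (2 * psi N * Real.log (2 + N.primeFactors.card)) with hY
    have hX0 : 0 < X := Real.exp_pos _
    set t := Real.log (1 + |(r : ℝ)|) with ht
    have h5 : 2 * (1 + Real.logb 2 (1 + |(r : ℝ)|)) ≤ 3 * (1 + t) := by linarith
    calc 2 * ((1 + Real.logb 2 (1 + |(r : ℝ)|)) * X)
        = (2 * (1 + Real.logb 2 (1 + |(r : ℝ)|))) * X := by ring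
      _ ≤ (3 * (1 + t)) * X := mul_le_mul_of_nonneg_right h5 hX0.le
      _ = (1 + t) * (X * 3) := by ring
      _ ≤ (1 + t) * (X * Y) := by
          apply mul_le_mul_of_nonneg_left _ (by linarith)
          exact mul_le_mul_of_nonneg_left hexp hX0.le
  exact ⟨hm.trans hfin, (hn.trans (by linarith)).trans hfin⟩

end Pool.Agent.Helper96.MP
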