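import Pool.Agent.Helper96.MP.Defs

set_option autoImplicit false

namespace Pool.Agent.Helper96.MP

open Complex Filter Topology

theorem vf_uni_iff (N : ℕ) (c d : ℤ) : Uni N c d ↔
    ∀ k : ℕ, (k : ℤ) ∣ c → (k : ℤ) ∣ d → (k : ℤ) ∣ (N : ℤ) → k = 1 := by
  unfold Uni
  constructor
  · intro h k hc hd hN
    have h1 : (k : ℤ) ∣ (Int.gcd c d : ℤ) := Int.dvd_coe_gcd hc hd
    have h2 : (k : ℤ) ∣ (Int.gcd (Int.gcd c d : ℤ) (N : ℤ) : ℤ) := Int.dvd_coe_gcd h1 hN
    rw [h] at h2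
    exact_mod_cast Int.natCast_dvd_natCast.mp (by simpa using h2) |> Nat.dvd_one.mp
  · intro h
    refine h _ ?_ ?_ ?_
    · exact (Int.gcd_dvd_left _ _).trans (Int.gcd_dvd_left _ _)
    · exact (Int.gcd_dvd_left _ _).trans (Int.gcd_dvd_right _ _)
    · exact Int.gcd_dvd_right _ _

theorem vf_uni_congr {N : ℕ} {c d c' d' : ℤ} (hc : (N : ℤ) ∣ c' - c) (hd : (N : ℤ) ∣ d' - d)
    (h : Uni N c d) : Uni N c' d' := by
  rw [vf_uni_iff] at h ⊢
  intro k h1 h2 h3
  refine h k ?_ ?_ h3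
  · have := dvd_sub h1 (h3.trans hc)
    simpa using this
  · have := dvd_sub h2 (h3.trans hd)
    simpa using this

theorem vf_ev_congr {N : ℕ} {V : Type} [Zero V] (v : PN N → V) {c d c' d' : ℤ}
    (hc : (N : ℤ) ∣ c' - c) (hd : (N : ℤ) ∣ d' - d) : ev v c' d' = ev v c d := by
  unfold ev
  by_cases h : Uni N c d
  · have h' : Uni N c' d' := vf_uni_congr hc hd h
    simp only [h, h', dif_pos]
    congr 1
    apply Quotient.sound
    refine ⟨1, isCoprime_one_left, ?_, ?_⟩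
    · have : c - 1 * c' = -(c' - c) := by ring
      simp only
      rw [this]
      exact (dvd_neg).mpr hc
    · have : d - 1 * d' = -(d' - d) := by ring
      simp only
      rw [this]
      exact (dvd_neg).mpr hd
  · have h' : ¬ Uni N c' d' := by
      intro h'
      apply h
      refine vf_uni_congr (N := N) ?_ ?_ h'
      · have : c - c' = -(c' - c) := by ring
        rw [this]; exact (dvd_neg).mpr hc
      · have : d - d' = -(d' - d) := by ring
        rw [this]; exact (dvd_neg).mpr hd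
    simp only [h, h', dif_neg, not_false_eq_true]

theorem vf_red (hSURJ : ST_SURJ) (N : ℕ) (hN : 1 ≤ N) (c d : ℤ) (h : Uni N c d) :
    ∃ p x q y : ℤ, p * y - x * q = 1 ∧ (N : ℤ) ∣ c - q ∧ (N : ℤ) ∣ d - y := by
  obtain ⟨q, y, hco, hq, hy⟩ := (hSURJ N hN).1 c d h
  obtain ⟨u, w, huw⟩ := hco
  refine ⟨w, -u, q, y, by linarith, ?_, ?_⟩
  · have : c - q = -(q - c) := by ring
    rw [this]; exact (dvd_neg).mpr hq
  · have : d - y = -(y - d) := by ring
    rw [this]; exact (dvd_neg).mpr hy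

theorem vf_nebot : (comap Complex.im (atTop : Filter ℝ)).NeBot :=
  Filter.NeBot.comap_of_surj atTop_neBot Complex.im_surjective

theorem vf_UH_mem : UH ∈ comap Complex.im (atTop : Filter ℝ) := by
  refine ⟨Set.Ioi 0, Ioi_mem_atTop 0, ?_⟩
  intro z hz
  exact hz

/-- Hecke relation at the cusps from the relation in the upper half plane -/
theorem vf_hecke_cusp (hFLIM : ST_FLIM) (N n : ℕ) (b : ℕ → ℂ) (α : ℂ) (hN : 1 ≤ N) (hn : 1 ≤ n)
    (hb : Cusp N b)
    (hT : ∀ τ ∈ UH, ∑ t ∈ Tn n, Fs b (((t.1 : ℂ) * τ + (t.2.1 : ℂ)) / (t.2.2 : ℂ)) = α * Fs b τ)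
    (x y : ℤ) (hxy : x ≠ 0 ∨ y ≠ 0) :
    ∑ t ∈ Tn n, FC b (t.1 * x + t.2.1 * y) (t.2.2 * y) = α * FC b x y := by
  obtain ⟨hlim, _⟩ := hFLIM N b hN hb
  have hpos : 0 < x * x - (-y) * y := by
    rcases hxy with h | h
    · have : 0 < x * x := mul_self_pos.mpr h
      nlinarith [mul_self_nonneg y]
    · have : 0 < y * y := mul_self_pos.mpr h
      nlinarith [mul_self_nonneg x]
  have h1 := (hlim x (-y) y x hpos).1
  have h2 : Tendsto (fun z : ℂ => ∑ t ∈ Tn n, Fs b (mo (t.1 * x + t.2.1 * y)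
      (t.1 * (-y) + t.2.1 * x) (t.2.2 * y) (t.2.2 * x) z)) (comap Complex.im atTop)
      (𝓝 (∑ t ∈ Tn n, FC b (t.1 * x + t.2.1 * y) (t.2.2 * y))) := by
    apply tendsto_finsetSum
    intro t ht
    refine (hlim _ _ _ _ ?_).1
    simp only [Tn, Finset.mem_filter, Finset.mem_product, Finset.mem_range] at ht
    have h3 : ((t.1 : ℤ) * t.2.2) = n := by exact_mod_cast ht.2.1
    have : (↑t.1 * x + ↑t.2.1 * y) * (↑t.2.2 * x) - (↑t.1 * -y + ↑t.2.1 * x) * (↑t.2.2 * y)
        = ((t.1 : ℤ) * t.2.2) * (x * x - (-y) * y) := by ring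
    rw [this, h3]
    exact mul_pos (by exact_mod_cast hn) hpos
  have h3 : Tendsto (fun z : ℂ => α * Fs b (mo x (-y) y x z)) (comap Complex.im atTop)
      (𝓝 (α * FC b x y)) := h1.const_mul α
  have h4 : (fun z : ℂ => ∑ t ∈ Tn n, Fs b (mo (t.1 * x + t.2.1 * y)
      (t.1 * (-y) + t.2.1 * x) (t.2.2 * y) (t.2.2 * x) z)) =ᶠ[comap Complex.im atTop]
      (fun z : ℂ => α * Fs b (mo x (-y) y x z)) := by
    filter_upwards [vf_UH_mem] with z hz
    have hden : (y : ℂ) * z + (x : ℂ) ≠ 0 := by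
      intro h0
      have him : ((y : ℂ) * z + (x : ℂ)).im = 0 := by rw [h0]; simp
      have hre : ((y : ℂ) * z + (x : ℂ)).re = 0 := by rw [h0]; simp
      simp at him hre
      have hz' : z.im ≠ 0 := ne_of_gt hz
      rcases him with h | h
      · rw [h] at hre
        simp at hre
        rcases hxy with h' | h'
        · exact h' (by exact_mod_cast hre)
        · exact h' (by exact_mod_cast h)
      · exact hz' h
    have himpos : 0 < (mo x (-y) y x z).im := by
      have hz' : 0 < z.im := hz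
      unfold mo
      rw [Complex.div_im]
      have hns : 0 < Complex.normSq ((y : ℂ) * z + (x : ℂ)) := Complex.normSq_pos.mpr hden
      rw [← sub_div]
      apply div_pos _ hns
      simp
      have hpos' : (0 : ℝ) < (x : ℝ) * x - (-(y : ℝ)) * y := by exact_mod_cast hpos
      nlinarith
    rw [← hT (mo x (-y) y x z) himpos]
    apply Finset.sum_congr rfl
    intro t ht
    congr 1
    unfold mo
    push_cast
    simp only [Tn, Finset.mem_filter, Finset.mem_product, Finset.mem_range] at ht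
    have htd : (t.2.2 : ℂ) ≠ 0 := by
      have : t.2.2 ≠ 0 := by omega
      exact_mod_cast this
    have hden' : (t.2.2 : ℂ) * (y : ℂ) * z + (t.2.2 : ℂ) * (x : ℂ) ≠ 0 := by
      rw [mul_assoc, ← mul_add]
      exact mul_ne_zero htd hden
    rw [div_eq_div_iff hden' htd]
    have : ((x : ℂ) * z + -(y : ℂ)) / ((y : ℂ) * z + (x : ℂ)) * ((t.2.2 : ℂ) * (y : ℂ) * z + (t.2.2 : ℂ) * (x : ℂ))
        = t.2.2 * ((x : ℂ) * z + -(y : ℂ)) := by
      have : (t.2.2 : ℂ) * (y : ℂ) * z + (t.2.2 : ℂ) * (x : ℂ) = t.2.2 * ((y : ℂ) * z + (x : ℂ)) := by ring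
      rw [this, ← mul_assoc, mul_comm _ (t.2.2 : ℂ), mul_assoc, div_mul_cancel₀ _ hden]
    linear_combination (-(t.1 : ℂ)) * this
  have := vf_nebot
  exact tendsto_nhds_unique h2 (h3.congr' h4.symm)

theorem vf_coef_l (N : ℕ) (a : ℕ → ℤ) (hnf : Newform N a) (l : ℕ) (hl : l.Prime) (hlN : ¬ l ∣ N)
    (r : ℕ) :
    ∑ e ∈ (Nat.gcd l r).divisors, (e : ℤ) * a (l * r / e ^ 2) = a l * a r := by
  have h := hnf.hecke l hl hlN r
  by_cases hr : l ∣ r
  · rw [Nat.gcd_eq_left hr, hl.sum_divisors]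
    rw [if_pos hr] at h
    obtain ⟨r1, rfl⟩ := hr
    have e1 : l * (l * r1) / l ^ 2 = r1 := by
      rw [← mul_assoc, ← sq]; exact Nat.mul_div_cancel_left _ (pow_pos hl.pos 2)
    have e2 : l * r1 / l = r1 := Nat.mul_div_cancel_left _ hl.pos
    rw [e2] at h
    rw [e1]
    simp only [one_pow, Nat.div_one, Nat.cast_one, one_mul]
    linarith
  · have : Nat.gcd l r = 1 := (Nat.Prime.coprime_iff_not_dvd hl).mpr hr
    rw [this, if_neg hr] at *
    simp
    linarith

theorem vf_coef_l2 (N : ℕ) (a : ℕ → ℤ) (hnf : Newform N a) (l : ℕ) (hl : l.Prime) (hlN : ¬ l ∣ N)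
    (r : ℕ) :
    ∑ e ∈ (Nat.gcd (l ^ 2) r).divisors, (e : ℤ) * a (l ^ 2 * r / e ^ 2) = (a l ^ 2 - l) * a r := by
  have h := hnf.hecke l hl hlN r
  have h1 := hnf.hecke l hl hlN (l * r)
  rw [if_pos (dvd_mul_right _ _), Nat.mul_div_cancel_left _ hl.pos] at h1
  have hll : l * (l * r) = l ^ 2 * r := by ring
  rw [hll] at h1
  by_cases hr : l ∣ r
  · obtain ⟨r1, rfl⟩ := hr
    have h2 := hnf.hecke l hl hlN r1
    rw [if_pos (dvd_mul_right _ _), Nat.mul_div_cancel_left _ hl.pos] at h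
    by_cases hr1 : l ∣ r1
    · obtain ⟨r2, rfl⟩ := hr1
      have hg : Nat.gcd (l ^ 2) (l * (l * r2)) = l ^ 2 := by
        apply Nat.gcd_eq_left
        exact ⟨r2, by ring⟩
      rw [hg, Nat.divisors_prime_pow hl]
      rw [if_pos (dvd_mul_right _ _), Nat.mul_div_cancel_left _ hl.pos] at h2
      simp only [Finset.sum_map, Function.Embedding.coeFn_mk, Finset.sum_range_succ,
        Finset.range_zero, Finset.sum_empty]
      have e0 : l ^ 2 * (l * (l * r2)) / (l ^ 0) ^ 2 = l ^ 2 * (l * (l * r2)) := by simp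
      have e1 : l ^ 2 * (l * (l * r2)) / (l ^ 1) ^ 2 = l * (l * r2) := by
        rw [pow_one]; exact Nat.mul_div_cancel_left _ (pow_pos hl.pos 2)
      have e2 : l ^ 2 * (l * (l * r2)) / (l ^ 2) ^ 2 = r2 := by
        have : l ^ 2 * (l * (l * r2)) = (l ^ 2) ^ 2 * r2 := by ring
        rw [this]; exact Nat.mul_div_cancel_left _ (pow_pos (pow_pos hl.pos 2) 2)
      rw [e0, e1, e2]
      push_cast
      linear_combination h1 + (a l) * h + (l : ℤ) * h2
    · have hg : Nat.gcd (l ^ 2) (l * r1) = l := by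
        rw [pow_two, Nat.gcd_mul_left, (Nat.Prime.coprime_iff_not_dvd hl).mpr hr1, mul_one]
      rw [hg, hl.sum_divisors]
      rw [if_neg hr1] at h2
      have e1 : l ^ 2 * (l * r1) / l ^ 2 = l * r1 := Nat.mul_div_cancel_left _ (pow_pos hl.pos 2)
      rw [e1]
      simp only [one_pow, Nat.div_one, Nat.cast_one, one_mul]
      linear_combination h1 + (a l) * h + (l : ℤ) * h2
  · have hg : Nat.gcd (l ^ 2) r = 1 :=
      Nat.Coprime.pow_left 2 ((Nat.Prime.coprime_iff_not_dvd hl).mpr hr)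
    rw [hg]
    rw [if_neg hr] at h
    simp
    linear_combination h1 + (a l) * h

theorem vf_TFs (hTF : ST_TF) (N n : ℕ) (a : ℕ → ℤ) (hN : 1 ≤ N) (hn : 1 ≤ n)
    (hcusp : Cusp N (fun k => (a k : ℂ))) (α : ℤ)
    (hc : ∀ r : ℕ, ∑ e ∈ (Nat.gcd n r).divisors, (e : ℤ) * a (n * r / e ^ 2) = α * a r) :
    ∀ τ ∈ UH, ∑ t ∈ Tn n, Fs (fun k => (a k : ℂ)) (((t.1 : ℂ) * τ + (t.2.1 : ℂ)) / (t.2.2 : ℂ))
      = (α : ℂ) * Fs (fun k => (a k : ℂ)) τ := by
  intro τ hτ
  rw [hTF N n _ hN hn hcusp τ hτ]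
  unfold Fs
  rw [← tsum_mul_left]
  congr 1
  funext r
  have : ∑ e ∈ (Nat.gcd n r).divisors, (e : ℂ) * (a (n * r / e ^ 2) : ℂ) = (α : ℂ) * (a r : ℂ) := by
    have := hc r
    exact_mod_cast congrArg (fun z : ℤ => (z : ℂ)) this
  beta_reduce
  rw [this]
  ring

theorem vf_HRow (hSURJ : ST_SURJ) (hTILE : ST_TILE) (N n : ℕ) (hN : 1 ≤ N) (hn : 1 ≤ n)
    (hco : Nat.Coprime n N) (C : ℤ → ℤ → ℂ) (hC : Hom0 C) (v : PN N → ℂ)
    (hv : ∀ p x q y : ℤ, p * y - x * q = 1 → ev v q y = C p q - C x y) (α : ℂ)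
    (hT : ∀ x y : ℤ, (x ≠ 0 ∨ y ≠ 0) →
      ∑ t ∈ Tn n, C (t.1 * x + t.2.1 * y) (t.2.2 * y) = α * C x y) :
    ∀ c d : ℤ, Uni N c d →
    ∑ m ∈ Sn n, ev v (c * m.1 + d * m.2.2.1) (c * m.2.1 + d * m.2.2.2) = α * ev v c d := by
  intro c d hcd
  obtain ⟨p, x, q, y, hdet, hq, hy⟩ := vf_red hSURJ N hN c d hcd
  have h1 : ∀ m : ℕ × ℕ × ℕ × ℕ, ev v (c * m.1 + d * m.2.2.1) (c * m.2.1 + d * m.2.2.2)
      = ev v (q * m.1 + y * m.2.2.1) (q * m.2.1 + y * m.2.2.2) := by
    intro m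
    apply vf_ev_congr
    · have : c * (m.1 : ℤ) + d * m.2.2.1 - (q * m.1 + y * m.2.2.1)
          = (c - q) * m.1 + (d - y) * m.2.2.1 := by ring
      rw [this]
      exact dvd_add (hq.mul_right _) (hy.mul_right _)
    · have : c * (m.2.1 : ℤ) + d * m.2.2.2 - (q * m.2.1 + y * m.2.2.2)
          = (c - q) * m.2.1 + (d - y) * m.2.2.2 := by ring
      rw [this]
      exact dvd_add (hq.mul_right _) (hy.mul_right _)
  rw [Finset.sum_congr rfl (fun m _ => h1 m), hTILE ℂ N n hN hn hco C v hC hv p x q y hdet,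
    Finset.sum_sub_distrib, hT p q, hT x y, vf_ev_congr v hq hy, hv p x q y hdet]
  · ring
  · by_contra hcon
    push Not at hcon
    rw [hcon.1, hcon.2] at hdet
    simp at hdet
  · by_contra hcon
    push Not at hcon
    rw [hcon.1, hcon.2] at hdet
    simp at hdet

theorem vf_re_mul (z : ℤ) (w : ℂ) : ((z : ℂ) * w).re = z * w.re := by simp

theorem vf_im_mul (z : ℤ) (w : ℂ) : ((z : ℂ) * w).im = z * w.im := by simp

theorem vf_ev_re {N : ℕ} (v : PN N → ℂ) (c d : ℤ) :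
    ev (fun x => (v x).re) c d = (ev v c d).re := by
  unfold ev
  by_cases h' : Uni N c d
  · simp [h']
  · simp [h']

theorem vf_ev_im {N : ℕ} (v : PN N → ℂ) (c d : ℤ) :
    ev (fun x => (v x).im) c d = (ev v c d).im := by
  unfold ev
  by_cases h' : Uni N c d
  · simp [h']
  · simp [h']

theorem st_VF (hVEX : ST_VEX) (hFLIM : ST_FLIM) (hTF : ST_TF) (hTILE : ST_TILE)
    (hSURJ : ST_SURJ) : ST_VF := by
  intro N a hN hnf
  set b : ℕ → ℂ := fun k => (a k : ℂ) with hb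
  obtain ⟨hlim, hhom, heqv, hper, hconj⟩ := hFLIM N b hN hnf.cusp
  obtain ⟨v, hv⟩ := hVEX ℂ N hN (FC b) hhom heqv
  have hconj' := hconj (by intro k; simp [hb])
  -- complex relations
  have htwo : ∀ c d : ℤ, Uni N c d → ev v c d + ev v d (-c) = 0 := by
    intro c d hcd
    obtain ⟨p, x, q, y, hdet, hq, hy⟩ := vf_red hSURJ N hN c d hcd
    rw [vf_ev_congr v hq hy, vf_ev_congr v (c := y) (d := -q) (c' := d) (d' := -c) hy (by
      have : -c - -q = -(c - q) := by ring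
      rw [this]; exact (dvd_neg).mpr hq)]
    have h1 := hv p x q y hdet
    have h2 := hv x (-p) y (-q) (by linarith)
    have h3 : FC b (-p) (-q) = FC b p q := by
      have := hhom (-1) p q (by norm_num)
      simpa using this
    rw [h1, h2, h3]; ring
  have hthree : ∀ c d : ℤ, Uni N c d → ev v c d + ev v (c + d) (-c) + ev v d (-c - d) = 0 := by
    intro c d hcd
    obtain ⟨p, x, q, y, hdet, hq, hy⟩ := vf_red hSURJ N hN c d hcd
    rw [vf_ev_congr v hq hy, vf_ev_congr v (c := q + y) (d := -q) (c' := c + d) (d' := -c) (by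
      have : c + d - (q + y) = (c - q) + (d - y) := by ring
      rw [this]; exact dvd_add hq hy) (by
      have : -c - -q = -(c - q) := by ring
      rw [this]; exact (dvd_neg).mpr hq),
      vf_ev_congr v (c := y) (d := -q - y) (c' := d) (d' := -c - d) hy (by
      have : -c - d - (-q - y) = -((c - q) + (d - y)) := by ring
      rw [this]; exact (dvd_neg).mpr (dvd_add hq hy))]
    have h1 := hv p x q y hdet
    have h2 := hv (p + x) (-p) (q + y) (-q) (by linarith)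
    have h3 := hv x (-p - x) y (-q - y) (by linarith)
    have h4 : FC b (-p) (-q) = FC b p q := by
      have := hhom (-1) p q (by norm_num)
      simpa using this
    have h5 : FC b (-p - x) (-q - y) = FC b (p + x) (q + y) := by
      have := hhom (-1) (p + x) (q + y) (by norm_num)
      rw [← this]; congr 1 <;> ring
    rw [h1, h2, h3, h4, h5]; ring
  have hsign : ∀ c d : ℤ, Uni N c d → ev v (-c) d = (starRingEnd ℂ) (ev v c d) := by
    intro c d hcd
    obtain ⟨p, x, q, y, hdet, hq, hy⟩ := vf_red hSURJ N hN c d hcd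
    rw [vf_ev_congr v hq hy, vf_ev_congr v (c := -q) (d := y) (c' := -c) (d' := d) (by
      have : -c - -q = -(c - q) := by ring
      rw [this]; exact (dvd_neg).mpr hq) hy]
    have h1 := hv p x q y hdet
    have h2 := hv p (-x) (-q) y (by linarith)
    have h3 : FC b p (-q) = FC b (-p) q := by
      have := hhom (-1) (-p) q (by norm_num)
      simpa using this
    rw [h1, h2, h3, hconj' p q, hconj' x y, map_sub]
  have hrow : ∀ l : ℕ, l.Prime → ¬ l ∣ N →
      (∀ c d : ℤ, Uni N c d → ∑ m ∈ Sn l, ev v (c * m.1 + d * m.2.2.1) (c * m.2.1 + d * m.2.2.2)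
        = ((a l : ℤ) : ℂ) * ev v c d) ∧
      (∀ c d : ℤ, Uni N c d →
        ∑ m ∈ Sn (l ^ 2), ev v (c * m.1 + d * m.2.2.1) (c * m.2.1 + d * m.2.2.2)
        = ((a l ^ 2 - l : ℤ) : ℂ) * ev v c d) := by
    intro l hl hlN
    have hco : Nat.Coprime l N := (Nat.Prime.coprime_iff_not_dvd hl).mpr hlN
    constructor
    · refine vf_HRow hSURJ hTILE N l hN hl.one_lt.le hco (FC b) hhom v hv _ ?_
      exact vf_hecke_cusp hFLIM N l b _ hN hl.one_lt.le hnf.cusp
        (vf_TFs hTF N l a hN hl.one_lt.le hnf.cusp (a l) (vf_coef_l N a hnf l hl hlN))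
    · have h1 : 1 ≤ l ^ 2 := Nat.one_le_pow _ _ hl.pos
      refine vf_HRow hSURJ hTILE N (l ^ 2) hN h1 (Nat.Coprime.pow_left 2 hco) (FC b) hhom v hv _ ?_
      exact vf_hecke_cusp hFLIM N (l ^ 2) b _ hN h1 hnf.cusp
        (vf_TFs hTF N (l ^ 2) a hN h1 hnf.cusp (a l ^ 2 - l) (vf_coef_l2 N a hnf l hl hlN))
  refine ⟨v, hv, ⟨⟨?_, ?_, ?_⟩, ?_⟩, ⟨⟨?_, ?_, ?_⟩, ?_⟩⟩
  · intro c d h
    rw [vf_ev_re, vf_ev_re, ← Complex.add_re, htwo c d h, Complex.zero_re]
  · intro c d h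
    rw [vf_ev_re, vf_ev_re, vf_ev_re, ← Complex.add_re, ← Complex.add_re, hthree c d h,
      Complex.zero_re]
  · intro c d h
    rw [vf_ev_re, vf_ev_re, hsign c d h, Complex.conj_re, one_mul]
  · intro l hl hlN _
    obtain ⟨h1, h2⟩ := hrow l hl hlN
    constructor
    · intro c d h
      simp only [vf_ev_re]
      rw [← Complex.re_sum, h1 c d h, vf_re_mul]
    · intro c d h
      simp only [vf_ev_re]
      rw [← Complex.re_sum, h2 c d h, vf_re_mul]
      push_cast; ring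
  · intro c d h
    rw [vf_ev_im, vf_ev_im, ← Complex.add_im, htwo c d h, Complex.zero_im]
  · intro c d h
    rw [vf_ev_im, vf_ev_im, vf_ev_im, ← Complex.add_im, ← Complex.add_im, hthree c d h,
      Complex.zero_im]
  · intro c d h
    rw [vf_ev_im, vf_ev_im, hsign c d h, Complex.conj_im]; ring
  · intro l hl hlN _
    obtain ⟨h1, h2⟩ := hrow l hl hlN
    constructor
    · intro c d h
      simp only [vf_ev_im]
      rw [← Complex.im_sum, h1 c d h, vf_im_mul]
    · intro c d h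
      simp only [vf_ev_im]
      rw [← Complex.im_sum, h2 c d h, vf_im_mul]
      push_cast; ring

end Pool.Agent.Helper96.MP
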