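import Pool.Agent.Helper9.MP.Amp
import Pool.Agent.Helper96.MP.MAIN

set_option autoImplicit false

namespace Pool.Agent.Helper96.MP

open Complex

theorem main2_line (hFAREY : ST_FAREY) (hFPATH : ST_FPATH) (hCONN : ST_CONN)
    (N : ℕ) (a : ℕ → ℤ) (hN : 1 ≤ N) (ε : ℤ)
    (u : PN N → ℝ) (D : ℤ → ℤ → ℝ) (hD : Hom0 D)
    (hedge : ∀ p x q y : ℤ, p * y - x * q = 1 → ev u q y = D p q - D x y)
    (hline : ∀ w, Eall N a ε w → ∃ κ : ℝ, ∀ x, w x = κ * u x)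
    (R : ℝ) (hR0 : 0 ≤ R) (w : PN N → ℤ) (hw0 : w ≠ 0)
    (hwE : Eall N a ε (fun x => (w x : ℝ))) (hwR : ∀ x, |(w x : ℝ)| ≤ R)
    (p1 r1 : ℤ) (hcop1 : IsCoprime p1 r1) (h1 : D p1 r1 - D 1 0 ≠ 0)
    (p r : ℤ) (hcop : IsCoprime p r) :
    |D p r - D 1 0| ≤ |D p1 r1 - D 1 0| * ((1 + Real.logb 2 (1 + |(r : ℝ)|)) * R) := by
  have hne : ∀ p q : ℤ, IsCoprime p q → (p ≠ 0 ∨ q ≠ 0) := by
    intro p q h
    by_contra hcon
    push Not at hcon
    rw [hcon.1, hcon.2, isCoprime_zero_left] at h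
    exact not_isUnit_zero h
  obtain ⟨κ, hκ⟩ := hline _ hwE
  have hκ0 : κ ≠ 0 := by
    intro h0
    apply hw0
    funext x
    have := hκ x
    rw [h0, zero_mul] at this
    exact_mod_cast this
  obtain ⟨C', hC'h, hC'e, hC'edge⟩ := hFAREY N hN (fun x => (w x : ℝ))
    hwE.1.two hwE.1.three
  -- differences
  have hdiff : ∀ p q : ℤ, (p ≠ 0 ∨ q ≠ 0) → C' p q - C' 1 0 = κ * (D p q - D 1 0) := by
    intro p q h
    have hH : Hom0 (fun p q => C' p q - κ * D p q) := by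
      intro k p q hk
      simp only
      rw [hC'h k p q hk, hD k p q hk]
    have := hCONN ℝ ⊥ (fun p q => C' p q - κ * D p q) hH (by
      intro p x q y h
      have e1 := hC'edge p x q y h
      have e2 := hedge p x q y h
      have e3 : ev (fun x => (w x : ℝ)) q y = κ * ev u q y := by
        rw [← main_ev_mul]
        congr 1
        funext x
        exact hκ x
      rw [AddSubgroup.mem_bot]
      rw [e1, e2] at e3
      linarith) p q h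
    rw [AddSubgroup.mem_bot] at this
    linarith
  -- integrality
  have hint : ∀ p q : ℤ, (p ≠ 0 ∨ q ≠ 0) → ∃ z : ℤ, C' p q - C' 1 0 = z := by
    intro p q h
    have := hCONN ℝ (Int.castAddHom ℝ).range C' hC'h (by
      intro p x q y h
      rw [← hC'edge p x q y h]
      unfold ev
      by_cases h' : Uni N q y
      · simp only [h', dif_pos]
        exact ⟨_, rfl⟩
      · simp only [h', dif_neg, not_false_eq_true]
        exact AddSubgroup.zero_mem _) p q h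
    obtain ⟨z, hz⟩ := this
    exact ⟨z, hz.symm⟩
  have hpath := hFPATH C' R hR0 hC'h (by
    intro p x q y h
    rw [← hC'edge p x q y h]
    exact main_ev_bd _ R hR0 hwR q y) p r hcop
  obtain ⟨z1, hz1⟩ := hint p1 r1 (hne _ _ hcop1)
  have hz10 : z1 ≠ 0 := by
    intro h0
    rw [hdiff p1 r1 (hne _ _ hcop1), h0] at hz1
    have : κ * (D p1 r1 - D 1 0) ≠ 0 := mul_ne_zero hκ0 h1
    exact this (by simpa using hz1)
  have hz1' : (1 : ℝ) ≤ |κ| * |D p1 r1 - D 1 0| := by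
    rw [← abs_mul, ← hdiff p1 r1 (hne _ _ hcop1), hz1]
    have : (1 : ℤ) ≤ |z1| := Int.one_le_abs hz10
    exact_mod_cast this
  rw [hdiff p r (hne _ _ hcop), abs_mul] at hpath
  have hκp : 0 < |κ| := abs_pos.mpr hκ0
  set B := (1 + Real.logb 2 (1 + |(r : ℝ)|)) * R with hB
  have hB0 : 0 ≤ B := by
    apply mul_nonneg _ hR0
    have : 0 ≤ Real.logb 2 (1 + |(r : ℝ)|) :=
      Real.logb_nonneg (by norm_num) (by linarith [abs_nonneg (r : ℝ)])
    linarith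
  have h3 : |κ| * |D p r - D 1 0| ≤ |κ| * (|D p1 r1 - D 1 0| * B) := by
    calc |κ| * |D p r - D 1 0| ≤ B := hpath
      _ = 1 * B := (one_mul B).symm
      _ ≤ (|κ| * |D p1 r1 - D 1 0|) * B := mul_le_mul_of_nonneg_right hz1' hB0
      _ = _ := by ring
  exact le_of_mul_le_mul_left h3 hκp

/-- eigenvalues of a newform are small -/
theorem main2_abs (hSTRICT : ST_STRICT) (N : ℕ) (a : ℕ → ℤ) (hN : 1 ≤ N) (hnf : Newform N a)
    (l : ℕ) (hl : l.Prime) (hlN : ¬ l ∣ N) : |a l| < l + 1 := by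
  have h1 := hSTRICT N l (fun k => (a k : ℂ)) (a l) hN hl hlN hnf.cusp ⟨1, by simp [hnf.one]⟩ (by
    intro n
    have := hnf.hecke l hl hlN n
    unfold Tl
    rw [← Int.cast_mul, ← this]
    split_ifs <;> push_cast <;> ring)
  have h2 : ‖((a l : ℤ) : ℂ)‖ = ((|a l| : ℤ) : ℝ) := by
    rw [Complex.norm_intCast]; push_cast; rfl
  rw [h2] at h1
  have h3 : ((|a l| : ℤ) : ℝ) < ((l + 1 : ℤ) : ℝ) := by push_cast; push_cast at h1; exact h1
  exact_mod_cast h3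

/-- the bound for the coordinates, from small integral symbols of both signs -/
theorem main2_core (hVF : ST_VF) (hDIMO : ST_DIMO) (hFAREY : ST_FAREY)
    (hFPATH : ST_FPATH) (hCONN : ST_CONN) (hFLIM : ST_FLIM)
    (N : ℕ) (a : ℕ → ℤ) (hN : 1 ≤ N) (hnf : Newform N a) (R : ℝ) (hR1 : 0 ≤ R)
    (hsmall : ∀ ε : ℤ, (ε = 1 ∨ ε = -1) →
      ∀ E : Submodule ℝ (PN N → ℝ), (∀ v, v ∈ E ↔ Eall N a ε v) → Module.finrank ℝ E = 1 →
      ∃ w : PN N → ℤ, w ≠ 0 ∧ (fun x => (w x : ℝ)) ∈ E ∧ ∀ x, |(w x : ℝ)| ≤ R)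
    (p1 r1 p2 r2 : ℤ) (q1 s1 q2 s2 : ℤ) (Ω₁ Ω₂ : ℂ) (hg1 : G0 N p1 q1 r1 s1)
    (hg2 : G0 N p2 q2 r2 s2) (hΩ1 : Ω₁ = FC (fun k => (a k : ℂ)) p1 r1)
    (hΩ2 : Ω₂ = FC (fun k => (a k : ℂ)) p2 r2)
    (hΩ1im : Ω₁.im = 0) (hΩ1re : 0 < Ω₁.re) (hΩ2im : 0 < Ω₂.im) (hΩ2re : 0 ≤ Ω₂.re)
    (hΩ2lt : Ω₂.re < Ω₁.re)
    (p q r s : ℤ) (hg : G0 N p q r s) (m n : ℤ)
    (hmn : FC (fun k => (a k : ℂ)) p r = (m : ℂ) * Ω₁ + (n : ℂ) * Ω₂) :
    |(m : ℝ)| ≤ 2 * ((1 + Real.logb 2 (1 + |(r : ℝ)|)) * R) ∧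
    |(n : ℝ)| ≤ (1 + Real.logb 2 (1 + |(r : ℝ)|)) * R := by
  set b : ℕ → ℂ := fun k => (a k : ℂ) with hb
  obtain ⟨v, hv, hvre, hvim⟩ := hVF N a hN hnf
  obtain ⟨hline1, hline2⟩ := hDIMO N a v hN hnf hv
  have hFC := hFLIM N b hN hnf.cusp
  obtain ⟨_, hhom, _, _, _⟩ := hFC
  have hFC10 : FC b 1 0 = 0 := by simp [FC]
  have hcop : ∀ p q r s : ℤ, G0 N p q r s → IsCoprime p r := by
    intro p q r s h
    exact ⟨s, -q, by linarith [h.1]⟩
  have hne : ∀ p q : ℤ, IsCoprime p q → (p ≠ 0 ∨ q ≠ 0) := by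
    intro p q h
    by_contra hcon
    push Not at hcon
    rw [hcon.1, hcon.2, isCoprime_zero_left] at h
    exact not_isUnit_zero h
  -- nonvanishing of a symbol
  have hnz : ∀ (u : PN N → ℝ) (D : ℤ → ℤ → ℝ), Hom0 D →
      (∀ p x q y : ℤ, p * y - x * q = 1 → ev u q y = D p q - D x y) →
      ∀ p1 r1 : ℤ, IsCoprime p1 r1 → D p1 r1 - D 1 0 ≠ 0 → u ≠ 0 := by
    intro u D hD hedge p1 r1 hcop1 h1 h0
    apply h1
    have := hCONN ℝ ⊥ D hD (by
      intro p x q y h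
      rw [← hedge p x q y h, h0, AddSubgroup.mem_bot]
      exact main_ev_zero (N := N) q y) p1 r1 (hne _ _ hcop1)
    simpa using this
  -- real part
  have hedge1 : ∀ p x q y : ℤ, p * y - x * q = 1 →
      ev (fun x => (v x).re) q y = (FC b p q).re - (FC b x y).re := by
    intro p x q y h
    have := hv p x q y h
    have h2 : ev (fun x => (v x).re) q y = (ev v q y).re := by
      unfold ev
      by_cases h' : Uni N q y
      · simp [h']
      · simp [h']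
    rw [h2, this]; simp [hb]
  have hedge2 : ∀ p x q y : ℤ, p * y - x * q = 1 →
      ev (fun x => (v x).im) q y = (FC b p q).im - (FC b x y).im := by
    intro p x q y h
    have := hv p x q y h
    have h2 : ev (fun x => (v x).im) q y = (ev v q y).im := by
      unfold ev
      by_cases h' : Uni N q y
      · simp [h']
      · simp [h']
    rw [h2, this]; simp [hb]
  have hD1 : Hom0 (fun p q => (FC b p q).re) := by
    intro k p q hk; simp only; rw [hhom k p q hk]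
  have hD2 : Hom0 (fun p q => (FC b p q).im) := by
    intro k p q hk; simp only; rw [hhom k p q hk]
  have h11 : (FC b p1 r1).re - (FC b 1 0).re ≠ 0 := by
    rw [hFC10, ← hΩ1]
    simpa using ne_of_gt hΩ1re
  have h22 : (FC b p2 r2).im - (FC b 1 0).im ≠ 0 := by
    rw [hFC10, ← hΩ2]
    simpa using ne_of_gt hΩ2im
  have hvre' : Eall N a ((1 : ℤ) : ℝ) (fun x => (v x).re) := by simpa using hvre
  have hvim' : Eall N a ((-1 : ℤ) : ℝ) (fun x => (v x).im) := by simpa using hvim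
  have hline1' : ∀ w, Eall N a ((1 : ℤ) : ℝ) w → ∃ κ : ℝ, ∀ x, w x = κ * (v x).re := by
    simpa using hline1
  have hline2' : ∀ w, Eall N a ((-1 : ℤ) : ℝ) w → ∃ κ : ℝ, ∀ x, w x = κ * (v x).im := by
    simpa using hline2
  obtain ⟨w1, hw10, hw1E, hw1R⟩ := hsmall 1 (Or.inl rfl) (mainE N a ((1 : ℤ) : ℝ)) (fun v => Iff.rfl)
    (main_finrank N a _ _ hvre' (hnz _ _ hD1 hedge1 p1 r1 (hcop _ _ _ _ hg1) h11) hline1')
  obtain ⟨w2, hw20, hw2E, hw2R⟩ := hsmall (-1) (Or.inr rfl) (mainE N a ((-1 : ℤ) : ℝ))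
    (fun v => Iff.rfl)
    (main_finrank N a _ _ hvim' (hnz _ _ hD2 hedge2 p2 r2 (hcop _ _ _ _ hg2) h22) hline2')
  have hre := main2_line hFAREY hFPATH hCONN N a hN 1 _ _ hD1 hedge1 hline1' R hR1 w1 hw10 hw1E hw1R
    p1 r1 (hcop _ _ _ _ hg1) h11 p r (hcop _ _ _ _ hg)
  have him := main2_line hFAREY hFPATH hCONN N a hN (-1) _ _ hD2 hedge2 hline2' R hR1 w2 hw20 hw2E
    hw2R p2 r2 (hcop _ _ _ _ hg2) h22 p r (hcop _ _ _ _ hg)
  simp only [hFC10, Complex.zero_re, Complex.zero_im, sub_zero] at hre him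
  rw [← hΩ1, hmn] at hre
  rw [← hΩ2, hmn] at him
  have e1 : ((m : ℂ) * Ω₁ + (n : ℂ) * Ω₂).im = n * Ω₂.im := by
    simp [hΩ1im]
  have e2 : ((m : ℂ) * Ω₁ + (n : ℂ) * Ω₂).re = m * Ω₁.re + n * Ω₂.re := by
    simp
  rw [e1, abs_mul, abs_of_pos hΩ2im] at him
  rw [e2, abs_of_pos hΩ1re] at hre
  set B := (1 + Real.logb 2 (1 + |(r : ℝ)|)) * R with hB
  have hn : |(n : ℝ)| ≤ B := by
    have : Ω₂.im * |(n : ℝ)| ≤ Ω₂.im * B := by linarith
    exact le_of_mul_le_mul_left this hΩ2im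
  have hm : |(m : ℝ)| ≤ 2 * B := by
    have h1 : |(m : ℝ) * Ω₁.re| ≤ Ω₁.re * B + |(n : ℝ) * Ω₂.re| := by
      have : (m : ℝ) * Ω₁.re = ((m : ℝ) * Ω₁.re + n * Ω₂.re) - n * Ω₂.re := by ring
      rw [this]
      refine (abs_sub _ _).trans ?_
      linarith
    rw [abs_mul, abs_mul, abs_of_pos hΩ1re, abs_of_nonneg hΩ2re] at h1
    have h2 : |(n : ℝ)| * Ω₂.re ≤ B * Ω₁.re :=
      mul_le_mul hn hΩ2lt.le hΩ2re ((abs_nonneg _).trans hn)
    have : Ω₁.re * |(m : ℝ)| ≤ Ω₁.re * (2 * B) := by nlinarith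
    exact le_of_mul_le_mul_left this hΩ1re
  exact ⟨hm, hn⟩

/-- constants -/
theorem main2_const (C0 L x : ℝ) (ψ : ℝ) (hψ : 1 ≤ ψ) (hL : Real.log 2 ≤ L) (hx : 0 ≤ x) :
    2 * ((1 + Real.logb 2 (1 + x)) * Real.exp (C0 * ψ * L)) ≤
      (1 + Real.log (1 + x)) * Real.exp ((C0 + 2) * ψ * L) := by
  have hlog : 0 ≤ Real.log (1 + x) := Real.log_nonneg (by linarith)
  have hl2 : (2 / 3 : ℝ) ≤ Real.log 2 := by
    have := Real.log_two_gt_d9; linarith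
  have hlb : Real.logb 2 (1 + x) ≤ 3 / 2 * Real.log (1 + x) := by
    unfold Real.logb
    rw [div_le_iff₀ (by linarith)]
    nlinarith
  have hexp : (3 : ℝ) ≤ Real.exp (2 * ψ * L) := by
    have h4 : 2 * Real.log 2 ≤ 2 * ψ * L := by
      have : Real.log 2 ≤ ψ * L := by
        calc Real.log 2 ≤ 1 * L := by linarith
          _ ≤ _ := mul_le_mul_of_nonneg_right hψ (by linarith)
      linarith
    calc (3 : ℝ) ≤ 4 := by norm_num
      _ = Real.exp (2 * Real.log 2) := by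
          rw [show 2 * Real.log 2 = Real.log (2 ^ 2) by rw [Real.log_pow]; push_cast; ring,
            Real.exp_log (by norm_num)]
          norm_num
      _ ≤ _ := Real.exp_le_exp.mpr h4
  have hsplit : Real.exp ((C0 + 2) * ψ * L) = Real.exp (C0 * ψ * L) * Real.exp (2 * ψ * L) := by
    rw [← Real.exp_add]; ring_nf
  rw [hsplit]
  set X := Real.exp (C0 * ψ * L) with hX
  set Y := Real.exp (2 * ψ * L) with hY
  have hX0 : 0 < X := Real.exp_pos _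
  set t := Real.log (1 + x) with ht
  have h5 : 2 * (1 + Real.logb 2 (1 + x)) ≤ 3 * (1 + t) := by linarith
  calc 2 * ((1 + Real.logb 2 (1 + x)) * X)
      = (2 * (1 + Real.logb 2 (1 + x))) * X := by ring
    _ ≤ (3 * (1 + t)) * X := mul_le_mul_of_nonneg_right h5 hX0.le
    _ = (1 + t) * (X * 3) := by ring
    _ ≤ (1 + t) * (X * Y) := by
        apply mul_le_mul_of_nonneg_left _ (by linarith)
        exact mul_le_mul_of_nonneg_left hexp hX0.le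

theorem st_MAIN2 (hVF : ST_VF) (hDIMO : ST_DIMO) (hTOT2 : ST_TOT2) (hFAREY : ST_FAREY)
    (hFPATH : ST_FPATH) (hCONN : ST_CONN) (hFLIM : ST_FLIM) (hSTRICT : ST_STRICT) : ST_MAIN2 := by
  obtain ⟨C0, hC0pos, hC0⟩ := hTOT2
  refine ⟨C0 + 2, by linarith, ?_⟩
  intro N a hN hnf ℓ hℓ hℓN p1 r1 p2 r2 q1 s1 q2 s2 Ω₁ Ω₂ hg1 hg2 hΩ1 hΩ2 hΩ1im hΩ1re hΩ2im hΩ2re
    hΩ2lt p q r s hg m n hmn
  have habs : ∀ l : ℕ, l.Prime → ¬ l ∣ N → |a l| ≤ l + 1 :=
    fun l hl hlN => (main2_abs hSTRICT N a hN hnf l hl hlN).le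
  have hne : (a ℓ) ^ 2 ≠ ((ℓ : ℤ) + 1) ^ 2 := by
    have h1 := main2_abs hSTRICT N a hN hnf ℓ hℓ hℓN
    have h2 : |a ℓ| < |(ℓ : ℤ) + 1| := by
      rwa [abs_of_nonneg (by positivity : (0 : ℤ) ≤ (ℓ : ℤ) + 1)]
    exact ne_of_lt (sq_lt_sq.mpr h2)
  have hcore := main2_core hVF hDIMO hFAREY hFPATH hCONN hFLIM N a hN hnf
    (Real.exp (C0 * psi N * Real.log ℓ)) (Real.exp_pos _).le
    (fun ε hε E hE hfin => hC0 N ℓ a ε hN hℓ hℓN hε habs hne E hE hfin)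
    p1 r1 p2 r2 q1 s1 q2 s2 Ω₁ Ω₂ hg1 hg2 hΩ1 hΩ2 hΩ1im hΩ1re hΩ2im hΩ2re hΩ2lt p q r s hg m n hmn
  have hc := main2_const C0 (Real.log ℓ) |(r : ℝ)| (psi N) (main_psi_one N hN)
    (Real.log_le_log (by norm_num) (by exact_mod_cast hℓ.two_le)) (abs_nonneg _)
  have hpos : 0 ≤ (1 + Real.logb 2 (1 + |(r : ℝ)|)) * Real.exp (C0 * psi N * Real.log ℓ) := by
    have : 0 ≤ Real.logb 2 (1 + |(r : ℝ)|) :=
      Real.logb_nonneg (by norm_num) (by linarith [abs_nonneg (r : ℝ)])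
    positivity
  exact ⟨hcore.1.trans hc, (hcore.2.trans (by linarith)).trans hc⟩

end Pool.Agent.Helper96.MP
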