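import Pool.Agent.Helper96.MP.Defs

set_option autoImplicit false

namespace Pool.Agent.Helper96.MP

/-- a Farey neighbour with denominator at most half -/
theorem conn_parent (p : ℤ) (q : ℕ) (hq : 1 ≤ q) (h : IsCoprime p (q : ℤ)) :
    ∃ (p' : ℤ) (q' : ℕ), 2 * q' ≤ q ∧ IsCoprime p' (q' : ℤ) ∧
      (p * q' - p' * q = 1 ∨ p * q' - p' * q = -1) := by
  obtain ⟨u, v, huv⟩ := h
  -- u p + v q = 1
  have hqZ : (0 : ℤ) < q := by exact_mod_cast hq
  have h0 : 0 ≤ u % q := Int.emod_nonneg _ hqZ.ne'
  have h1 : u % q < q := Int.emod_lt_of_pos _ hqZ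
  have h2 : u = q * (u / q) + u % q := (Int.mul_ediv_add_emod u q).symm
  set w := u % (q : ℤ) with hw
  set k := u / (q : ℤ) with hk
  have h3 : p * w - (-(v + p * k)) * q = 1 := by
    rw [h2] at huv; linear_combination huv
  by_cases hc : 2 * w ≤ q
  · obtain ⟨w', hw'⟩ := Int.eq_ofNat_of_zero_le h0
    refine ⟨-(v + p * k), w', ?_, ?_, Or.inl ?_⟩
    · have : (2 * (w' : ℤ)) ≤ q := by rw [← hw']; exact hc
      exact_mod_cast this
    · refine ⟨-q, p, ?_⟩
      rw [← hw']; linarith
    · rw [← hw']; exact h3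
  · push Not at hc
    have h4 : 0 ≤ (q : ℤ) - w := by linarith
    obtain ⟨w', hw'⟩ := Int.eq_ofNat_of_zero_le h4
    refine ⟨p - (-(v + p * k)), w', ?_, ?_, Or.inr ?_⟩
    · have : (2 * (w' : ℤ)) ≤ q := by rw [← hw']; linarith
      exact_mod_cast this
    · refine ⟨q, -p, ?_⟩
      rw [← hw']; linarith
    · rw [← hw']; linarith

/-- induction along parents -/
theorem conn_main {V : Type} [AddCommGroup V] (C : ℤ → ℤ → V) (hC : Hom0 C) (S : ℕ → V → Prop)
    (h0 : ∀ p : ℤ, IsCoprime p (0 : ℤ) → S 0 (C p 0 - C 1 0))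
    (hstep : ∀ (p x q y : ℤ) (a b : ℕ), p * y - x * q = 1 → a = q.natAbs → b = y.natAbs → 2 * b ≤ a →
      S b (C x y - C 1 0) → S a (C p q - C 1 0))
    (hstep' : ∀ (p x q y : ℤ) (a b : ℕ), p * y - x * q = 1 → a = y.natAbs → b = q.natAbs → 2 * b ≤ a →
      S b (C p q - C 1 0) → S a (C x y - C 1 0)) :
    ∀ (q : ℕ) (p : ℤ), IsCoprime p (q : ℤ) → S q (C p q - C 1 0) := by
  intro q
  induction q using Nat.strong_induction_on with
  | _ q ih =>
    intro p h
    rcases Nat.eq_zero_or_pos q with hq | hq
    · subst hq; exact h0 p (by simpa using h)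
    · obtain ⟨p', q', h2, hco, hdet⟩ := conn_parent p q hq h
      have hlt : q' < q := by omega
      have ih' := ih q' hlt p' hco
      rcases hdet with hd | hd
      · exact hstep p p' q q' q q' hd (by simp) (by simp) h2 ih'
      · exact hstep' p' p q' q q q' (by linarith) (by simp) (by simp) h2 ih'

theorem st_CONN : ST_CONN := by
  intro V _ A C hC hedge
  -- coprime case with nonnegative denominator
  have key := conn_main C hC (fun _ v => v ∈ A)
    (by
      intro p hp
      have hu : IsUnit p := by rw [isCoprime_zero_right] at hp; exact hp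
      rcases Int.isUnit_iff.mp hu with h | h
      · rw [h]; simp
      · rw [h]
        have := hC (-1) 1 0 (by norm_num)
        rw [mul_one, mul_zero] at this
        rw [this]; simp)
    (by
      intro p x q y a b hdet _ _ _ hmem
      have h1 := hedge p x q y hdet
      have : C p q - C 1 0 = (C p q - C x y) + (C x y - C 1 0) := by abel
      rw [this]; exact A.add_mem h1 hmem)
    (by
      intro p x q y a b hdet _ _ _ hmem
      have h1 := hedge p x q y hdet
      have : C x y - C 1 0 = -(C p q - C x y) + (C p q - C 1 0) := by abel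
      rw [this]; exact A.add_mem (A.neg_mem h1) hmem)
  have key2 : ∀ p q : ℤ, IsCoprime p q → C p q - C 1 0 ∈ A := by
    intro p q h
    rcases le_total 0 q with hq | hq
    · obtain ⟨k, hk⟩ := Int.eq_ofNat_of_zero_le hq
      rw [hk] at h ⊢
      exact key k p h
    · have hq' : 0 ≤ -q := by linarith
      obtain ⟨k, hk⟩ := Int.eq_ofNat_of_zero_le hq'
      have h1 : C p q = C (-p) (-q) := by
        have := hC (-1) p q (by norm_num)
        rw [← this]; congr 1 <;> ring
      rw [h1, hk]
      apply key k (-p)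
      rw [← hk]
      exact h.neg_neg
  intro p q hpq
  have hg : Int.gcd p q ≠ 0 := by
    intro h
    obtain ⟨h1, h2⟩ := Int.gcd_eq_zero_iff.mp h
    rcases hpq with h | h
    · exact h h1
    · exact h h2
  obtain ⟨p', hp'⟩ := Int.gcd_dvd_left p q
  obtain ⟨q', hq'⟩ := Int.gcd_dvd_right p q
  have hgZ : ((Int.gcd p q : ℕ) : ℤ) ≠ 0 := by exact_mod_cast hg
  have h1 : C p q = C p' q' := by
    have := hC (Int.gcd p q : ℤ) p' q' hgZ
    rw [← hp', ← hq'] at this
    exact this
  rw [h1]
  apply key2
  have h2 := Int.gcd_eq_gcd_ab p q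
  refine ⟨Int.gcdA p q, Int.gcdB p q, ?_⟩
  apply mul_left_cancel₀ hgZ
  calc ((Int.gcd p q : ℕ) : ℤ) * (Int.gcdA p q * p' + Int.gcdB p q * q')
      = (((Int.gcd p q : ℕ) : ℤ) * p') * Int.gcdA p q + (((Int.gcd p q : ℕ) : ℤ) * q') * Int.gcdB p q := by ring
    _ = p * Int.gcdA p q + q * Int.gcdB p q := by rw [← hp', ← hq']
    _ = ((Int.gcd p q : ℕ) : ℤ) * 1 := by rw [mul_one]; exact h2.symm

/-- logarithmic length -/
theorem conn_len (R : ℝ) (hR : 0 ≤ R) (C : ℤ → ℤ → ℝ) (hC : Hom0 C)
    (hedge : ∀ p x q y : ℤ, p * y - x * q = 1 → |C p q - C x y| ≤ R) :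
    ∀ (q : ℕ) (p : ℤ), IsCoprime p (q : ℤ) → |C p q - C 1 0| ≤ (Nat.size q : ℝ) * R := by
  refine conn_main C hC (fun k v => |v| ≤ (Nat.size k : ℝ) * R) ?_ ?_ ?_
  · intro p hp
    have hu : IsUnit p := by rw [isCoprime_zero_right] at hp; exact hp
    rcases Int.isUnit_iff.mp hu with h | h
    · rw [h]; simp
    · rw [h]
      have := hC (-1) 1 0 (by norm_num)
      rw [mul_one, mul_zero] at this
      rw [this]; simp
  · intro p x q y a b hdet ha hb hab hmem
    have h1 := hedge p x q y hdet
    have hsz : (Nat.size b : ℝ) + 1 ≤ Nat.size a := by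
      have : Nat.size b + 1 ≤ Nat.size a := by
        rcases Nat.eq_zero_or_pos b with h | h
        · subst h
          have ha0 : 0 < a := by
            rw [ha]
            apply Nat.pos_of_ne_zero
            intro h0
            have hq0 : q = 0 := Int.natAbs_eq_zero.mp h0
            have hy0 : y = 0 := Int.natAbs_eq_zero.mp hb.symm
            rw [hq0, hy0] at hdet; simp at hdet
          have := Nat.size_pos.mpr ha0
          simp; omega
        · rw [Nat.succ_le_iff]
          apply Nat.lt_size.mpr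
          have h2 : 2 ^ (Nat.size b - 1) ≤ b := by
            have h3 : Nat.size b - 1 < Nat.size b := by
              have := Nat.size_pos.mpr h; omega
            exact Nat.lt_size.mp h3
          have h4 : 0 < Nat.size b := Nat.size_pos.mpr h
          calc 2 ^ Nat.size b = 2 * 2 ^ (Nat.size b - 1) := by
                rw [← pow_succ']; congr 1; omega
            _ ≤ 2 * b := by omega
            _ ≤ a := hab
      exact_mod_cast this
    calc |C p q - C 1 0| ≤ |C p q - C x y| + |C x y - C 1 0| := by
          have : C p q - C 1 0 = (C p q - C x y) + (C x y - C 1 0) := by ring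
          rw [this]; exact abs_add_le _ _
      _ ≤ R + (Nat.size b : ℝ) * R := add_le_add h1 hmem
      _ = ((Nat.size b : ℝ) + 1) * R := by ring
      _ ≤ _ := mul_le_mul_of_nonneg_right hsz hR
  · intro p x q y a b hdet ha hb hab hmem
    have h1 := hedge p x q y hdet
    have hsz : (Nat.size b : ℝ) + 1 ≤ Nat.size a := by
      have : Nat.size b + 1 ≤ Nat.size a := by
        rcases Nat.eq_zero_or_pos b with h | h
        · subst h
          have ha0 : 0 < a := by
            rw [ha]
            apply Nat.pos_of_ne_zero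
            intro h0
            have hy0 : y = 0 := Int.natAbs_eq_zero.mp h0
            have hq0 : q = 0 := Int.natAbs_eq_zero.mp hb.symm
            rw [hq0, hy0] at hdet; simp at hdet
          have := Nat.size_pos.mpr ha0
          simp; omega
        · rw [Nat.succ_le_iff]
          apply Nat.lt_size.mpr
          have h2 : 2 ^ (Nat.size b - 1) ≤ b := by
            have h3 : Nat.size b - 1 < Nat.size b := by
              have := Nat.size_pos.mpr h; omega
            exact Nat.lt_size.mp h3
          have h4 : 0 < Nat.size b := Nat.size_pos.mpr h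
          calc 2 ^ Nat.size b = 2 * 2 ^ (Nat.size b - 1) := by
                rw [← pow_succ']; congr 1; omega
            _ ≤ 2 * b := by omega
            _ ≤ a := hab
      exact_mod_cast this
    calc |C x y - C 1 0| ≤ |C p q - C x y| + |C p q - C 1 0| := by
          have : C x y - C 1 0 = -(C p q - C x y) + (C p q - C 1 0) := by ring
          rw [this]
          refine (abs_add_le _ _).trans ?_
          rw [abs_neg]
      _ ≤ R + (Nat.size b : ℝ) * R := add_le_add h1 hmem
      _ = ((Nat.size b : ℝ) + 1) * R := by ring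
      _ ≤ _ := mul_le_mul_of_nonneg_right hsz hR

theorem conn_size (q : ℕ) : (Nat.size q : ℝ) ≤ 1 + Real.logb 2 (1 + (q : ℝ)) := by
  rcases Nat.eq_zero_or_pos q with h | h
  · subst h; simp
  · have h1 : 2 ^ (Nat.size q - 1) ≤ q := by
      have h3 : Nat.size q - 1 < Nat.size q := by
        have := Nat.size_pos.mpr h; omega
      exact Nat.lt_size.mp h3
    have h4 : 0 < Nat.size q := Nat.size_pos.mpr h
    have h2 : ((Nat.size q - 1 : ℕ) : ℝ) ≤ Real.logb 2 (1 + (q : ℝ)) := by
      rw [Real.le_logb_iff_rpow_le (by norm_num) (by positivity), Real.rpow_natCast]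
      have : ((2 ^ (Nat.size q - 1) : ℕ) : ℝ) ≤ q := by exact_mod_cast h1
      push_cast at this
      linarith
    have h5 : ((Nat.size q - 1 : ℕ) : ℝ) = (Nat.size q : ℝ) - 1 := by
      rw [Nat.cast_sub h4]; simp
    linarith

theorem st_FPATH : ST_FPATH := by
  intro C R hR hC hedge p q hpq
  have key := conn_len R hR C hC hedge
  rcases le_total 0 q with hq | hq
  · obtain ⟨k, hk⟩ := Int.eq_ofNat_of_zero_le hq
    subst hk
    refine (key k p hpq).trans ?_
    have h1 : |(((k : ℕ) : ℤ) : ℝ)| = (k : ℝ) := by simp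
    have h2 : (|((Int.ofNat k : ℤ) : ℝ)|) = (k : ℝ) := by simp
    have h3 := conn_size k
    calc (Nat.size k : ℝ) * R ≤ (1 + Real.logb 2 (1 + (k : ℝ))) * R :=
          mul_le_mul_of_nonneg_right h3 hR
      _ = _ := by simp
  · have hq' : 0 ≤ -q := by linarith
    obtain ⟨k, hk⟩ := Int.eq_ofNat_of_zero_le hq'
    have h1 : C p q = C (-p) (-q) := by
      have := hC (-1) p q (by norm_num)
      rw [← this]; congr 1 <;> ring
    have hq2 : q = -(k : ℤ) := by
      have : -q = (k : ℤ) := hk
      linarith
    rw [h1, hk]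
    refine (key k (-p) (by
      have := hpq.neg_neg
      rw [hk] at this
      exact this)).trans ?_
    rw [hq2]
    calc (Nat.size k : ℝ) * R ≤ (1 + Real.logb 2 (1 + (k : ℝ))) * R :=
          mul_le_mul_of_nonneg_right (conn_size k) hR
      _ = _ := by simp

end Pool.Agent.Helper96.MP
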