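import Pool.Agent.Helper96.MP.Defs

set_option autoImplicit false

namespace Pool.Agent.Helper96.MP

open Complex Filter Topology
open scoped MatrixGroups

theorem es_mk (N : ℕ) (p q r s : ℤ) (h : G0 N p q r s) :
    ∃ g : SL(2, ℤ), g ∈ CongruenceSubgroup.Gamma0 N ∧ g 0 0 = p ∧ g 0 1 = q ∧ g 1 0 = r ∧ g 1 1 = s := by
  obtain ⟨h1, h2⟩ := h
  refine ⟨⟨!![p, q; r, s], by rw [Matrix.det_fin_two_of]; exact h1⟩, ?_, rfl, rfl, rfl, rfl⟩
  apply CongruenceSubgroup.Gamma0_mem.mpr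
  show ((r : ℤ) : ZMod N) = 0
  exact (ZMod.intCast_zmod_eq_zero_iff_dvd r N).mpr h2

theorem st_ES (hWT : ST_WT) (hUZ : ST_UZ) (hMIN : ST_MIN) (hLIM : ST_LIM) (hEQV : ST_EQV)
    (hCSP : ST_CSP) (hQEXP : ST_QEXP) (hPER : ST_PER) (hFLIM : ST_FLIM) (hQDIF : ST_QDIF) :
    ST_ES := by
  intro N C hN hC hCe
  obtain ⟨W, hW⟩ := hWT N hN
  obtain ⟨u0, hu0⟩ := hUZ N W C hN hW hC hCe
  obtain ⟨u, hadm, hcauchy, htest, hB⟩ := hMIN N W _ u0 hN hW hu0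
  obtain ⟨h, hhol, hloc⟩ := hLIM N W _ u hN hW hadm hcauchy htest
  obtain ⟨hinv, hint⟩ := hEQV N W _ u h hN hW hadm hB hhol hloc
  obtain ⟨B, hbd⟩ := hCSP N W h hN hW hhol hinv hint
  have h2pi : (2 * (Real.pi : ℂ) * I) ≠ 0 := Complex.two_pi_I_ne_zero
  have hn2 : 0 < ‖(2 * (Real.pi : ℂ) * I)‖ := norm_pos_iff.mpr h2pi
  obtain ⟨b, hb, hqs⟩ := hQEXP N (fun z => h z / (2 * (Real.pi : ℂ) * I)) hN
    (hhol.div_const _)
    (by
      intro τ hτ p q r s hg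
      obtain ⟨g, hgm, e1, e2, e3, e4⟩ := es_mk N p q r s hg
      have := hinv g hgm τ hτ
      unfold mob jj at this
      rw [e1, e2, e3, e4] at this
      rw [this]; ring)
    (by
      refine ⟨B / ‖(2 * (Real.pi : ℂ) * I)‖, ?_⟩
      intro τ hτ
      rw [norm_div, ← mul_div_assoc]
      exact div_le_div_of_nonneg_right (hbd τ hτ) hn2.le)
  refine ⟨b, hb, ?_⟩
  have hder : ∀ z ∈ UH, HasDerivAt (Fs b) (h z) z := by
    intro z hz
    have := (hQDIF N b hN hb).2.2.1 z hz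
    rw [hqs z hz, mul_div_cancel₀ _ h2pi] at this
    exact this
  have hper := hPER N W _ u h (Fs b) hN hadm hder hhol hloc hinv
  intro p q r s hg
  obtain ⟨g, hgm, e1, e2, e3, e4⟩ := es_mk N p q r s hg
  have hI : Complex.I ∈ UH := by simp [UH]
  have h1 := hper g hgm Complex.I hI
  have h2 := (hFLIM N b hN hb).2.2.2.1 p q r s hg Complex.I hI
  unfold mob at h1
  rw [e1, e2, e3, e4, h2] at h1
  exact h1

end Pool.Agent.Helper96.MP
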