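import Pool.Agent.Helper96.MP.Defs

set_option autoImplicit false

namespace Pool.Agent.Helper96.MP

theorem perm_mem {n : ℕ} (hn : 1 ≤ n) (t : ℕ × ℕ × ℕ) :
    t ∈ Tn n ↔ t.1 * t.2.2 = n ∧ t.2.1 < t.2.2 := by
  simp only [Tn, Finset.mem_filter, Finset.mem_product, Finset.mem_range]
  constructor
  · exact fun h => h.2
  · intro h
    have h1 : t.1 ∣ n := ⟨t.2.2, h.1.symm⟩
    have h2 : t.2.2 ∣ n := ⟨t.1, by rw [mul_comm]; exact h.1.symm⟩
    have := Nat.le_of_dvd hn h1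
    have := Nat.le_of_dvd hn h2
    refine ⟨⟨by omega, by omega, by omega⟩, h⟩

theorem st_PERM (hH : ST_HERM) : ST_PERM := by
  classical
  intro N n hN hn hco p q r s hγ
  obtain ⟨hdet, hNr⟩ := hγ
  have hnZ : (n : ℤ) ≠ 0 := by
    have : n ≠ 0 := by omega
    exact_mod_cast this
  -- the map
  have hex : ∀ t : {t // t ∈ Tn n}, ∃ u : {t // t ∈ Tn n}, ∃ p' q' r' s' : ℤ, G0 N p' q' r' s' ∧
    (t.1.1 : ℤ) * p + t.1.2.1 * r = p' * u.1.1 ∧
    (t.1.1 : ℤ) * q + t.1.2.1 * s = p' * u.1.2.1 + q' * u.1.2.2 ∧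
    (t.1.2.2 : ℤ) * r = r' * u.1.1 ∧
    (t.1.2.2 : ℤ) * s = r' * u.1.2.1 + s' * u.1.2.2 := by
    rintro ⟨t, ht⟩
    have ht' := (perm_mem hn t).mp ht
    have hdet' : ((t.1 : ℤ) * p + t.2.1 * r) * (t.2.2 * s) - (t.1 * q + t.2.1 * s) * (t.2.2 * r)
        = n := by
      have h1 : ((t.1 : ℤ) * t.2.2) = n := by exact_mod_cast ht'.1
      linear_combination ((t.1 : ℤ) * t.2.2) * hdet + h1
    obtain ⟨u, ⟨hu, P, Q, R, S, h1, h2, h3, h4, h5⟩, _⟩ := hH n hn _ _ _ _ hdet'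
    refine ⟨⟨u, hu⟩, P, Q, R, S, ⟨h1, ?_⟩, h2, h3, h4, h5⟩
    have hu' := (perm_mem hn u).mp hu
    -- N ∣ R * u.1, u.1 coprime to N
    have h6 : (N : ℤ) ∣ R * u.1 := by
      rw [← h4]; exact Dvd.dvd.mul_left hNr _
    have h7 : IsCoprime (N : ℤ) (u.1 : ℤ) := by
      rw [Nat.isCoprime_iff_coprime]
      have : u.1 ∣ n := ⟨u.2.2, hu'.1.symm⟩
      exact (Nat.Coprime.coprime_dvd_left this hco).symm
    exact h7.dvd_of_dvd_mul_right h6
  choose f P Q R S hf using hex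
  have hinj : Function.Injective f := by
    intro t1 t2 h12
    obtain ⟨⟨hd1, _⟩, a1, a2, a3, a4⟩ := hf t1
    obtain ⟨⟨hd2, _⟩, b1, b2, b3, b4⟩ := hf t2
    rw [h12] at a1 a2 a3 a4
    -- δ1 = γ1 γ2⁻¹ δ2
    have ht1 := (perm_mem hn t1.1).mp t1.2
    have ht2 := (perm_mem hn t2.1).mp t2.2
    have hdt1 : (t1.1.1 : ℤ) * t1.1.2.2 - t1.1.2.1 * 0 = n := by
      have : ((t1.1.1 : ℤ) * t1.1.2.2) = n := by exact_mod_cast ht1.1
      linarith
    obtain ⟨u, _, huniq⟩ := hH n hn (t1.1.1 : ℤ) (t1.1.2.1) 0 (t1.1.2.2) hdt1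
    -- t1 satisfies with identity
    have e1 : t1.1 = u := by
      apply huniq
      exact ⟨t1.2, 1, 0, 0, 1, by norm_num, by ring, by ring, by ring, by ring⟩
    have e2 : t2.1 = u := by
      apply huniq
      set P1 := P t1; set Q1 := Q t1; set R1 := R t1; set S1 := S t1
      set P2 := P t2; set Q2 := Q t2; set R2 := R t2; set S2 := S t2
      -- γ1 γ2⁻¹ = (P1 S2 - Q1 R2, -P1 Q2 + Q1 P2; R1 S2 - S1 R2, -R1 Q2 + S1 P2)
      set x : ℤ := ((f t2).1.1 : ℤ)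
      set y : ℤ := ((f t2).1.2.1 : ℤ)
      set z : ℤ := ((f t2).1.2.2 : ℤ)
      -- δ_i = γ_i (x,y;0,z) γ⁻¹, γ⁻¹ = (s,-q;-r,p)
      have A1 : (t1.1.1 : ℤ) = (P1 * x) * s - (P1 * y + Q1 * z) * r := by
        rw [← a1, ← a2]; linear_combination (-(t1.1.1 : ℤ)) * hdet
      have A2 : (t1.1.2.1 : ℤ) = -(P1 * x) * q + (P1 * y + Q1 * z) * p := by
        rw [← a1, ← a2]; linear_combination (-(t1.1.2.1 : ℤ)) * hdet
      have A3 : (0 : ℤ) = (R1 * x) * s - (R1 * y + S1 * z) * r := by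
        rw [← a3, ← a4]; ring
      have A4 : (t1.1.2.2 : ℤ) = -(R1 * x) * q + (R1 * y + S1 * z) * p := by
        rw [← a3, ← a4]; linear_combination (-(t1.1.2.2 : ℤ)) * hdet
      have B1 : (t2.1.1 : ℤ) = (P2 * x) * s - (P2 * y + Q2 * z) * r := by
        rw [← b1, ← b2]; linear_combination (-(t2.1.1 : ℤ)) * hdet
      have B2 : (t2.1.2.1 : ℤ) = -(P2 * x) * q + (P2 * y + Q2 * z) * p := by
        rw [← b1, ← b2]; linear_combination (-(t2.1.2.1 : ℤ)) * hdet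
      have B3 : (0 : ℤ) = (R2 * x) * s - (R2 * y + S2 * z) * r := by
        rw [← b3, ← b4]; ring
      have B4 : (t2.1.2.2 : ℤ) = -(R2 * x) * q + (R2 * y + S2 * z) * p := by
        rw [← b3, ← b4]; linear_combination (-(t2.1.2.2 : ℤ)) * hdet
      refine ⟨t2.2, P1 * S2 - Q1 * R2, -P1 * Q2 + Q1 * P2, R1 * S2 - S1 * R2,
        -R1 * Q2 + S1 * P2, ?_, ?_, ?_, ?_, ?_⟩
      · linear_combination hd1 + (P1 * S1 - Q1 * R1) * hd2
      · rw [A1]
        linear_combination (-(P1 * S2 - Q1 * R2)) * B1 - (-P1 * Q2 + Q1 * P2) * B3 +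
          (-(P1 * x * s) + (P1 * y + Q1 * z) * r) * hd2
      · rw [A2]
        linear_combination (-(P1 * S2 - Q1 * R2)) * B2 - (-P1 * Q2 + Q1 * P2) * B4 +
          ((P1 * x * q) - (P1 * y + Q1 * z) * p) * hd2
      · rw [A3]
        linear_combination (-(R1 * S2 - S1 * R2)) * B1 - (-R1 * Q2 + S1 * P2) * B3 +
          (-(R1 * x * s) + (R1 * y + S1 * z) * r) * hd2
      · rw [A4]
        linear_combination (-(R1 * S2 - S1 * R2)) * B2 - (-R1 * Q2 + S1 * P2) * B4 +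
          ((R1 * x * q) - (R1 * y + S1 * z) * p) * hd2
    exact Subtype.ext (e1.trans e2.symm)
  refine ⟨Equiv.ofBijective f (Finite.injective_iff_bijective.mp hinj), ?_⟩
  intro t
  exact ⟨P t, Q t, R t, S t, hf t⟩

end Pool.Agent.Helper96.MP
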