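import Pool.Agent.Helper96.MP.Defs

set_option autoImplicit false

namespace Pool.Agent.Helper96.MP

open Complex Filter Topology

theorem qdif_norm (b : ℕ → ℂ) (k : ℕ) (τ : ℂ) :
    ‖b k * exp (2 * (Real.pi : ℂ) * I * (k : ℂ) * τ)‖
      = ‖b k‖ * Real.exp (-2 * Real.pi * k * τ.im) := by
  rw [norm_mul, Complex.norm_exp]
  congr 2
  simp

theorem qdif_norm' (b : ℕ → ℂ) (k : ℕ) (τ : ℂ) :
    ‖b k / (k : ℂ) * exp (2 * (Real.pi : ℂ) * I * (k : ℂ) * τ)‖
      ≤ ‖b k‖ * Real.exp (-2 * Real.pi * k * τ.im) := by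
  rw [norm_mul, Complex.norm_exp, norm_div]
  have e : (2 * (Real.pi : ℂ) * I * (k : ℂ) * τ).re = -2 * Real.pi * k * τ.im := by simp
  rw [e]
  apply mul_le_mul_of_nonneg_right _ (Real.exp_pos _).le
  rcases Nat.eq_zero_or_pos k with h | h
  · rw [h]; simp
  · have : (1 : ℝ) ≤ ‖(k : ℂ)‖ := by
      rw [Complex.norm_natCast]; exact_mod_cast h
    exact div_le_self (norm_nonneg _) this

theorem qdif_sum {M : ℕ} {b : ℕ → ℂ} (hb : Cusp M b) (y : ℝ) (hy : 0 < y) :
    Summable (fun k : ℕ => ‖b k‖ * Real.exp (-2 * Real.pi * k * y)) := by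
  have h := (hb.sum (I * (y : ℂ)) (by simpa using hy)).norm
  refine h.congr ?_
  intro k
  rw [qdif_norm]
  simp

theorem qdif_zero {M : ℕ} {b : ℕ → ℂ} (hb : Cusp M b) : b 0 = 0 := by
  obtain ⟨B, hB⟩ := hb.bdd
  have h1 : Tendsto (fun y : ℝ => qs b (I * (y : ℂ))) atTop (𝓝 (∑' k : ℕ, if k = 0 then b 0 else 0)) := by
    unfold qs
    refine tendsto_tsum_of_dominated_convergence (bound := fun k => ‖b k‖ * Real.exp (-2 * Real.pi * k * 1))
      (qdif_sum hb 1 one_pos) ?_ ?_
    · intro k
      rcases Nat.eq_zero_or_pos k with h | h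
      · subst h; simp
      · rw [if_neg (by omega)]
        rw [← mul_zero (b k)]
        apply Tendsto.const_mul
        rw [tendsto_zero_iff_norm_tendsto_zero]
        have h2 : ∀ y : ℝ, ‖exp (2 * (Real.pi : ℂ) * I * (k : ℂ) * (I * (y : ℂ)))‖
            = Real.exp (-((2 * Real.pi * k) * y)) := by
          intro y
          rw [Complex.norm_exp]
          congr 1
          simp
        simp only [h2]
        apply Real.tendsto_exp_atBot.comp
        apply Filter.tendsto_neg_atTop_atBot.comp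
        apply Filter.Tendsto.const_mul_atTop _ tendsto_id
        have : (0 : ℝ) < k := by exact_mod_cast h
        positivity
    · filter_upwards [eventually_ge_atTop (1 : ℝ)] with y hy k
      rw [qdif_norm]
      apply mul_le_mul_of_nonneg_left _ (norm_nonneg _)
      apply Real.exp_le_exp.mpr
      simp only [Complex.mul_im, Complex.I_re, Complex.I_im, Complex.ofReal_im, Complex.ofReal_re,
        zero_mul, one_mul, zero_add]
      have : 0 ≤ 2 * Real.pi * (k : ℝ) := by positivity
      nlinarith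
  have h2 : Tendsto (fun y : ℝ => qs b (I * (y : ℂ))) atTop (𝓝 0) := by
    rw [tendsto_zero_iff_norm_tendsto_zero]
    have h3 : Tendsto (fun y : ℝ => B / y) atTop (𝓝 0) := tendsto_const_nhds.div_atTop tendsto_id
    refine tendsto_of_tendsto_of_tendsto_of_le_of_le' tendsto_const_nhds h3
      (Eventually.of_forall fun _ => norm_nonneg _) ?_
    filter_upwards [eventually_gt_atTop (0 : ℝ)] with y hy
    rw [le_div_iff₀ hy, mul_comm]
    have := hB (I * (y : ℂ)) (by simpa using hy)
    simpa using this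
  have h3 := tendsto_nhds_unique h1 h2
  rw [tsum_ite_eq] at h3
  exact h3

theorem qdif_open (y : ℝ) : IsOpen {z : ℂ | y < z.im} := isOpen_lt continuous_const Complex.continuous_im

theorem qdif_pre (y : ℝ) : IsPreconnected {z : ℂ | y < z.im} :=
  (convex_halfSpace_im_gt y).isPreconnected

theorem st_QDIF : ST_QDIF := by
  intro M b hM hb
  have h0 := qdif_zero hb
  have hsF : ∀ τ ∈ UH, Summable (fun k : ℕ => b k / (k : ℂ) *
      exp (2 * (Real.pi : ℂ) * I * (k : ℂ) * τ)) := by
    intro τ hτ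
    exact Summable.of_norm_bounded (qdif_sum hb τ.im hτ) (fun k => qdif_norm' b k τ)
  refine ⟨h0, ?_, ?_, hsF, ?_, ?_⟩
  · intro τ hτ
    have hτ' : 0 < τ.im := hτ
    have h1 : DifferentiableOn ℂ (qs b) {z : ℂ | τ.im / 2 < z.im} := by
      unfold qs
      refine differentiableOn_tsum_of_summable_norm (qdif_sum hb (τ.im / 2) (by linarith)) ?_
        (qdif_open _) ?_
      · intro k
        fun_prop
      · intro k w hw
        rw [qdif_norm]
        apply mul_le_mul_of_nonneg_left _ (norm_nonneg _)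
        apply Real.exp_le_exp.mpr
        have : 0 ≤ 2 * Real.pi * (k : ℝ) := by positivity
        have hw' : τ.im / 2 < w.im := hw
        nlinarith
    exact (h1.differentiableAt ((qdif_open _).mem_nhds (by
      show τ.im / 2 < τ.im; linarith))).differentiableWithinAt
  · intro τ hτ
    have hτ' : 0 < τ.im := hτ
    have h1 := hasDerivAt_tsum_of_isPreconnected (𝕜 := ℂ) (F := ℂ)
      (u := fun k => ‖2 * (Real.pi : ℂ) * I‖ * (‖b k‖ * Real.exp (-2 * Real.pi * k * (τ.im / 2))))
      (g := fun k z => b k / (k : ℂ) * exp (2 * (Real.pi : ℂ) * I * (k : ℂ) * z))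
      (g' := fun k z => 2 * (Real.pi : ℂ) * I * (b k * exp (2 * (Real.pi : ℂ) * I * (k : ℂ) * z)))
      (t := {z : ℂ | τ.im / 2 < z.im}) (y₀ := τ) (y := τ)
      ((qdif_sum hb (τ.im / 2) (by linarith)).mul_left _) (qdif_open _) (qdif_pre _)
      (by
        intro k z hz
        have h2 : HasDerivAt (fun z : ℂ => exp (2 * (Real.pi : ℂ) * I * (k : ℂ) * z))
            (exp (2 * (Real.pi : ℂ) * I * (k : ℂ) * z) * (2 * (Real.pi : ℂ) * I * (k : ℂ) * 1)) z :=
          ((hasDerivAt_id z).const_mul (2 * (Real.pi : ℂ) * I * (k : ℂ))).cexp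
        have h3 := h2.const_mul (b k / (k : ℂ))
        have h4 : b k / (k : ℂ) * (exp (2 * (Real.pi : ℂ) * I * (k : ℂ) * z) *
            (2 * (Real.pi : ℂ) * I * (k : ℂ) * 1))
            = 2 * (Real.pi : ℂ) * I * (b k * exp (2 * (Real.pi : ℂ) * I * (k : ℂ) * z)) := by
          rcases Nat.eq_zero_or_pos k with h | h
          · subst h; simp [h0]
          · have : (k : ℂ) ≠ 0 := by exact_mod_cast h.ne'
            field_simp
        rw [h4] at h3
        exact h3)
      (by
        intro k w hw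
        rw [norm_mul, qdif_norm]
        apply mul_le_mul_of_nonneg_left _ (norm_nonneg _)
        apply mul_le_mul_of_nonneg_left _ (norm_nonneg _)
        apply Real.exp_le_exp.mpr
        have : 0 ≤ 2 * Real.pi * (k : ℝ) := by positivity
        have hw' : τ.im / 2 < w.im := hw
        nlinarith)
      (by show τ.im / 2 < τ.im; linarith) (hsF τ hτ) (by show τ.im / 2 < τ.im; linarith)
    rw [tsum_mul_left] at h1
    exact h1
  · intro τ hτ
    unfold Fs
    congr 1
    funext k
    congr 1
    have : 2 * (Real.pi : ℂ) * I * (k : ℂ) * (τ + 1)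
        = 2 * (Real.pi : ℂ) * I * (k : ℂ) * τ + (k : ℕ) * (2 * (Real.pi : ℂ) * I) := by ring
    rw [this, Complex.exp_add, Complex.exp_nat_mul_two_pi_mul_I, mul_one]
  · have hs1 := qdif_sum hb 1 one_pos
    refine ⟨Real.exp (2 * Real.pi) * ∑' k : ℕ, ‖b k‖ * Real.exp (-2 * Real.pi * k * 1), ?_⟩
    intro τ hτ hτ1
    have key : ∀ k : ℕ, ‖b k‖ * Real.exp (-2 * Real.pi * k * τ.im) ≤
        Real.exp (-2 * Real.pi * τ.im) * (Real.exp (2 * Real.pi) *
          (‖b k‖ * Real.exp (-2 * Real.pi * k * 1))) := by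
      intro k
      rcases Nat.eq_zero_or_pos k with h | h
      · subst h; simp [h0]
      · have h2 : Real.exp (-2 * Real.pi * τ.im) * (Real.exp (2 * Real.pi) *
          (‖b k‖ * Real.exp (-2 * Real.pi * k * 1)))
          = ‖b k‖ * Real.exp (-2 * Real.pi * τ.im + 2 * Real.pi + (-2 * Real.pi * k * 1)) := by
          rw [Real.exp_add, Real.exp_add]; ring
        rw [h2]
        apply mul_le_mul_of_nonneg_left _ (norm_nonneg _)
        apply Real.exp_le_exp.mpr
        have hk : (1 : ℝ) ≤ k := by exact_mod_cast h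
        have hp : 0 < Real.pi := Real.pi_pos
        nlinarith [mul_nonneg (mul_nonneg hp.le (sub_nonneg.mpr hk)) (sub_nonneg.mpr hτ1)]
    have hsum : Summable (fun k : ℕ => Real.exp (-2 * Real.pi * τ.im) * (Real.exp (2 * Real.pi) *
          (‖b k‖ * Real.exp (-2 * Real.pi * k * 1)))) := (hs1.mul_left _).mul_left _
    have htot : ∑' k : ℕ, Real.exp (-2 * Real.pi * τ.im) * (Real.exp (2 * Real.pi) *
          (‖b k‖ * Real.exp (-2 * Real.pi * k * 1)))
        = Real.exp (2 * Real.pi) * (∑' k : ℕ, ‖b k‖ * Real.exp (-2 * Real.pi * k * 1)) *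
          Real.exp (-2 * Real.pi * τ.im) := by
      rw [tsum_mul_left, tsum_mul_left]; ring
    constructor
    · rw [← htot]
      unfold qs
      refine tsum_of_norm_bounded hsum.hasSum ?_
      intro k
      rw [qdif_norm]
      exact key k
    · rw [← htot]
      unfold Fs
      refine tsum_of_norm_bounded hsum.hasSum ?_
      intro k
      exact (qdif_norm' b k τ).trans (key k)

end Pool.Agent.Helper96.MP
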