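import Pool.Agent.Helper9.MP.Amp
import Pool.Agent.Helper55.MP.TOT
import Pool.Agent.Helper22.MP.FD

set_option autoImplicit false

namespace Pool.Agent.Helper96.MP

open Complex MeasureTheory Filter Topology
open scoped MatrixGroups

/-- the submodule of cusp forms with a given eigenvalue of `T_p` -/
noncomputable def tot2_S (N p : ℕ) (α : ℝ) : Submodule ℂ (ℕ → ℂ) where
  carrier := {b | Cusp N b ∧ ∀ n, Tl p b n = (α : ℂ) * b n}
  add_mem' := by
    rintro b b' ⟨h1, h2⟩ ⟨h1', h2'⟩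
    refine ⟨fd_add N b b' h1 h1', fun n => ?_⟩
    have e := h2 n
    have e' := h2' n
    unfold Tl at e e' ⊢
    simp only [Pi.add_apply]
    split_ifs at e e' ⊢ <;> linear_combination e + e'
  zero_mem' := by
    refine ⟨fd_zero N, fun n => ?_⟩
    unfold Tl
    simp
  smul_mem' := by
    rintro c b ⟨h1, h2⟩
    refine ⟨fd_smul N c b h1, fun n => ?_⟩
    have e := h2 n
    unfold Tl at e ⊢
    simp only [Pi.smul_apply, smul_eq_mul]
    split_ifs at e ⊢ <;> linear_combination c * e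

section rows

variable {N : ℕ}

/-- the rows of the Hecke relation for one prime -/
def tot2_R (N : ℕ) (p : ℕ) (α : ℤ) : Set (PN N → ℤ) :=
  {r | ∃ c d : ℤ, Uni N c d ∧ r = tot_H N p α c d}

theorem tot2_R_iff [Fintype (PN N)] (p : ℕ) (α : ℤ) (v : PN N → ℝ) :
    (∀ r ∈ tot2_R N p α, ∑ x, (r x : ℝ) * v x = 0) ↔ HRow N p α v := by
  constructor
  · intro h c d hu
    have := h _ ⟨c, d, hu, rfl⟩
    rw [tot_H_ev] at this
    linarith
  · rintro h r ⟨c, d, hu, hr⟩
    rw [hr, tot_H_ev, h c d hu]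
    ring

theorem tot2_Sn_card (n : ℕ) : ((Sn n).card : ℝ) ≤ ((n : ℝ) + 1) ^ 4 := by
  have h : (Sn n).card ≤ (n + 1) ^ 4 := by
    unfold Sn
    refine (Finset.card_filter_le _ _).trans ?_
    simp only [Finset.card_product, Finset.card_range]
    refine le_of_eq ?_
    ring
  exact_mod_cast h

theorem tot2_R_l1 [Fintype (PN N)] (p : ℕ) (hp : 2 ≤ p) (α : ℤ) (hα : |α| ≤ p + 1) :
    ∀ r ∈ tot2_R N p α, tot_l1 r ≤ (p : ℝ) ^ 9 := by
  rintro r ⟨c, d, hu, hr⟩
  rw [hr]
  refine (tot_H_l1 _ _ _ _).trans ?_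
  have h1 := tot2_Sn_card p
  have h2 : |(α : ℝ)| ≤ p + 1 := by exact_mod_cast hα
  have hp2 : (2 : ℝ) ≤ p := by exact_mod_cast hp
  have h3 : (p : ℝ) + 1 ≤ (p : ℝ) ^ 2 := by nlinarith
  have h4 : ((p : ℝ) + 1) ^ 4 ≤ (p : ℝ) ^ 8 := by
    calc ((p : ℝ) + 1) ^ 4 ≤ ((p : ℝ) ^ 2) ^ 4 := by gcongr
      _ = (p : ℝ) ^ 8 := by ring
  have h5 : (p : ℝ) ^ 2 ≤ (p : ℝ) ^ 8 := pow_le_pow_right₀ (by linarith) (by norm_num)
  have h6 : (p : ℝ) ^ 9 = p * (p : ℝ) ^ 8 := by ring
  have h7 : 0 ≤ (p : ℝ) ^ 8 := by positivity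
  nlinarith

theorem tot2_R1_l1 [Fintype (PN N)] (a : ℕ → ℤ)
    (ha : ∀ l : ℕ, l.Prime → ¬ l ∣ N → |a l| ≤ l + 1) (X : ℕ) :
    ∀ r ∈ tot_R1 N a X, tot_l1 r ≤ ((N : ℝ) + 2) ^ 60 := by
  rintro r ⟨l, hl, hlN, hlX, hl6, c, d, hu, hr⟩
  have hl2 : (2 : ℝ) ≤ l := by exact_mod_cast hl.two_le
  have hN0 : (0 : ℝ) ≤ N := Nat.cast_nonneg N
  have hlj : (l : ℝ) ≤ (N : ℝ) ^ 6 := by exact_mod_cast hl6
  have hlj' : (l : ℝ) ≤ ((N : ℝ) + 2) ^ 6 := hlj.trans (by gcongr; linarith)
  have haR : |(a l : ℝ)| ≤ l + 1 := by exact_mod_cast ha l hl hlN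
  have hll : (l : ℝ) ^ 2 ≤ ((N : ℝ) + 2) ^ 12 := by
    calc (l : ℝ) ^ 2 ≤ (((N : ℝ) + 2) ^ 6) ^ 2 := by gcongr
      _ = ((N : ℝ) + 2) ^ 12 := by ring
  have h1 : (1 : ℝ) ≤ (N : ℝ) + 2 := by linarith
  have h12 : 1 ≤ ((N : ℝ) + 2) ^ 12 := one_le_pow₀ h1
  have h2 : (2 : ℝ) * ((N : ℝ) + 2) ^ 12 ≤ ((N : ℝ) + 2) ^ 13 := by
    have : ((N : ℝ) + 2) ^ 13 = ((N : ℝ) + 2) * ((N : ℝ) + 2) ^ 12 := by ring
    rw [this]
    have : (2 : ℝ) ≤ (N : ℝ) + 2 := by linarith
    nlinarith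
  have hB : ((l : ℝ) ^ 2 + 1) ^ 4 ≤ ((N : ℝ) + 2) ^ 52 := by
    calc ((l : ℝ) ^ 2 + 1) ^ 4 ≤ (((N : ℝ) + 2) ^ 13) ^ 4 := by
          gcongr
          linarith
      _ = ((N : ℝ) + 2) ^ 52 := by ring
  have hA : ((l : ℝ) + 1) ^ 4 ≤ ((l : ℝ) ^ 2 + 1) ^ 4 := by
    have : (l : ℝ) + 1 ≤ (l : ℝ) ^ 2 + 1 := by nlinarith
    gcongr
  have hC : 4 * (l : ℝ) ^ 2 ≤ 4 * ((N : ℝ) + 2) ^ 52 := by
    have : ((N : ℝ) + 2) ^ 12 ≤ ((N : ℝ) + 2) ^ 52 := pow_le_pow_right₀ h1 (by norm_num)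
    linarith
  have hD : 5 * ((N : ℝ) + 2) ^ 52 ≤ ((N : ℝ) + 2) ^ 60 := by
    have h8 : (5 : ℝ) ≤ ((N : ℝ) + 2) ^ 8 := by
      have h9 : (2 : ℝ) ^ 8 ≤ ((N : ℝ) + 2) ^ 8 := by
        gcongr
        linarith
      linarith
    have h10 : ((N : ℝ) + 2) ^ 60 = ((N : ℝ) + 2) ^ 8 * ((N : ℝ) + 2) ^ 52 := by ring
    rw [h10]
    exact mul_le_mul_of_nonneg_right h8 (by positivity)
  rcases hr with hr | hr
  · rw [hr]
    refine (tot_H_l1 _ _ _ _).trans ?_
    have h3 := tot2_Sn_card l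
    have h4 : (l : ℝ) + 1 ≤ 4 * (l : ℝ) ^ 2 := by nlinarith
    linarith
  · rw [hr]
    refine (tot_H_l1 _ _ _ _).trans ?_
    have h3 := tot2_Sn_card (l ^ 2)
    push_cast at h3
    have h5 : |(((a l) ^ 2 - l : ℤ) : ℝ)| ≤ 4 * (l : ℝ) ^ 2 := by
      push_cast
      have h6 : (a l : ℝ) ^ 2 ≤ ((l : ℝ) + 1) ^ 2 := by
        rw [← sq_abs]
        gcongr
      have h7 : 0 ≤ (a l : ℝ) ^ 2 := sq_nonneg _
      rw [abs_le]
      constructor <;> nlinarith
    linarith

end rows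

theorem tot2_log3 (p : ℕ) (hp : 2 ≤ p) : Real.log 3 ≤ 2 * Real.log p := by
  have hp2 : (2 : ℝ) ≤ p := by exact_mod_cast hp
  have h : Real.log 3 ≤ Real.log ((p : ℝ) ^ 2) := Real.log_le_log (by norm_num) (by nlinarith)
  rw [Real.log_pow] at h
  push_cast at h
  exact h

theorem st_TOT2 (hLA : ST_LA) (hPNF : ST_PNF) (hTRF : ST_TRF) (hAMPD : ST_AMPD) : ST_TOT2 := by
  obtain ⟨Ca, hCa, hdim⟩ := hAMPD
  refine ⟨131 + 240 * Ca, by positivity, ?_⟩
  intro N p a ε hN hp hpN hε ha hap E hE hfin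
  obtain ⟨hfinite, hNle, hcard⟩ := hPNF N hN
  have instF : Fintype (PN N) := Fintype.ofFinite (PN N)
  have hcardP : Nat.card (PN N) = Fintype.card (PN N) := Nat.card_eq_fintype_card
  have hp2 : (2 : ℝ) ≤ p := by exact_mod_cast hp.two_le
  have hlp : 0 < Real.log p := Real.log_pos (by linarith)
  have hN1 : (1 : ℝ) ≤ N := by exact_mod_cast hN
  have hpsi0 : 0 ≤ psi N := (Nat.cast_nonneg _).trans hcard
  have hlog3 := tot2_log3 p hp.two_le
  have hlN1 : 0 < Real.log (N + 1) := Real.log_pos (by linarith)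
  have hlN2 : 0 ≤ Real.log ((N : ℝ) + 2) := Real.log_nonneg (by linarith)
  by_cases hp6 : p ≤ N ^ 6
  · -- three blocks
    set Rw : ℕ → Set (PN N → ℤ) := fun j =>
      if j = 0 then tot_R0 N ε else if j = 1 then tot2_R N p (a p) else tot_R1 N a (N ^ 6) with hRw
    have hRw0 : Rw 0 = tot_R0 N ε := if_pos rfl
    have hRw1 : Rw 1 = tot2_R N p (a p) := by
      rw [hRw]
      simp
    have hRw2 : Rw 2 = tot_R1 N a (N ^ 6) := by
      rw [hRw]
      simp
    set B : ℕ → ℝ := fun j =>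
      if j = 0 then 3 else if j = 1 then (p : ℝ) ^ 9 else ((N : ℝ) + 2) ^ 60 with hB
    have hB0 : B 0 = 3 := if_pos rfl
    have hB1 : B 1 = (p : ℝ) ^ 9 := by
      rw [hB]
      simp
    have hB2 : B 2 = ((N : ℝ) + 2) ^ 60 := by
      rw [hB]
      simp
    have hEJ : tot_ker Rw 3 = E := by
      ext v
      rw [hE]
      constructor
      · intro hv
        refine ⟨?_, fun l hl hlN hl6 => ?_⟩
        · rw [← tot_R0_iff]
          have h1 := hv 0 (by omega)
          rwa [hRw0] at h1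
        · have h1 := hv 2 (by omega)
          rw [hRw2] at h1
          exact (tot_R1_iff a _ v).1 h1 l hl hlN hl6 hl6
      · rintro ⟨hv1, hv2⟩ i hi
        have hi3 : i = 0 ∨ i = 1 ∨ i = 2 := by omega
        rcases hi3 with rfl | rfl | rfl
        · rw [hRw0]
          exact (tot_R0_iff ε v).2 hv1
        · rw [hRw1]
          exact (tot2_R_iff p (a p) v).2 (hv2 p hp hpN hp6).1
        · rw [hRw2]
          exact (tot_R1_iff a _ v).2 fun l hl hlN _ hl6 => hv2 l hl hlN hl6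
    obtain ⟨v, hv0, hvE, hvb⟩ := hLA (PN N) 3 Rw B (tot_ker Rw)
      (by
        intro j
        rw [hB]
        dsimp only
        split_ifs
        · norm_num
        · exact one_le_pow₀ (by linarith)
        · exact one_le_pow₀ (by linarith))
      (by
        intro j r hr
        rw [hRw] at hr
        rw [hB]
        dsimp only at hr ⊢
        split_ifs at hr ⊢ with h0 h1
        · exact tot_R0_l1 ε hε r hr
        · exact tot2_R_l1 p hp.two_le (a p) (ha p hp hpN) r hr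
        · exact tot2_R1_l1 a ha _ r hr)
      (fun j v => tot_mem_ker Rw j v) (by rw [hEJ]; exact hfin)
    refine ⟨v, hv0, by rw [← hEJ]; exact hvE, fun x => (hvb x).trans ?_⟩
    rw [Finset.prod_range_succ, Finset.prod_range_succ, Finset.prod_range_succ,
      Finset.prod_range_zero, one_mul, hB0, hB1, hB2]
    set D : ℕ → ℕ := fun j => Module.finrank ℝ (tot_ker Rw j) with hD
    have hDle : ∀ j, D j ≤ Nat.card (PN N) := by
      intro j
      rw [hcardP, ← Module.finrank_fintype_fun_eq_card ℝ (η := PN N)]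
      exact Submodule.finrank_le _
    have hD2 : (D 2 : ℝ) ≤ 2 * (Ca * psi N * Real.log p / Real.log (N + 1)) := by
      have hαne : ((a p : ℤ) : ℝ) ^ 2 ≠ ((p : ℝ) + 1) ^ 2 := by
        intro h
        exact hap (by exact_mod_cast h)
      have h1 := hTRF N p (a p) hN hp hpN hαne (tot2_S N p (a p)) (fun b => Iff.rfl)
        (tot_ker Rw 2) (by
          intro v hv
          have e0 := hv 0 (by omega)
          rw [hRw0] at e0
          have e1 := hv 1 (by omega)
          rw [hRw1] at e1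
          have e2 := (tot_R0_iff ε v).1 e0
          exact ⟨e2.two, e2.three, (tot2_R_iff p (a p) v).1 e1⟩)
      have h2 := hdim N p (a p) hN hp hpN (tot2_S N p (a p)) (fun b => Iff.rfl)
      have h3 : (D 2 : ℝ) ≤ 2 * (Module.finrank ℂ (tot2_S N p (a p)) : ℝ) := by
        exact_mod_cast h1
      linarith
    have e0 : (3 : ℝ) ^ (D 0 - D 1) ≤ Real.exp (2 * Real.log p * psi N) := by
      have h1 : (3 : ℝ) ^ (D 0 - D 1) = Real.exp ((D 0 - D 1 : ℕ) * Real.log 3) := by
        rw [Real.exp_nat_mul, Real.exp_log (by norm_num)]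
      rw [h1]
      refine Real.exp_le_exp.2 ?_
      have h2 : ((D 0 - D 1 : ℕ) : ℝ) ≤ psi N :=
        le_trans (by exact_mod_cast (Nat.sub_le _ _).trans (hDle 0)) hcard
      calc ((D 0 - D 1 : ℕ) : ℝ) * Real.log 3 ≤ psi N * (2 * Real.log p) :=
            mul_le_mul h2 hlog3 (Real.log_nonneg (by norm_num)) hpsi0
        _ = 2 * Real.log p * psi N := by ring
    have e1 : ((p : ℝ) ^ 9) ^ (D 1 - D 2) ≤ Real.exp (9 * Real.log p * psi N) := by
      have h1 : ((p : ℝ) ^ 9) ^ (D 1 - D 2) = Real.exp ((D 1 - D 2 : ℕ) * Real.log ((p : ℝ) ^ 9)) := by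
        rw [Real.exp_nat_mul, Real.exp_log (by positivity)]
      rw [h1]
      refine Real.exp_le_exp.2 ?_
      rw [Real.log_pow]
      push_cast
      have h2 : ((D 1 - D 2 : ℕ) : ℝ) ≤ psi N :=
        le_trans (by exact_mod_cast (Nat.sub_le _ _).trans (hDle 1)) hcard
      calc ((D 1 - D 2 : ℕ) : ℝ) * (9 * Real.log p) ≤ psi N * (9 * Real.log p) :=
            mul_le_mul_of_nonneg_right h2 (by positivity)
        _ = 9 * Real.log p * psi N := by ring
    have e2 : (((N : ℝ) + 2) ^ 60) ^ (D 2 - D 3) ≤ Real.exp (240 * Ca * Real.log p * psi N) := by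
      have h1 : (((N : ℝ) + 2) ^ 60) ^ (D 2 - D 3) =
          Real.exp ((D 2 - D 3 : ℕ) * Real.log (((N : ℝ) + 2) ^ 60)) := by
        rw [Real.exp_nat_mul, Real.exp_log (by positivity)]
      rw [h1]
      refine Real.exp_le_exp.2 ?_
      rw [Real.log_pow]
      push_cast
      have h2 : ((D 2 - D 3 : ℕ) : ℝ) ≤ D 2 := by exact_mod_cast Nat.sub_le _ _
      have h3 : Real.log ((N : ℝ) + 2) ≤ 2 * Real.log (N + 1) := by
        have h : Real.log ((N : ℝ) + 2) ≤ Real.log (((N : ℝ) + 1) ^ 2) :=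
          Real.log_le_log (by linarith) (by nlinarith)
        rw [Real.log_pow] at h
        push_cast at h
        exact h
      have h4 : 0 ≤ Ca * psi N * Real.log p / Real.log (N + 1) := by positivity
      calc ((D 2 - D 3 : ℕ) : ℝ) * (60 * Real.log ((N : ℝ) + 2))
          ≤ (2 * (Ca * psi N * Real.log p / Real.log (N + 1))) * (60 * (2 * Real.log (N + 1))) := by
            refine mul_le_mul (h2.trans hD2) (by linarith) (by positivity) (by positivity)
        _ = 240 * Ca * Real.log p * psi N := by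
            field_simp
            ring
    calc (3 : ℝ) ^ (D 0 - D 1) * ((p : ℝ) ^ 9) ^ (D 1 - D 2) * (((N : ℝ) + 2) ^ 60) ^ (D 2 - D 3)
        ≤ Real.exp (2 * Real.log p * psi N) * Real.exp (9 * Real.log p * psi N) *
          Real.exp (240 * Ca * Real.log p * psi N) := by
          gcongr
      _ = Real.exp (2 * Real.log p * psi N + 9 * Real.log p * psi N +
          240 * Ca * Real.log p * psi N) := by
          rw [Real.exp_add, Real.exp_add]
      _ ≤ Real.exp ((131 + 240 * Ca) * psi N * Real.log p) := by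
          refine Real.exp_le_exp.2 ?_
          have : 0 ≤ psi N * Real.log p := mul_nonneg hpsi0 hlp.le
          nlinarith
  · -- two blocks
    push Not at hp6
    set Rw : ℕ → Set (PN N → ℤ) := fun j =>
      if j = 0 then tot_R0 N ε else tot_R1 N a (N ^ 6) with hRw
    have hRw0 : Rw 0 = tot_R0 N ε := if_pos rfl
    have hRw1 : Rw 1 = tot_R1 N a (N ^ 6) := by
      rw [hRw]
      simp
    set B : ℕ → ℝ := fun j => if j = 0 then 3 else ((N : ℝ) + 2) ^ 60 with hB
    have hB0 : B 0 = 3 := if_pos rfl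
    have hB1 : B 1 = ((N : ℝ) + 2) ^ 60 := by
      rw [hB]
      simp
    have hEJ : tot_ker Rw 2 = E := by
      ext v
      rw [hE]
      constructor
      · intro hv
        refine ⟨?_, fun l hl hlN hl6 => ?_⟩
        · rw [← tot_R0_iff]
          have h1 := hv 0 (by omega)
          rwa [hRw0] at h1
        · have h1 := hv 1 (by omega)
          rw [hRw1] at h1
          exact (tot_R1_iff a _ v).1 h1 l hl hlN hl6 hl6
      · rintro ⟨hv1, hv2⟩ i hi
        have hi3 : i = 0 ∨ i = 1 := by omega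
        rcases hi3 with rfl | rfl
        · rw [hRw0]
          exact (tot_R0_iff ε v).2 hv1
        · rw [hRw1]
          exact (tot_R1_iff a _ v).2 fun l hl hlN _ hl6 => hv2 l hl hlN hl6
    obtain ⟨v, hv0, hvE, hvb⟩ := hLA (PN N) 2 Rw B (tot_ker Rw)
      (by
        intro j
        rw [hB]
        dsimp only
        split_ifs
        · norm_num
        · exact one_le_pow₀ (by linarith))
      (by
        intro j r hr
        rw [hRw] at hr
        rw [hB]
        dsimp only at hr ⊢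
        split_ifs at hr ⊢ with h0
        · exact tot_R0_l1 ε hε r hr
        · exact tot2_R1_l1 a ha _ r hr)
      (fun j v => tot_mem_ker Rw j v) (by rw [hEJ]; exact hfin)
    refine ⟨v, hv0, by rw [← hEJ]; exact hvE, fun x => (hvb x).trans ?_⟩
    rw [Finset.prod_range_succ, Finset.prod_range_succ,
      Finset.prod_range_zero, one_mul, hB0, hB1]
    set D : ℕ → ℕ := fun j => Module.finrank ℝ (tot_ker Rw j) with hD
    have hDle : ∀ j, D j ≤ Nat.card (PN N) := by
      intro j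
      rw [hcardP, ← Module.finrank_fintype_fun_eq_card ℝ (η := PN N)]
      exact Submodule.finrank_le _
    have hlN : Real.log ((N : ℝ) + 2) ≤ 2 * Real.log p := by
      have h1 : (N : ℝ) + 1 ≤ p := by
        have h2 : N < p := (Nat.le_self_pow (by norm_num) N).trans_lt hp6
        exact_mod_cast h2
      have h : Real.log ((N : ℝ) + 2) ≤ Real.log ((p : ℝ) ^ 2) :=
        Real.log_le_log (by linarith) (by nlinarith)
      rw [Real.log_pow] at h
      push_cast at h
      exact h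
    have e0 : (3 : ℝ) ^ (D 0 - D 1) ≤ Real.exp (2 * Real.log p * psi N) := by
      have h1 : (3 : ℝ) ^ (D 0 - D 1) = Real.exp ((D 0 - D 1 : ℕ) * Real.log 3) := by
        rw [Real.exp_nat_mul, Real.exp_log (by norm_num)]
      rw [h1]
      refine Real.exp_le_exp.2 ?_
      have h2 : ((D 0 - D 1 : ℕ) : ℝ) ≤ psi N :=
        le_trans (by exact_mod_cast (Nat.sub_le _ _).trans (hDle 0)) hcard
      calc ((D 0 - D 1 : ℕ) : ℝ) * Real.log 3 ≤ psi N * (2 * Real.log p) :=
            mul_le_mul h2 hlog3 (Real.log_nonneg (by norm_num)) hpsi0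
        _ = 2 * Real.log p * psi N := by ring
    have e1 : (((N : ℝ) + 2) ^ 60) ^ (D 1 - D 2) ≤ Real.exp (120 * Real.log p * psi N) := by
      have h1 : (((N : ℝ) + 2) ^ 60) ^ (D 1 - D 2) =
          Real.exp ((D 1 - D 2 : ℕ) * Real.log (((N : ℝ) + 2) ^ 60)) := by
        rw [Real.exp_nat_mul, Real.exp_log (by positivity)]
      rw [h1]
      refine Real.exp_le_exp.2 ?_
      rw [Real.log_pow]
      push_cast
      have h2 : ((D 1 - D 2 : ℕ) : ℝ) ≤ psi N :=
        le_trans (by exact_mod_cast (Nat.sub_le _ _).trans (hDle 1)) hcard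
      calc ((D 1 - D 2 : ℕ) : ℝ) * (60 * Real.log ((N : ℝ) + 2))
          ≤ psi N * (60 * (2 * Real.log p)) :=
            mul_le_mul h2 (by linarith) (by positivity) hpsi0
        _ = 120 * Real.log p * psi N := by ring
    calc (3 : ℝ) ^ (D 0 - D 1) * (((N : ℝ) + 2) ^ 60) ^ (D 1 - D 2)
        ≤ Real.exp (2 * Real.log p * psi N) * Real.exp (120 * Real.log p * psi N) := by
          gcongr
      _ = Real.exp (2 * Real.log p * psi N + 120 * Real.log p * psi N) := by
          rw [Real.exp_add]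
      _ ≤ Real.exp ((131 + 240 * Ca) * psi N * Real.log p) := by
          refine Real.exp_le_exp.2 ?_
          have h1 : 0 ≤ psi N * Real.log p := mul_nonneg hpsi0 hlp.le
          have h2 : 0 ≤ Ca * (psi N * Real.log p) := mul_nonneg hCa.le h1
          nlinarith

end Pool.Agent.Helper96.MP
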