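import Pool.Agent.Helper96.MP.VF
import Pool.Agent.Helper96.MP.ES
import Pool.Agent.Helper96.MP.QDIF
import Pool.Agent.Helper96.MP.PERM
import Pool.Agent.Helper96.MP.CONN
import Pool.Agent.Helper50.MP.AL
import Pool.Agent.Helper87.MP.ALG
import Pool.Agent.Helper87.MP.FIX
import Pool.Agent.Helper87.MP.PNF
import Pool.Agent.Helper87.MP.LA
import Pool.Agent.Helper23.MP.BDRY
import Pool.Agent.Helper84.MP.CHAIN
import Pool.Agent.Helper84.MP.TILE
import Pool.Agent.Helper45.MP.CONF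
import Pool.Agent.Helper45.MP.OVER
import Pool.Agent.Helper45.MP.UNF
import Pool.Agent.Helper45.MP.VEX
import Pool.Agent.Helper22.MP.COV
import Pool.Agent.Helper22.MP.FD
import Pool.Agent.Helper22.MP.WT
import Pool.Agent.Helper18.MP.CSP
import Pool.Agent.Helper38.MP.DEPL
import Pool.Agent.Helper38.MP.LIM
import Pool.Agent.Helper59.MP.DIMO
import Pool.Agent.Helper21.MP.DIVB
import Pool.Agent.Helper21.MP.HERM
import Pool.Agent.Helper68.MP.EIG
import Pool.Agent.Helper68.MP.MONE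
import Pool.Agent.Helper27.MP.EQV
import Pool.Agent.Helper30.MP.FAREY
import Pool.Agent.Helper11.MP.FCUSP
import Pool.Agent.Helper11.MP.FLIM
import Pool.Agent.Helper11.MP.QEXP
import Pool.Agent.Helper11.MP.QUNI
import Pool.Agent.Helper11.MP.INJ
import Pool.Agent.Helper34.MP.MIN
import Pool.Agent.Helper34.MP.TF
import Pool.Agent.Helper1.MP.PER
import Pool.Agent.Helper53.MP.UZ
import Pool.Agent.Helper85.MP.STRICT
import Pool.Agent.Helper57.MP.STURM
import Pool.Agent.Helper92.MP.SURJ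
import Pool.Agent.Helper92.MP.TEST
import Pool.Agent.Helper55.MP.TOT
import Pool.Agent.Helper79.MP.WEYL2
import Pool.Agent.Helper96.MP.FINAL2
import Pool.Agent.Helper96.MP.MAIN2
import Pool.Agent.Helper96.MP.TOT2
import Pool.Agent.Helper87.MP.ALC
import Pool.Agent.Helper95.MP.AMPD
import Pool.Agent.Helper91.MP.AMPZ
import Pool.Agent.Helper9.MP.COS
import Pool.Agent.Helper79.MP.DIMK
import Pool.Agent.Helper79.MP.FOLD
import Pool.Agent.Helper57.MP.HECKE
import Pool.Agent.Helper87.MP.HPC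
import Pool.Agent.Helper2.MP.HPE
import Pool.Agent.Helper50.MP.MV
import Pool.Agent.Helper87.MP.NBAD
import Pool.Agent.Helper9.MP.NRM
import Pool.Agent.Helper55.MP.SEP
import Pool.Agent.Helper18.MP.STRIP
import Pool.Agent.Helper9.MP.SUMB
import Pool.Agent.Helper63.MP.SYM
import Pool.Agent.Helper2.MP.TRF
import Pool.Agent.Helper11.MP.UB

set_option autoImplicit false

namespace Pool.Agent.Helper96.MP

theorem all_FLIM : ST_FLIM := st_FLIM st_QDIF st_HERM
theorem all_FCUSP : ST_FCUSP := st_FCUSP st_QDIF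
theorem all_INJ : ST_INJ := st_INJ all_FCUSP st_QDIF st_QUNI all_FLIM
theorem all_STURM : ST_STURM := st_STURM st_QDIF st_QUNI
theorem all_FD : ST_FD := st_FD all_STURM
theorem all_STRICT : ST_STRICT := st_STRICT st_QDIF all_FLIM st_QUNI
theorem all_PERM : ST_PERM := st_PERM st_HERM
theorem all_CHAIN : ST_CHAIN := st_CHAIN st_HERM
theorem all_TILE : ST_TILE := st_TILE st_HERM all_CHAIN
theorem all_FAREY : ST_FAREY := st_FAREY st_CONN
theorem all_VEX : ST_VEX := st_VEX st_SURJ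
theorem all_BDRY : ST_BDRY := st_BDRY st_SURJ
theorem all_TEST : ST_TEST := st_TEST st_UNF
theorem all_LIM : ST_LIM := st_LIM st_COV st_OVER st_CONF all_TEST st_WEYL2
theorem all_EQV : ST_EQV := st_EQV st_CONF
theorem all_CSP : ST_CSP := st_CSP st_COV st_OVER
theorem all_ES : ST_ES := st_ES st_WT Pool.Agent.Helper53.MP.st_UZ st_MIN all_LIM all_EQV all_CSP
  st_QEXP st_PER all_FLIM st_QDIF
theorem all_VF : ST_VF := st_VF all_VEX all_FLIM st_TF all_TILE st_SURJ
theorem all_HECKE : ST_HECKE := st_HECKE all_PERM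
theorem all_AL : ST_AL := st_AL st_ALG st_ALC st_SURJ st_QDIF st_QEXP st_QUNI
theorem all_MONE : ST_MONE :=
  st_MONE st_EIG all_FD all_AL all_HECKE st_DEPL all_STURM st_QDIF
theorem all_DIMO : ST_DIMO :=
  st_DIMO all_FAREY st_CONN all_ES all_INJ all_FLIM st_TF all_TILE all_PERM all_HECKE all_MONE
    all_BDRY all_STRICT st_SURJ st_QDIF
theorem all_COS : ST_COS := st_COS st_SURJ
theorem all_NRM : ST_NRM := st_NRM st_QDIF
theorem all_FOLD : ST_FOLD := st_FOLD all_COS all_NRM st_PNF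
theorem all_UB : ST_UB := st_UB all_FOLD st_STRIP st_MV st_QDIF
theorem all_HPE : ST_HPE := st_HPE st_HPC
theorem all_AMPZ : ST_AMPZ := st_AMPZ all_HPE st_HPC st_SUMB st_SEP all_FOLD st_MV st_QDIF
theorem all_SYM : ST_SYM := st_SYM all_FAREY st_CONN all_ES all_INJ all_FLIM st_TF all_TILE
  all_PERM all_HECKE all_BDRY st_QDIF
theorem all_TRF : ST_TRF := st_TRF all_SYM all_FLIM st_QDIF all_FD all_COS
theorem all_NBAD (hE : ST_ENT) : ST_NBAD := st_NBAD all_COS hE st_FIX st_DIVB st_PNF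
theorem all_AMPD (hE : ST_ENT) : ST_AMPD :=
  st_AMPD all_UB all_AMPZ (all_NBAD hE) st_DIMK all_NRM all_COS st_PNF st_QDIF st_QUNI
theorem all_TOT2 (hE : ST_ENT) : ST_TOT2 := st_TOT2 st_LA st_PNF all_TRF (all_AMPD hE)
theorem all_MAIN2 (hE : ST_ENT) : ST_MAIN2 :=
  st_MAIN2 all_VF all_DIMO (all_TOT2 hE) all_FAREY st_FPATH st_CONN all_FLIM all_STRICT

end Pool.Agent.Helper96.MP
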