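import Pool.Agent.Helper96.MP.DefsB
import Pool.Agent.Helper96.MP.MAIN2

set_option autoImplicit false

namespace Pool.Agent.Helper96.MP

open Complex

theorem main3_prime (N : ℕ) (hN : 1 ≤ N) : ∃ p : ℕ, p.Prime ∧ ¬ p ∣ N ∧
    ∀ q : ℕ, q.Prime → q < p → q ∣ N := by
  classical
  have hex : ∃ p : ℕ, p.Prime ∧ ¬ p ∣ N := by
    obtain ⟨p, hp1, hp2⟩ := Nat.exists_infinite_primes (N + 1)
    exact ⟨p, hp2, fun h => by
      have := Nat.le_of_dvd (by omega) h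
      omega⟩
  refine ⟨Nat.find hex, (Nat.find_spec hex).1, (Nat.find_spec hex).2, ?_⟩
  intro q hq hlt
  by_contra h
  exact Nat.find_min hex hlt ⟨hq, h⟩

theorem main3_const (C0 x : ℝ) (ψ : ℝ) (hψ : 1 ≤ ψ) (hx : 0 ≤ x) :
    2 * ((1 + Real.logb 2 (1 + x)) * Real.exp (C0 * ψ)) ≤
      (1 + Real.log (1 + x)) * Real.exp ((C0 + 2) * ψ) := by
  have hlog : 0 ≤ Real.log (1 + x) := Real.log_nonneg (by linarith)
  have hl2 : (2 / 3 : ℝ) ≤ Real.log 2 := by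
    have := Real.log_two_gt_d9; linarith
  have hlb : Real.logb 2 (1 + x) ≤ 3 / 2 * Real.log (1 + x) := by
    unfold Real.logb
    rw [div_le_iff₀ (by linarith)]
    nlinarith
  have hexp : (3 : ℝ) ≤ Real.exp (2 * ψ) := by
    have h4 : 2 * ψ + 1 ≤ Real.exp (2 * ψ) := Real.add_one_le_exp _
    linarith
  have hsplit : Real.exp ((C0 + 2) * ψ) = Real.exp (C0 * ψ) * Real.exp (2 * ψ) := by
    rw [← Real.exp_add]; ring_nf
  rw [hsplit]
  set X := Real.exp (C0 * ψ) with hX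
  set Y := Real.exp (2 * ψ) with hY
  have hX0 : 0 < X := Real.exp_pos _
  set t := Real.log (1 + x) with ht
  have h5 : 2 * (1 + Real.logb 2 (1 + x)) ≤ 3 * (1 + t) := by linarith
  calc 2 * ((1 + Real.logb 2 (1 + x)) * X)
      = (2 * (1 + Real.logb 2 (1 + x))) * X := by ring
    _ ≤ (3 * (1 + t)) * X := mul_le_mul_of_nonneg_right h5 hX0.le
    _ = (1 + t) * (X * 3) := by ring
    _ ≤ (1 + t) * (X * Y) := by
        apply mul_le_mul_of_nonneg_left _ (by linarith)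
        exact mul_le_mul_of_nonneg_left hexp hX0.le

theorem main3_VSp_mul (N : ℕ) (S : Finset ℕ) (κ : ℝ) (u w : PN N → ℝ) (hu : VSp N S u)
    (hw : ∀ x, w x = κ * u x) : VSp N S w := by
  intro q hq hqN h y
  have h1 := hu q hq hqN h y
  have h2 : (fun x : {x : PN N // pnf_red (N / q) h x = y} => w x.1) =
      fun x : {x : PN N // pnf_red (N / q) h x = y} => κ * u x.1 := by
    funext x
    exact hw x.1
  rw [h2, ← mul_finsum (fun x : {x : PN N // pnf_red (N / q) h x = y} => u x.1) κ, h1, mul_zero]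

theorem st_MAIN3 (hVF : ST_VF) (hDIMO : ST_DIMO) (hTOT3 : ST_TOT3) (hFAREY : ST_FAREY)
    (hFPATH : ST_FPATH) (hCONN : ST_CONN) (hFLIM : ST_FLIM) (hSTRICT : ST_STRICT)
    (hTRN : ST_TRN) : ST_MAIN3 := by
  obtain ⟨C0, hC0pos, hC0⟩ := hTOT3
  refine ⟨C0 + 2, by linarith, ?_⟩
  intro N a hN hnf p1 r1 p2 r2 q1 s1 q2 s2 Ω₁ Ω₂ hg1 hg2 hΩ1 hΩ2 hΩ1im hΩ1re hΩ2im hΩ2re
    hΩ2lt p q r s hg m n hmn
  obtain ⟨ℓ, hℓ, hℓN, hall⟩ := main3_prime N hN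
  have habs : ∀ l : ℕ, l.Prime → ¬ l ∣ N → |a l| ≤ l + 1 :=
    fun l hl hlN => (main2_abs hSTRICT N a hN hnf l hl hlN).le
  have hne : (a ℓ) ^ 2 ≠ ((ℓ : ℤ) + 1) ^ 2 := by
    have h1 := main2_abs hSTRICT N a hN hnf ℓ hℓ hℓN
    have h2 : |a ℓ| < |(ℓ : ℤ) + 1| := by
      rwa [abs_of_nonneg (by positivity : (0 : ℤ) ≤ (ℓ : ℤ) + 1)]
    exact ne_of_lt (sq_lt_sq.mpr h2)
  obtain ⟨v, hv, hvre, hvim⟩ := hVF N a hN hnf
  obtain ⟨hline1, hline2⟩ := hDIMO N a v hN hnf hv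
  obtain ⟨htr1, htr2⟩ := hTRN N a v hN hnf hv (Nat.primesBelow ℓ)
    (fun q hq => Nat.prime_of_mem_primesBelow hq)
  have hVS : ∀ ε : ℤ, (ε = 1 ∨ ε = -1) → ∀ w, Eall N a ε w → VSp N (Nat.primesBelow ℓ) w := by
    rintro ε (rfl | rfl) w hw
    · obtain ⟨κ, hκ⟩ := hline1 w (by simpa using hw)
      exact main3_VSp_mul N _ κ _ w htr1 hκ
    · obtain ⟨κ, hκ⟩ := hline2 w (by simpa using hw)
      exact main3_VSp_mul N _ κ _ w htr2 hκ
  have hcore := main2_core hVF hDIMO hFAREY hFPATH hCONN hFLIM N a hN hnf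
    (Real.exp (C0 * psi N)) (Real.exp_pos _).le
    (fun ε hε E hE hfin => hC0 N ℓ a ε hN hℓ hℓN hall hε habs hne E hE hfin
      (fun w hw => hVS ε hε w ((hE w).1 hw)))
    p1 r1 p2 r2 q1 s1 q2 s2 Ω₁ Ω₂ hg1 hg2 hΩ1 hΩ2 hΩ1im hΩ1re hΩ2im hΩ2re hΩ2lt p q r s hg m n hmn
  have hc := main3_const C0 |(r : ℝ)| (psi N) (main_psi_one N hN) (abs_nonneg _)
  have hpos : 0 ≤ (1 + Real.logb 2 (1 + |(r : ℝ)|)) * Real.exp (C0 * psi N) := by
    have : 0 ≤ Real.logb 2 (1 + |(r : ℝ)|) :=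
      Real.logb_nonneg (by norm_num) (by linarith [abs_nonneg (r : ℝ)])
    positivity
  exact ⟨hcore.1.trans hc, (hcore.2.trans (by linarith)).trans hc⟩

end Pool.Agent.Helper96.MP
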