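import Pool.Agent.Helper96.MP.DefsB
import Pool.Agent.Helper96.MP.TOT2

set_option autoImplicit false

namespace Pool.Agent.Helper96.MP

open Complex MeasureTheory Filter Topology

/-- the space of functions with vanishing fibre sums -/
noncomputable def tot3_V (N : ℕ) (hfin : Finite (PN N)) (S : Finset ℕ) :
    Submodule ℝ (PN N → ℝ) where
  carrier := {g | VSp N S g}
  add_mem' := by
    intro g g' hg hg' q hq hqN h y
    have h1 := hg q hq hqN h y
    have h2 := hg' q hq hqN h y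
    have : Finite {x : PN N // pnf_red (N / q) h x = y} := inferInstance
    simp only [Pi.add_apply]
    rw [finsum_add_distrib (Set.toFinite _) (Set.toFinite _), h1, h2, add_zero]
  zero_mem' := by
    intro q hq hqN h y
    simp
  smul_mem' := by
    intro c g hg q hq hqN h y
    have h1 := hg q hq hqN h y
    have : Finite {x : PN N // pnf_red (N / q) h x = y} := inferInstance
    simp only [Pi.smul_apply, smul_eq_mul]
    rw [← mul_finsum (fun x : {x : PN N // pnf_red (N / q) h x = y} => g x.1) c, h1, mul_zero]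

theorem tot3_mem (N : ℕ) (hfin : Finite (PN N)) (S : Finset ℕ) (g : PN N → ℝ) :
    g ∈ tot3_V N hfin S ↔ VSp N S g := Iff.rfl

/-- solutions of the first `j` blocks in `V` -/
def tot3_ker {P : Type} [Fintype P] (V : Submodule ℝ (P → ℝ)) (Rw : ℕ → Set (P → ℤ)) (j : ℕ) :
    Submodule ℝ (P → ℝ) := V ⊓ tot_ker Rw j

theorem tot3_mem_ker {P : Type} [Fintype P] (V : Submodule ℝ (P → ℝ)) (Rw : ℕ → Set (P → ℤ))
    (j : ℕ) (v : P → ℝ) : v ∈ tot3_ker V Rw j ↔
      v ∈ V ∧ ∀ i, i < j → ∀ r ∈ Rw i, ∑ x, (r x : ℝ) * v x = 0 := Iff.rfl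

theorem tot3_LB_finrank {P : Type} [Fintype P] (V : Submodule ℝ (P → ℝ)) (r : ℕ) (D : ℝ)
    (h : LB P V r D) : Module.finrank ℝ V = r := by
  obtain ⟨ι, h1, h2, b, hcard, hli, hspan, _⟩ := h
  rw [← hspan, finrank_span_eq_card hli, hcard]

theorem tot3_omega (N : ℕ) (hN : 1 ≤ N) :
    (N.primeFactors.card : ℝ) + 1 ≤ 3 * Real.log ((N : ℝ) + 2) := by
  have h1 : 2 ^ N.primeFactors.card ≤ N := by
    calc 2 ^ N.primeFactors.card = ∏ q ∈ N.primeFactors, 2 := by simp
      _ ≤ ∏ q ∈ N.primeFactors, q :=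
          Finset.prod_le_prod' fun q hq => (Nat.prime_of_mem_primeFactors hq).two_le
      _ ≤ N := Nat.le_of_dvd (by omega) (Nat.prod_primeFactors_dvd N)
  have hN1 : (1 : ℝ) ≤ N := by exact_mod_cast hN
  have h2 : (N.primeFactors.card : ℝ) * Real.log 2 ≤ Real.log N := by
    have h3 : ((2 : ℝ)) ^ N.primeFactors.card ≤ N := by exact_mod_cast h1
    have h4 := Real.log_le_log (by positivity) h3
    rwa [Real.log_pow] at h4
  have h5 : (2 / 3 : ℝ) ≤ Real.log 2 := by
    have := Real.log_two_gt_d9; linarith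
  have h6 : Real.log N ≤ Real.log ((N : ℝ) + 2) := Real.log_le_log (by linarith) (by linarith)
  have h7 : (1 : ℝ) ≤ Real.log ((N : ℝ) + 2) := by
    have h8 : Real.exp 1 ≤ (N : ℝ) + 2 := by
      have := Real.exp_one_lt_d9
      linarith
    have h9 := Real.log_le_log (Real.exp_pos 1) h8
    rwa [Real.log_exp] at h9
  have h8 : (0 : ℝ) ≤ (N.primeFactors.card : ℝ) := Nat.cast_nonneg _
  nlinarith

theorem tot3_L1 (N : ℕ) (hN : 1 ≤ N) : (1 : ℝ) ≤ Real.log ((N : ℝ) + 2) := by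
  have hN1 : (1 : ℝ) ≤ N := by exact_mod_cast hN
  have h8 : Real.exp 1 ≤ (N : ℝ) + 2 := by
    have := Real.exp_one_lt_d9
    linarith
  have h9 := Real.log_le_log (Real.exp_pos 1) h8
  rwa [Real.log_exp] at h9

theorem tot3_logsq (L : ℝ) (hL : 1 ≤ L) : 1 + Real.log L ≤ 2 * Real.sqrt L := by
  have h0 : 0 < Real.sqrt L := Real.sqrt_pos.2 (by linarith)
  have h1 := Real.log_le_sub_one_of_pos h0
  have h2 : Real.log L = 2 * Real.log (Real.sqrt L) := by
    rw [Real.log_sqrt (by linarith)]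
    ring
  rw [h2]
  linarith

/-- the least prime not dividing `N` is small -/
theorem tot3_logp (hCH : ST_CHEB) : ∃ C : ℝ, 0 < C ∧ ∀ N p : ℕ, 1 ≤ N → p.Prime →
    (∀ q : ℕ, q.Prime → q < p → q ∣ N) →
    Real.log p ≤ C * (1 + Real.log (Real.log ((N : ℝ) + 2))) := by
  obtain ⟨c, hc, hch⟩ := hCH
  set A : ℝ := max 1 (6 / c) with hA
  have hA1 : 1 ≤ A := le_max_left _ _
  have hAc : 6 / c ≤ A := le_max_right _ _
  have hlA : 0 ≤ Real.log A := Real.log_nonneg hA1
  refine ⟨2 * Real.log A + 2, by positivity, ?_⟩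
  intro N p hN hp hall
  set L : ℝ := Real.log ((N : ℝ) + 2) with hL
  have hL1 : 1 ≤ L := tot3_L1 N hN
  have hlL : 0 ≤ Real.log L := Real.log_nonneg hL1
  have hl2 : 0 < Real.log 2 := Real.log_pos (by norm_num)
  have hl2' : Real.log 2 ≤ 1 := by
    have := Real.log_two_lt_d9
    linarith
  by_cases h2 : p = 2
  · rw [h2]
    push_cast
    nlinarith
  have hp3 : 2 < p := lt_of_le_of_ne hp.two_le (Ne.symm h2)
  set i : ℕ := Nat.log 2 (p - 1) with hi
  have hi1 : 1 ≤ i := by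
    rw [hi]
    exact Nat.log_pos (by norm_num) (by omega)
  have hi2 : 2 ^ i ≤ p - 1 := Nat.pow_log_le_self 2 (by omega)
  have hi3 : p - 1 < 2 ^ (i + 1) := Nat.lt_pow_succ_log_self (by norm_num) _
  have hpi : (Nat.primeCounting (2 ^ i) : ℝ) ≤ 3 * L := by
    have h3 : Nat.primeCounting (2 ^ i) ≤ N.primeFactors.card := by
      rw [Nat.primeCounting, Nat.primeCounting', Nat.count_eq_card_filter_range]
      refine Finset.card_le_card ?_
      intro q hq
      rw [Finset.mem_filter, Finset.mem_range] at hq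
      rw [Nat.mem_primeFactors]
      exact ⟨hq.2, hall q hq.2 (by omega), by omega⟩
    have h4 := tot3_omega N hN
    have h5 : (Nat.primeCounting (2 ^ i) : ℝ) ≤ (N.primeFactors.card : ℝ) := by exact_mod_cast h3
    linarith
  have h6 := hch i hi1
  have hi0 : (0 : ℝ) < i := by exact_mod_cast hi1
  have h7 : c * 2 ^ i ≤ 3 * L * i := by
    rw [div_le_iff₀ hi0] at h6
    exact h6.trans (mul_le_mul_of_nonneg_right hpi hi0.le)
  -- `i ≤ 2 * 2 ^ (i / 2)`
  have h8 : (i : ℝ) ≤ 2 * Real.sqrt (2 ^ i) := by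
    have h9 : ∀ k : ℕ, k ^ 2 ≤ 4 * 2 ^ k := by
      intro k
      induction k with
      | zero => norm_num
      | succ k ih =>
        rcases Nat.lt_or_ge k 3 with h | h
        · interval_cases k <;> norm_num
        · have : (k + 1) ^ 2 ≤ 2 * k ^ 2 := by nlinarith
          calc (k + 1) ^ 2 ≤ 2 * k ^ 2 := this
            _ ≤ 2 * (4 * 2 ^ k) := Nat.mul_le_mul_left 2 ih
            _ = 4 * 2 ^ (k + 1) := by ring
    have h10 : (i : ℝ) ^ 2 ≤ 4 * 2 ^ i := by exact_mod_cast h9 i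
    have h11 : (i : ℝ) ≤ Real.sqrt (4 * 2 ^ i) := Real.le_sqrt_of_sq_le h10
    have h12 : Real.sqrt (4 * 2 ^ i) = 2 * Real.sqrt (2 ^ i) := by
      rw [Real.sqrt_mul (by norm_num)]
      have : Real.sqrt 4 = 2 := by
        rw [show (4 : ℝ) = 2 ^ 2 by norm_num, Real.sqrt_sq (by norm_num)]
      rw [this]
    rwa [h12] at h11
  have h13 : Real.sqrt (2 ^ i) ≤ A * L := by
    have hs : 0 < Real.sqrt (2 ^ i) := Real.sqrt_pos.2 (by positivity)
    have hss : Real.sqrt (2 ^ i) * Real.sqrt (2 ^ i) = 2 ^ i := Real.mul_self_sqrt (by positivity)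
    have h14 : c * (Real.sqrt (2 ^ i) * Real.sqrt (2 ^ i)) ≤ (6 * L) * Real.sqrt (2 ^ i) := by
      rw [hss]
      calc c * 2 ^ i ≤ 3 * L * i := h7
        _ ≤ 3 * L * (2 * Real.sqrt (2 ^ i)) := mul_le_mul_of_nonneg_left h8 (by positivity)
        _ = (6 * L) * Real.sqrt (2 ^ i) := by ring
    have h15 : c * Real.sqrt (2 ^ i) ≤ 6 * L := by
      have h16 : (c * Real.sqrt (2 ^ i)) * Real.sqrt (2 ^ i) ≤ (6 * L) * Real.sqrt (2 ^ i) := by
        linarith
      exact le_of_mul_le_mul_right h16 hs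
    have h17 : Real.sqrt (2 ^ i) ≤ 6 / c * L := by
      rw [div_mul_eq_mul_div, le_div_iff₀ hc]
      linarith
    exact h17.trans (mul_le_mul_of_nonneg_right hAc (by linarith))
  have h18 : (i : ℝ) * Real.log 2 / 2 ≤ Real.log A + Real.log L := by
    rw [← Real.log_mul (by linarith) (by linarith)]
    have h19 : Real.log (Real.sqrt (2 ^ i)) = (i : ℝ) * Real.log 2 / 2 := by
      rw [Real.log_sqrt (by positivity), Real.log_pow]
    rw [← h19]
    exact Real.log_le_log (Real.sqrt_pos.2 (by positivity)) h13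
  have h20 : Real.log p ≤ ((i : ℝ) + 1) * Real.log 2 := by
    have h21 : p ≤ 2 ^ (i + 1) := by omega
    have h22 : (p : ℝ) ≤ 2 ^ (i + 1) := by exact_mod_cast h21
    have h23 := Real.log_le_log (by exact_mod_cast hp.pos) h22
    rw [Real.log_pow] at h23
    push_cast at h23
    exact h23
  nlinarith

theorem tot3_R1_l1 {N : ℕ} [Fintype (PN N)] (a : ℕ → ℤ)
    (ha : ∀ l : ℕ, l.Prime → ¬ l ∣ N → |a l| ≤ l + 1) (j : ℕ) (hj : 1 ≤ j) :
    ∀ r ∈ tot_R1 N a (2 ^ j), tot_l1 r ≤ ((2 : ℝ) ^ j) ^ 16 := by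
  rintro r ⟨l, hl, hlN, hlX, hl6, c, d, hu, hr⟩
  have hl2 : (2 : ℝ) ≤ l := by exact_mod_cast hl.two_le
  set Y : ℝ := (2 : ℝ) ^ j with hY
  have hY2 : 2 ≤ Y := by
    rw [hY]
    calc (2 : ℝ) = 2 ^ 1 := by norm_num
      _ ≤ 2 ^ j := pow_le_pow_right₀ (by norm_num) hj
  have hlj : (l : ℝ) ≤ Y := by
    rw [hY]
    exact_mod_cast hlX
  have haR : |(a l : ℝ)| ≤ l + 1 := by exact_mod_cast ha l hl hlN
  have hll : (l : ℝ) ^ 2 ≤ Y ^ 2 := by gcongr
  have hB : ((l : ℝ) ^ 2 + 1) ^ 4 ≤ Y ^ 12 := by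
    have h1 : (l : ℝ) ^ 2 + 1 ≤ Y ^ 3 := by nlinarith [sq_nonneg Y]
    calc ((l : ℝ) ^ 2 + 1) ^ 4 ≤ (Y ^ 3) ^ 4 := by gcongr
      _ = Y ^ 12 := by ring
  have hA : ((l : ℝ) + 1) ^ 4 ≤ ((l : ℝ) ^ 2 + 1) ^ 4 := by
    have : (l : ℝ) + 1 ≤ (l : ℝ) ^ 2 + 1 := by nlinarith
    gcongr
  have hC : 4 * (l : ℝ) ^ 2 ≤ 4 * Y ^ 12 := by
    have : Y ^ 2 ≤ Y ^ 12 := pow_le_pow_right₀ (by linarith) (by norm_num)
    linarith
  have hD : 5 * Y ^ 12 ≤ Y ^ 16 := by
    have h8 : (5 : ℝ) ≤ Y ^ 4 := by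
      have h9 : (2 : ℝ) ^ 4 ≤ Y ^ 4 := by gcongr
      linarith
    have h10 : Y ^ 16 = Y ^ 4 * Y ^ 12 := by ring
    rw [h10]
    exact mul_le_mul_of_nonneg_right h8 (by positivity)
  rcases hr with hr | hr
  · rw [hr]
    refine (tot_H_l1 _ _ _ _).trans ?_
    have h3 := tot2_Sn_card l
    have h4 : (l : ℝ) + 1 ≤ 4 * (l : ℝ) ^ 2 := by nlinarith
    linarith
  · rw [hr]
    refine (tot_H_l1 _ _ _ _).trans ?_
    have h3 := tot2_Sn_card (l ^ 2)
    push_cast at h3
    have h5 : |(((a l) ^ 2 - l : ℤ) : ℝ)| ≤ 4 * (l : ℝ) ^ 2 := by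
      push_cast
      have h6 : (a l : ℝ) ^ 2 ≤ ((l : ℝ) + 1) ^ 2 := by
        rw [← sq_abs]
        gcongr
      have h7 : 0 ≤ (a l : ℝ) ^ 2 := sq_nonneg _
      rw [abs_le]
      constructor <;> nlinarith
    linarith

theorem tot3_pow_exp (B : ℝ) (hB : 0 < B) (n : ℕ) (M : ℝ) (h : (n : ℝ) * Real.log B ≤ M) :
    B ^ n ≤ Real.exp M := by
  have h1 : B ^ n = Real.exp ((n : ℝ) * Real.log B) := by
    rw [Real.exp_nat_mul, Real.exp_log hB]
  rw [h1]
  exact Real.exp_le_exp.2 h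

theorem tot3_sqrt_exp (D : ℝ) (hD : 1 ≤ D) (M : ℝ) (h : Real.log D ≤ M) :
    Real.sqrt D ≤ Real.exp M := by
  have h0 : 0 ≤ Real.log D := Real.log_nonneg hD
  have h1 : D ≤ Real.exp M := by
    rw [← Real.exp_log (by linarith : 0 < D)]
    exact Real.exp_le_exp.2 h
  have h2 : Real.sqrt D ≤ D := by
    rw [Real.sqrt_le_iff]
    constructor
    · linarith
    · nlinarith
  exact h2.trans h1

/-- two blocks -/
theorem tot3_two (hLA2 : ST_LA2) (N : ℕ) [Fintype (PN N)] (a : ℕ → ℤ) (ε : ℤ)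
    (hε : ε = 1 ∨ ε = -1) (ha : ∀ l : ℕ, l.Prime → ¬ l ∣ N → |a l| ≤ l + 1)
    (V E : Submodule ℝ (PN N → ℝ)) (hE : ∀ v, v ∈ E ↔ Eall N a ε v)
    (hfin : Module.finrank ℝ E = 1) (hEV : E ≤ V) (r : ℕ) (D : ℝ) (hLB : LB (PN N) V r D)
    (hD1 : 1 ≤ D) (M0 M1 M2 : ℝ) (hM0 : Real.log D ≤ M0) (hM1 : (r : ℝ) * Real.log 3 ≤ M1)
    (hM2 : (r : ℝ) * (60 * Real.log ((N : ℝ) + 2)) ≤ M2) :
    ∃ v : PN N → ℤ, v ≠ 0 ∧ (fun x => (v x : ℝ)) ∈ E ∧
      ∀ x, |(v x : ℝ)| ≤ Real.exp (M0 + M1 + M2) := by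
  have hN0 : (0 : ℝ) ≤ N := Nat.cast_nonneg N
  set Rw : ℕ → Set (PN N → ℤ) := fun j =>
    if j = 0 then tot_R0 N ε else tot_R1 N a (N ^ 6) with hRw
  have hRw0 : Rw 0 = tot_R0 N ε := if_pos rfl
  have hRw1 : Rw 1 = tot_R1 N a (N ^ 6) := by
    rw [hRw]
    simp
  set B : ℕ → ℝ := fun j => if j = 0 then 3 else ((N : ℝ) + 2) ^ 60 with hB
  have hB0 : B 0 = 3 := if_pos rfl
  have hB1 : B 1 = ((N : ℝ) + 2) ^ 60 := by
    rw [hB]
    simp
  have hEJ : tot3_ker V Rw 2 = E := by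
    ext v
    constructor
    · rintro ⟨_, hv⟩
      rw [hE]
      refine ⟨?_, fun l hl hlN hl6 => ?_⟩
      · rw [← tot_R0_iff]
        have h1 := hv 0 (by omega)
        rwa [hRw0] at h1
      · have h1 := hv 1 (by omega)
        rw [hRw1] at h1
        exact (tot_R1_iff a _ v).1 h1 l hl hlN hl6 hl6
    · intro hvE
      refine ⟨hEV hvE, ?_⟩
      rw [hE] at hvE
      obtain ⟨hv1, hv2⟩ := hvE
      intro i hi
      have hi3 : i = 0 ∨ i = 1 := by omega
      rcases hi3 with rfl | rfl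
      · rw [hRw0]
        exact (tot_R0_iff ε v).2 hv1
      · rw [hRw1]
        exact (tot_R1_iff a _ v).2 fun l hl hlN _ hl6 => hv2 l hl hlN hl6
  obtain ⟨v, hv0, hvE, hvb⟩ := hLA2 (PN N) V r D hLB 2 Rw B (tot3_ker V Rw)
    (by
      intro j
      rw [hB]
      dsimp only
      split_ifs
      · norm_num
      · exact one_le_pow₀ (by linarith))
    (by
      intro j w hw
      rw [hRw] at hw
      rw [hB]
      dsimp only at hw ⊢
      split_ifs at hw ⊢ with h0
      · exact tot_R0_l1 ε hε w hw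
      · exact tot2_R1_l1 a ha _ w hw)
    (fun j v => tot3_mem_ker V Rw j v) (by rw [hEJ]; exact hfin)
  refine ⟨v, hv0, by rw [← hEJ]; exact hvE, fun x => (hvb x).trans ?_⟩
  rw [Finset.prod_range_succ, Finset.prod_range_succ, Finset.prod_range_zero, one_mul, hB0, hB1]
  set dm : ℕ → ℕ := fun j => Module.finrank ℝ (tot3_ker V Rw j) with hdm
  have hdle : ∀ j, dm j ≤ r := by
    intro j
    rw [← tot3_LB_finrank V r D hLB]
    exact Submodule.finrank_mono inf_le_left
  have e0 : (3 : ℝ) ^ (dm 0 - dm 1) ≤ Real.exp M1 := by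
    refine tot3_pow_exp 3 (by norm_num) _ _ (le_trans ?_ hM1)
    refine mul_le_mul_of_nonneg_right ?_ (Real.log_nonneg (by norm_num))
    exact_mod_cast (Nat.sub_le _ _).trans (hdle 0)
  have e1 : (((N : ℝ) + 2) ^ 60) ^ (dm 1 - dm 2) ≤ Real.exp M2 := by
    refine tot3_pow_exp _ (by positivity) _ _ (le_trans ?_ hM2)
    rw [Real.log_pow]
    push_cast
    refine mul_le_mul_of_nonneg_right ?_ ?_
    · exact_mod_cast (Nat.sub_le _ _).trans (hdle 1)
    · have := Real.log_nonneg (by linarith : (1 : ℝ) ≤ (N : ℝ) + 2)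
      positivity
  have eD := tot3_sqrt_exp D hD1 M0 hM0
  calc Real.sqrt D * ((3 : ℝ) ^ (dm 0 - dm 1) * (((N : ℝ) + 2) ^ 60) ^ (dm 1 - dm 2))
      ≤ Real.exp M0 * (Real.exp M1 * Real.exp M2) := by
        gcongr
    _ = Real.exp (M0 + M1 + M2) := by
        rw [← Real.exp_add, ← Real.exp_add, add_assoc]

/-- four blocks -/
theorem tot3_four (hLA2 : ST_LA2) (N p : ℕ) [Fintype (PN N)] (a : ℕ → ℤ) (ε : ℤ) (j : ℕ)
    (hj : 1 ≤ j) (hp : p.Prime) (hpN : ¬ p ∣ N) (hp6 : p ≤ N ^ 6)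
    (hε : ε = 1 ∨ ε = -1) (ha : ∀ l : ℕ, l.Prime → ¬ l ∣ N → |a l| ≤ l + 1)
    (V E : Submodule ℝ (PN N → ℝ)) (hE : ∀ v, v ∈ E ↔ Eall N a ε v)
    (hfin : Module.finrank ℝ E = 1) (hEV : E ≤ V) (r : ℕ) (D : ℝ) (hLB : LB (PN N) V r D)
    (hD1 : 1 ≤ D) (M0 M1 M2 M3 M4 X2 X3 : ℝ) (hM0 : Real.log D ≤ M0)
    (hM1 : (r : ℝ) * Real.log 3 ≤ M1) (hM2 : (r : ℝ) * (9 * Real.log p) ≤ M2)
    (hX2 : ∀ F : Submodule ℝ (PN N → ℝ), (∀ v ∈ F, Rel N ε v ∧ HRow N p (a p) v) →
      (Module.finrank ℝ F : ℝ) ≤ X2)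
    (hX3 : ∀ F : Submodule ℝ (PN N → ℝ), (∀ v ∈ F, ∀ l : ℕ, l.Prime → ¬ l ∣ N → l ≤ 2 ^ j →
      l ≤ N ^ 6 → HRow N l (a l) v ∧ HRow N (l ^ 2) ((a l : ℝ) ^ 2 - l) v) →
      (Module.finrank ℝ F : ℝ) ≤ X3)
    (hM3 : X2 * (16 * ((j : ℝ) * Real.log 2)) ≤ M3)
    (hM4 : X3 * (60 * Real.log ((N : ℝ) + 2)) ≤ M4) :
    ∃ v : PN N → ℤ, v ≠ 0 ∧ (fun x => (v x : ℝ)) ∈ E ∧
      ∀ x, |(v x : ℝ)| ≤ Real.exp (M0 + M1 + M2 + M3 + M4) := by
  have hN0 : (0 : ℝ) ≤ N := Nat.cast_nonneg N
  have hp2 : (2 : ℝ) ≤ p := by exact_mod_cast hp.two_le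
  set Rw : ℕ → Set (PN N → ℤ) := fun i =>
    if i = 0 then tot_R0 N ε else if i = 1 then tot2_R N p (a p) else
      if i = 2 then tot_R1 N a (2 ^ j) else tot_R1 N a (N ^ 6) with hRw
  have hRw0 : Rw 0 = tot_R0 N ε := if_pos rfl
  have hRw1 : Rw 1 = tot2_R N p (a p) := by
    rw [hRw]
    simp
  have hRw2 : Rw 2 = tot_R1 N a (2 ^ j) := by
    rw [hRw]
    simp
  have hRw3 : Rw 3 = tot_R1 N a (N ^ 6) := by
    rw [hRw]
    simp
  set B : ℕ → ℝ := fun i => if i = 0 then 3 else if i = 1 then (p : ℝ) ^ 9 else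
    if i = 2 then ((2 : ℝ) ^ j) ^ 16 else ((N : ℝ) + 2) ^ 60 with hB
  have hB0 : B 0 = 3 := if_pos rfl
  have hB1 : B 1 = (p : ℝ) ^ 9 := by
    rw [hB]
    simp
  have hB2 : B 2 = ((2 : ℝ) ^ j) ^ 16 := by
    rw [hB]
    simp
  have hB3 : B 3 = ((N : ℝ) + 2) ^ 60 := by
    rw [hB]
    simp
  have hEJ : tot3_ker V Rw 4 = E := by
    ext v
    constructor
    · rintro ⟨_, hv⟩
      rw [hE]
      refine ⟨?_, fun l hl hlN hl6 => ?_⟩
      · rw [← tot_R0_iff]
        have h1 := hv 0 (by omega)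
        rwa [hRw0] at h1
      · have h1 := hv 3 (by omega)
        rw [hRw3] at h1
        exact (tot_R1_iff a _ v).1 h1 l hl hlN hl6 hl6
    · intro hvE
      refine ⟨hEV hvE, ?_⟩
      rw [hE] at hvE
      obtain ⟨hv1, hv2⟩ := hvE
      intro i hi
      have hi3 : i = 0 ∨ i = 1 ∨ i = 2 ∨ i = 3 := by omega
      rcases hi3 with rfl | rfl | rfl | rfl
      · rw [hRw0]
        exact (tot_R0_iff ε v).2 hv1
      · rw [hRw1]
        exact (tot2_R_iff p (a p) v).2 (hv2 p hp hpN hp6).1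
      · rw [hRw2]
        exact (tot_R1_iff a _ v).2 fun l hl hlN _ hl6 => hv2 l hl hlN hl6
      · rw [hRw3]
        exact (tot_R1_iff a _ v).2 fun l hl hlN _ hl6 => hv2 l hl hlN hl6
  obtain ⟨v, hv0, hvE, hvb⟩ := hLA2 (PN N) V r D hLB 4 Rw B (tot3_ker V Rw)
    (by
      intro i
      rw [hB]
      dsimp only
      split_ifs
      · norm_num
      · exact one_le_pow₀ (by linarith)
      · exact one_le_pow₀ (one_le_pow₀ (by norm_num))
      · exact one_le_pow₀ (by linarith))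
    (by
      intro i w hw
      rw [hRw] at hw
      rw [hB]
      dsimp only at hw ⊢
      split_ifs at hw ⊢ with h0 h1 h2
      · exact tot_R0_l1 ε hε w hw
      · exact tot2_R_l1 p hp.two_le (a p) (ha p hp hpN) w hw
      · exact tot3_R1_l1 a ha j hj w hw
      · exact tot2_R1_l1 a ha _ w hw)
    (fun i v => tot3_mem_ker V Rw i v) (by rw [hEJ]; exact hfin)
  refine ⟨v, hv0, by rw [← hEJ]; exact hvE, fun x => (hvb x).trans ?_⟩
  rw [Finset.prod_range_succ, Finset.prod_range_succ, Finset.prod_range_succ,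
    Finset.prod_range_succ, Finset.prod_range_zero, one_mul, hB0, hB1, hB2, hB3]
  set dm : ℕ → ℕ := fun i => Module.finrank ℝ (tot3_ker V Rw i) with hdm
  have hdle : ∀ i, dm i ≤ r := by
    intro i
    rw [← tot3_LB_finrank V r D hLB]
    exact Submodule.finrank_mono inf_le_left
  have hd2 : (dm 2 : ℝ) ≤ X2 := by
    refine hX2 _ ?_
    rintro v ⟨_, hv⟩
    have h0 := hv 0 (by omega)
    have h1 := hv 1 (by omega)
    rw [hRw0] at h0
    rw [hRw1] at h1
    exact ⟨(tot_R0_iff ε v).1 h0, (tot2_R_iff p (a p) v).1 h1⟩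
  have hd3 : (dm 3 : ℝ) ≤ X3 := by
    refine hX3 _ ?_
    rintro v ⟨_, hv⟩
    have h2 := hv 2 (by omega)
    rw [hRw2] at h2
    exact (tot_R1_iff a _ v).1 h2
  have e0 : (3 : ℝ) ^ (dm 0 - dm 1) ≤ Real.exp M1 := by
    refine tot3_pow_exp 3 (by norm_num) _ _ (le_trans ?_ hM1)
    refine mul_le_mul_of_nonneg_right ?_ (Real.log_nonneg (by norm_num))
    exact_mod_cast (Nat.sub_le _ _).trans (hdle 0)
  have e1 : ((p : ℝ) ^ 9) ^ (dm 1 - dm 2) ≤ Real.exp M2 := by
    refine tot3_pow_exp _ (by positivity) _ _ (le_trans ?_ hM2)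
    rw [Real.log_pow]
    push_cast
    refine mul_le_mul_of_nonneg_right ?_ ?_
    · exact_mod_cast (Nat.sub_le _ _).trans (hdle 1)
    · have := Real.log_nonneg (by linarith : (1 : ℝ) ≤ (p : ℝ))
      positivity
  have e2 : (((2 : ℝ) ^ j) ^ 16) ^ (dm 2 - dm 3) ≤ Real.exp M3 := by
    refine tot3_pow_exp _ (by positivity) _ _ (le_trans ?_ hM3)
    rw [Real.log_pow, Real.log_pow]
    push_cast
    refine mul_le_mul_of_nonneg_right ?_ ?_
    · refine le_trans ?_ hd2
      exact_mod_cast Nat.sub_le _ _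
    · have := Real.log_nonneg (by norm_num : (1 : ℝ) ≤ 2)
      positivity
  have e3 : (((N : ℝ) + 2) ^ 60) ^ (dm 3 - dm 4) ≤ Real.exp M4 := by
    refine tot3_pow_exp _ (by positivity) _ _ (le_trans ?_ hM4)
    rw [Real.log_pow]
    push_cast
    refine mul_le_mul_of_nonneg_right ?_ ?_
    · refine le_trans ?_ hd3
      exact_mod_cast Nat.sub_le _ _
    · have := Real.log_nonneg (by linarith : (1 : ℝ) ≤ (N : ℝ) + 2)
      positivity
  have eD := tot3_sqrt_exp D hD1 M0 hM0
  calc Real.sqrt D * ((3 : ℝ) ^ (dm 0 - dm 1) * ((p : ℝ) ^ 9) ^ (dm 1 - dm 2) *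
        (((2 : ℝ) ^ j) ^ 16) ^ (dm 2 - dm 3) * (((N : ℝ) + 2) ^ 60) ^ (dm 3 - dm 4))
      ≤ Real.exp M0 * (Real.exp M1 * Real.exp M2 * Real.exp M3 * Real.exp M4) := by
        gcongr
    _ = Real.exp (M0 + M1 + M2 + M3 + M4) := by
        rw [← Real.exp_add, ← Real.exp_add, ← Real.exp_add, ← Real.exp_add]
        congr 1
        ring

theorem st_TOT3 (hLA2 : ST_LA2) (hCOVB : ST_COVB) (hPNF : ST_PNF) (hTRF : ST_TRF)
    (hAMPD : ST_AMPD) (hDIMB : ST_DIMB) (hCHEB : ST_CHEB) : ST_TOT3 := by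
  obtain ⟨Cc, hCc, hcov⟩ := hCOVB
  obtain ⟨Ca, hCa, hampd⟩ := hAMPD
  obtain ⟨Cd', hCd', hdimb⟩ := hDIMB
  obtain ⟨Cp, hCp, hlogp⟩ := tot3_logp hCHEB
  set Cd : ℝ := max 1 Cd' with hCd
  have hCd1 : 1 ≤ Cd := le_max_left _ _
  have hCdle : Cd' ≤ Cd := le_max_right _ _
  have hl2 : 0 < Real.log 2 := Real.log_pos (by norm_num)
  have hl2a : (2 / 3 : ℝ) ≤ Real.log 2 := by
    have := Real.log_two_gt_d9; linarith
  have hl2b : Real.log 2 ≤ 1 := by
    have := Real.log_two_lt_d9; linarith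
  -- `X = X0 * L ^ 4`
  set X0 : ℝ := 9 * Cd with hX0
  have hX01 : 1 ≤ X0 := by
    rw [hX0]
    linarith
  have hlX0 : 0 ≤ Real.log X0 := Real.log_nonneg hX01
  -- `j log 2 ≤ Cj (1 + log L)`
  set Cj : ℝ := Real.log X0 + 4 with hCj
  have hCj4 : 4 ≤ Cj := by
    rw [hCj]
    linarith
  set L0 : ℝ := (2 * (40 * Cj + 2)) ^ 2 with hL0
  set K : ℝ := Cc + 2 * Cc + 130 * Cc + (256 * Ca * Cp * Cj + 60 * Cd) + 60 * L0 with hK
  have hL0p : 0 ≤ L0 := by
    rw [hL0]
    positivity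
  refine ⟨K, by positivity, ?_⟩
  intro N p a ε hN hp hpN hall hε ha hap E hE hfin hEVS
  obtain ⟨hfinite, hNle, hcard⟩ := hPNF N hN
  have instF : Fintype (PN N) := Fintype.ofFinite (PN N)
  have hp2 : (2 : ℝ) ≤ p := by exact_mod_cast hp.two_le
  have hlp : 0 < Real.log p := Real.log_pos (by linarith)
  have hN1 : (1 : ℝ) ≤ N := by exact_mod_cast hN
  have hpsi0 : 0 ≤ psi N := (Nat.cast_nonneg _).trans hcard
  have hlog3 := tot2_log3 p hp.two_le
  have hlN1 : 0 < Real.log (N + 1) := Real.log_pos (by linarith)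
  set L : ℝ := Real.log ((N : ℝ) + 2) with hL
  have hL1 : 1 ≤ L := tot3_L1 N hN
  have hlL : 0 ≤ Real.log L := Real.log_nonneg hL1
  have hLN1 : L ≤ 2 * Real.log (N + 1) := by
    have h : Real.log ((N : ℝ) + 2) ≤ Real.log (((N : ℝ) + 1) ^ 2) :=
      Real.log_le_log (by linarith) (by nlinarith)
    rw [Real.log_pow] at h
    push_cast at h
    exact h
  obtain ⟨r, D, hLB, hD1, hr, hD⟩ := hcov N p hN hp hall (tot3_V N hfinite (Nat.primesBelow p))
    (fun g => Iff.rfl)
  have hEV : E ≤ tot3_V N hfinite (Nat.primesBelow p) := fun v hv => hEVS v hv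
  have hrψ : (r : ℝ) * Real.log p ≤ Cc * psi N :=
    hr.trans (mul_le_mul_of_nonneg_left hcard hCc.le)
  have hDψ : Real.log D ≤ Cc * psi N := hD.trans (mul_le_mul_of_nonneg_left hcard hCc.le)
  have hr0 : (0 : ℝ) ≤ r := Nat.cast_nonneg r
  have hrcard : (r : ℝ) ≤ psi N := by
    rw [← tot3_LB_finrank _ r D hLB]
    refine le_trans ?_ hcard
    have h1 : Module.finrank ℝ (tot3_V N hfinite (Nat.primesBelow p)) ≤
        Module.finrank ℝ (PN N → ℝ) := Submodule.finrank_le _
    rw [Module.finrank_fintype_fun_eq_card] at h1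
    rw [Nat.card_eq_fintype_card]
    exact_mod_cast h1
  have hM1 : (r : ℝ) * Real.log 3 ≤ 2 * Cc * psi N := by
    calc (r : ℝ) * Real.log 3 ≤ (r : ℝ) * (2 * Real.log p) := mul_le_mul_of_nonneg_left hlog3 hr0
      _ = 2 * ((r : ℝ) * Real.log p) := by ring
      _ ≤ 2 * (Cc * psi N) := by linarith
      _ = 2 * Cc * psi N := by ring
  have hfinal : ∀ M : ℝ, M ≤ K * psi N → ∀ v : PN N → ℤ, (∀ x, |(v x : ℝ)| ≤ Real.exp M) →
      ∀ x, |(v x : ℝ)| ≤ Real.exp (K * psi N) :=
    fun M hM v hv x => (hv x).trans (Real.exp_le_exp.2 hM)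
  have hCcψ : 0 ≤ Cc * psi N := by positivity
  have hCdψ : 0 ≤ Cd * psi N := by positivity
  have hL0ψ : 0 ≤ L0 * psi N := by positivity
  have hACψ : 0 ≤ Ca * Cp * Cj * psi N := by positivity
  by_cases hp6 : p ≤ N ^ 6
  · -- choice of `j`
    set X : ℝ := X0 * L ^ 4 with hX
    have hX1 : 1 ≤ X := by
      have : 1 ≤ L ^ 4 := one_le_pow₀ hL1
      rw [hX]
      nlinarith
    set j : ℕ := ⌈Real.logb 2 X⌉₊ + 1 with hj
    have hj1 : 1 ≤ j := by omega
    have hlogbX : 0 ≤ Real.logb 2 X := Real.logb_nonneg (by norm_num) hX1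
    have hjX : X ≤ 2 ^ j := by
      have h1 : Real.logb 2 X ≤ (j : ℝ) := by
        rw [hj]
        push_cast
        linarith [Nat.le_ceil (Real.logb 2 X)]
      have h2 := (Real.logb_le_iff_le_rpow (by norm_num) (by linarith)).1 h1
      rwa [Real.rpow_natCast] at h2
    have hjle : (j : ℝ) * Real.log 2 ≤ Cj * (1 + Real.log L) := by
      have h1 : (j : ℝ) ≤ Real.logb 2 X + 2 := by
        have h2 := (Nat.ceil_lt_add_one hlogbX).le
        rw [hj]
        push_cast
        linarith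
      have h3 : Real.logb 2 X * Real.log 2 = Real.log X := by
        unfold Real.logb
        field_simp
      have h4 : Real.log X = Real.log X0 + 4 * Real.log L := by
        rw [hX, Real.log_mul (by linarith) (by positivity), Real.log_pow]
        push_cast
        ring
      have h5 : (j : ℝ) * Real.log 2 ≤ (Real.logb 2 X + 2) * Real.log 2 :=
        mul_le_mul_of_nonneg_right h1 hl2.le
      rw [add_mul, h3, h4] at h5
      rw [hCj]
      nlinarith
    by_cases h4N : (4 : ℝ) ^ (20 * j) ≤ N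
    · obtain ⟨v, hv0, hvE, hvb⟩ := tot3_four hLA2 N p a ε j hj1 hp hpN hp6 hε ha _ E hE hfin hEV
        r D hLB hD1 (Cc * psi N) (2 * Cc * psi N) (9 * Cc * psi N)
        (256 * Ca * Cp * Cj * psi N) (60 * Cd * psi N)
        (2 * (Ca * psi N * Real.log p / Real.log (N + 1)))
        (Cd * psi N / L) hDψ hM1
        (by
          calc (r : ℝ) * (9 * Real.log p) = 9 * ((r : ℝ) * Real.log p) := by ring
            _ ≤ 9 * (Cc * psi N) := by linarith
            _ = 9 * Cc * psi N := by ring)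
        (by
          intro F hF
          have hαne : ((a p : ℤ) : ℝ) ^ 2 ≠ ((p : ℝ) + 1) ^ 2 := by
            intro h
            exact hap (by exact_mod_cast h)
          have h1 := hTRF N p (a p) hN hp hpN hαne (tot2_S N p (a p)) (fun b => Iff.rfl) F
            (fun v hv => ⟨(hF v hv).1.two, (hF v hv).1.three, (hF v hv).2⟩)
          have h2 := hampd N p (a p) hN hp hpN (tot2_S N p (a p)) (fun b => Iff.rfl)
          have h3 : (Module.finrank ℝ F : ℝ) ≤ 2 * (Module.finrank ℂ (tot2_S N p (a p)) : ℝ) := by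
            exact_mod_cast h1
          linarith)
        (by
          intro F hF
          have h2' : Cd' * ((N.primeFactors.card : ℝ) + 1) ^ 2 ≤ 2 ^ j := by
            have h1 := tot3_omega N hN
            have h0 : (0 : ℝ) ≤ (N.primeFactors.card : ℝ) + 1 := by positivity
            have h3 : ((N.primeFactors.card : ℝ) + 1) ^ 2 ≤ (3 * L) ^ 2 := by
              gcongr
            calc Cd' * ((N.primeFactors.card : ℝ) + 1) ^ 2 ≤ Cd * (3 * L) ^ 2 :=
                  mul_le_mul hCdle h3 (by positivity) (by linarith)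
              _ = X0 * L ^ 2 := by rw [hX0]; ring
              _ ≤ X0 * L ^ 4 := by
                  refine mul_le_mul_of_nonneg_left ?_ (by linarith)
                  exact pow_le_pow_right₀ hL1 (by norm_num)
              _ ≤ 2 ^ j := hjX
          have h5 := hdimb N j a F hN hj1 h4N h2' ha ?_
          · refine h5.trans ?_
            have h6 : (2 : ℝ) ^ (-(j : ℝ) / 4) ≤ 1 / L := by
              have h7 : (2 : ℝ) ^ (-(j : ℝ) / 4) = ((2 : ℝ) ^ j) ^ (-(1 : ℝ) / 4) := by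
                rw [← Real.rpow_natCast 2 j, ← Real.rpow_mul (by norm_num)]
                congr 1
                ring
              rw [h7]
              have h8 : L ^ 4 ≤ (2 : ℝ) ^ j := by
                refine le_trans ?_ hjX
                rw [hX]
                have : 0 ≤ L ^ 4 := by positivity
                nlinarith
              have h9 : ((2 : ℝ) ^ j) ^ (-(1 : ℝ) / 4) ≤ (L ^ 4) ^ (-(1 : ℝ) / 4) :=
                Real.rpow_le_rpow_of_nonpos (by positivity) h8 (by norm_num)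
              refine h9.trans (le_of_eq ?_)
              rw [← Real.rpow_natCast L 4, ← Real.rpow_mul (by linarith)]
              norm_num
              rw [Real.rpow_neg_one]
            calc Cd' * (Nat.card (PN N) : ℝ) * (2 : ℝ) ^ (-(j : ℝ) / 4)
                ≤ Cd * psi N * (1 / L) := by
                  refine mul_le_mul (mul_le_mul hCdle hcard (Nat.cast_nonneg _) (by linarith)) h6
                    (by positivity) (by positivity)
              _ = Cd * psi N / L := by ring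
          · intro v hv l hl hlN hlj
            refine hF v hv l hl hlN hlj ?_
            have h8 : 2 ^ j ≤ N := by
              have h9 : ((2 : ℝ)) ^ j ≤ N := by
                refine le_trans ?_ h4N
                calc (2 : ℝ) ^ j ≤ 4 ^ j := by gcongr; norm_num
                  _ ≤ 4 ^ (20 * j) := pow_le_pow_right₀ (by norm_num) (by omega)
              exact_mod_cast h9
            exact (hlj.trans h8).trans (Nat.le_self_pow (by norm_num) N))
        (by
          -- `log p * (j log 2) ≤ 4 Cp Cj L`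
          have h1 := hlogp N p hN hp hall
          have h2 := tot3_logsq L hL1
          have h3 : Real.log p * ((j : ℝ) * Real.log 2) ≤
              (Cp * (2 * Real.sqrt L)) * (Cj * (2 * Real.sqrt L)) := by
            refine mul_le_mul (h1.trans ?_) (hjle.trans ?_) (by positivity) (by positivity)
            · exact mul_le_mul_of_nonneg_left h2 hCp.le
            · exact mul_le_mul_of_nonneg_left h2 (by linarith)
          have h4 : Real.sqrt L * Real.sqrt L = L := Real.mul_self_sqrt (by linarith)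
          have h5 : Real.log p * ((j : ℝ) * Real.log 2) ≤ 8 * Cp * Cj * Real.log (N + 1) := by
            calc Real.log p * ((j : ℝ) * Real.log 2) ≤
                (Cp * (2 * Real.sqrt L)) * (Cj * (2 * Real.sqrt L)) := h3
              _ = 4 * Cp * Cj * (Real.sqrt L * Real.sqrt L) := by ring
              _ = 4 * Cp * Cj * L := by rw [h4]
              _ ≤ 4 * Cp * Cj * (2 * Real.log (N + 1)) :=
                  mul_le_mul_of_nonneg_left hLN1 (by positivity)
              _ = 8 * Cp * Cj * Real.log (N + 1) := by ring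
          have h6 : 0 ≤ 32 * Ca * psi N / Real.log (N + 1) := by positivity
          calc 2 * (Ca * psi N * Real.log p / Real.log (N + 1)) * (16 * ((j : ℝ) * Real.log 2))
              = 32 * Ca * psi N / Real.log (N + 1) * (Real.log p * ((j : ℝ) * Real.log 2)) := by
                ring
            _ ≤ 32 * Ca * psi N / Real.log (N + 1) * (8 * Cp * Cj * Real.log (N + 1)) :=
                mul_le_mul_of_nonneg_left h5 h6
            _ = 256 * Ca * Cp * Cj * psi N := by
                field_simp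
                ring)
        (by
          have hL0' : L ≠ 0 := by linarith
          calc Cd * psi N / L * (60 * Real.log ((N : ℝ) + 2)) = 60 * Cd * psi N := by
                rw [← hL]
                field_simp
            _ ≤ 60 * Cd * psi N := le_rfl)
      refine ⟨v, hv0, hvE, hfinal _ ?_ v hvb⟩
      rw [hK]
      nlinarith
    · -- `N` is bounded
      push Not at h4N
      have hLle : L ≤ L0 := by
        have h1 : Real.log N ≤ 40 * ((j : ℝ) * Real.log 2) := by
          have h2 := Real.log_le_log (by linarith) h4N.le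
          rw [Real.log_pow] at h2
          have h3 : Real.log 4 = 2 * Real.log 2 := by
            rw [show (4 : ℝ) = 2 ^ 2 by norm_num, Real.log_pow]
            push_cast
            ring
          rw [h3] at h2
          push_cast at h2
          linarith
        have h4 : L ≤ Real.log N + 2 := by
          have h5 : Real.log ((N : ℝ) + 2) ≤ Real.log ((N : ℝ) * 3) :=
            Real.log_le_log (by linarith) (by linarith)
          rw [Real.log_mul (by linarith) (by norm_num)] at h5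
          have h6 : Real.log 3 ≤ 2 := by
            have h7 := Real.log_le_sub_one_of_pos (by norm_num : (0 : ℝ) < 3)
            linarith
          linarith
        have h2 := tot3_logsq L hL1
        have h7 : L ≤ (40 * Cj + 2) * (1 + Real.log L) := by nlinarith
        have h8 : L ≤ (40 * Cj + 2) * (2 * Real.sqrt L) :=
          h7.trans (mul_le_mul_of_nonneg_left h2 (by linarith))
        have h9 : Real.sqrt L * Real.sqrt L = L := Real.mul_self_sqrt (by linarith)
        have h10 : 0 < Real.sqrt L := Real.sqrt_pos.2 (by linarith)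
        have h11 : Real.sqrt L ≤ 2 * (40 * Cj + 2) := by
          have h12 : Real.sqrt L * Real.sqrt L ≤ (2 * (40 * Cj + 2)) * Real.sqrt L := by
            rw [h9]
            linarith
          exact le_of_mul_le_mul_right h12 h10
        rw [hL0, ← Real.sqrt_le_left (by positivity)]
        exact h11
      obtain ⟨v, hv0, hvE, hvb⟩ := tot3_two hLA2 N a ε hε ha _ E hE hfin hEV r D hLB hD1
        (Cc * psi N) (2 * Cc * psi N) (60 * L0 * psi N) hDψ hM1
        (by
          calc (r : ℝ) * (60 * Real.log ((N : ℝ) + 2)) ≤ psi N * (60 * L0) := by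
                refine mul_le_mul hrcard ?_ ?_ hpsi0
                · rw [← hL]
                  linarith
                · rw [← hL]
                  linarith
            _ = 60 * L0 * psi N := by ring)
      refine ⟨v, hv0, hvE, hfinal _ ?_ v hvb⟩
      rw [hK]
      nlinarith
  · push Not at hp6
    have hlN : L ≤ 2 * Real.log p := by
      have h1 : (N : ℝ) + 1 ≤ p := by
        have h2 : N < p := (Nat.le_self_pow (by norm_num) N).trans_lt hp6
        exact_mod_cast h2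
      have h : Real.log ((N : ℝ) + 2) ≤ Real.log ((p : ℝ) ^ 2) :=
        Real.log_le_log (by linarith) (by nlinarith)
      rw [Real.log_pow] at h
      push_cast at h
      exact h
    obtain ⟨v, hv0, hvE, hvb⟩ := tot3_two hLA2 N a ε hε ha _ E hE hfin hEV r D hLB hD1
      (Cc * psi N) (2 * Cc * psi N) (120 * Cc * psi N) hDψ hM1
      (by
        calc (r : ℝ) * (60 * Real.log ((N : ℝ) + 2)) ≤ (r : ℝ) * (60 * (2 * Real.log p)) := by
              refine mul_le_mul_of_nonneg_left ?_ hr0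
              rw [← hL]
              linarith
          _ = 120 * ((r : ℝ) * Real.log p) := by ring
          _ ≤ 120 * (Cc * psi N) := by linarith
          _ = 120 * Cc * psi N := by ring)
    refine ⟨v, hv0, hvE, hfinal _ ?_ v hvb⟩
    rw [hK]
    nlinarith

end Pool.Agent.Helper96.MP
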