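import Pool.Agent.Helper96.MP.ALL
import Pool.Agent.Helper27.MP.ENT
import Pool.Agent.Helper91.MP.DIMB
import Pool.Agent.Helper18.MP.HS
import Pool.Agent.Helper45.MP.CHEB
import Pool.Agent.Helper53.MP.SCARD
import Pool.Agent.Helper96.MP.TOT3
import Pool.Agent.Helper96.MP.MAIN3
import Pool.Agent.Helper96.MP.FINAL3
import Pool.Agent.Helper45.MP.CBD
import Pool.Agent.Helper57.MP.COVB
import Pool.Agent.Helper45.MP.FIBC
import Pool.Agent.Helper35.MP.KEQ
import Pool.Agent.Helper11.MP.KPROD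
import Pool.Agent.Helper27.MP.KFIB
import Pool.Agent.Helper55.MP.KIND
import Pool.Agent.Helper58.MP.MERT
import Pool.Agent.Helper30.MP.LA2
import Pool.Agent.Helper53.MP.PRD
import Pool.Agent.Helper57.MP.RED
import Pool.Agent.Helper95.MP.TRN

set_option autoImplicit false

namespace Pool.Agent.Helper96.MP

theorem all_SCARD : ST_SCARD := Pool.Agent.Helper53.MP.st_SCARD st_DIVB
theorem all_DIMB : ST_DIMB := st_DIMB st_HS st_FIX all_SCARD st_CHEB st_DIVB st_PNF
theorem all_TRN : ST_TRN := st_TRN all_SYM all_STRICT all_FLIM st_TF all_TILE st_SURJ st_RED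
theorem all_KIND : ST_KIND := st_KIND Pool.Agent.Helper11.MP.st_KPROD st_KFIB st_KEQ st_PRD st_RED st_FIBC
theorem all_TOT3 : ST_TOT3 :=
  st_TOT3 st_LA2 (st_COVB all_KIND st_MERT) st_PNF all_TRF (all_AMPD st_ENT) all_DIMB st_CHEB
theorem all_MAIN3 : ST_MAIN3 :=
  st_MAIN3 all_VF all_DIMO all_TOT3 all_FAREY st_FPATH st_CONN all_FLIM all_STRICT all_TRN

end Pool.Agent.Helper96.MP
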