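import Pool.Agent.Helper9.MP.Lat
import Pool.Agent.Helper38.MP.LIM
import Pool.Agent.Helper92.MP.TEST
import Pool.Agent.Helper34.MP.MIN

set_option autoImplicit false

namespace Pool.Agent.Helper96.MP

open Complex MeasureTheory Filter Topology
open scoped MatrixGroups

/-! ### derivatives -/

theorem hab_re {f : ℂ → ℂ} {f' z : ℂ} (h : HasDerivAt f f' z) (v : ℂ) :
    fderiv ℝ (fun w => (f w).re) z v = (f' * v).re := by
  have h1 := h.complexToReal_fderiv
  have h2 : HasFDerivAt (fun w => (f w).re) (Complex.reCLM.comp (f' • (1 : ℂ →L[ℝ] ℂ))) z :=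
    Complex.reCLM.hasFDerivAt.comp z h1
  rw [h2.fderiv]
  simp

theorem hab_JJ_re {f g : ℂ → ℂ} {f' g' z : ℂ} (hf : HasDerivAt f f' z) (hg : HasDerivAt g g' z) :
    JJ (fun w => (f w).re) (fun w => (g w).re) z = (f' * (starRingEnd ℂ) g').im := by
  unfold JJ ux uy
  rw [hab_re hf, hab_re hf, hab_re hg, hab_re hg]
  simp

theorem hab_JJ_DD {f f2 : ℂ → ℂ} {f' z : ℂ} (hf : HasDerivAt f f' z)
    (hf2 : HasDerivAt f2 (I * f') z) (φ : ℂ → ℝ) :
    JJ (fun w => (f w).re) φ z = -DD (fun w => (f2 w).re) φ z := by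
  unfold JJ DD ux uy
  rw [hab_re hf, hab_re hf, hab_re hf2, hab_re hf2]
  simp

theorem hab_JJcomp (g : SL(2, ℤ)) {z : ℂ} (hz : z ∈ UH) (f k : ℂ → ℝ)
    (hf : DifferentiableAt ℝ f (mob g z)) (hk : DifferentiableAt ℝ k (mob g z)) :
    JJ (fun w => f (mob g w)) (fun w => k (mob g w)) z
      = JJ f k (mob g z) * (‖jj g z‖ ^ 4)⁻¹ := by
  have hj := test_jj_ne g hz
  set lam : ℂ := (jj g z ^ 2)⁻¹ with hlam
  have h1 : lam.re * lam.re + lam.im * lam.im = (‖jj g z‖ ^ 4)⁻¹ := by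
    rw [← Complex.normSq_apply, Complex.normSq_eq_norm_sq, hlam, norm_inv, norm_pow, inv_pow]
    congr 1
    ring
  have h2 : (lam * I).re = - lam.im := by simp
  have h3 : (lam * I).im = lam.re := by simp
  have a1 : ux (fun w => f (mob g w)) z = lam.re * ux f (mob g z) + lam.im * uy f (mob g z) := by
    unfold ux uy
    rw [test_comp g hz f hf, mul_one, ← hlam, test_lin _ lam]
  have a2 : uy (fun w => f (mob g w)) z = -lam.im * ux f (mob g z) + lam.re * uy f (mob g z) := by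
    unfold ux uy
    rw [test_comp g hz f hf, ← hlam, test_lin _ (lam * I), h2, h3]
  have a3 : ux (fun w => k (mob g w)) z = lam.re * ux k (mob g z) + lam.im * uy k (mob g z) := by
    unfold ux uy
    rw [test_comp g hz k hk, mul_one, ← hlam, test_lin _ lam]
  have a4 : uy (fun w => k (mob g w)) z = -lam.im * ux k (mob g z) + lam.re * uy k (mob g z) := by
    unfold ux uy
    rw [test_comp g hz k hk, ← hlam, test_lin _ (lam * I), h2, h3]
  unfold JJ
  rw [a1, a2, a3, a4, ← h1]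
  ring

theorem hab_JJ_cont {u v : ℂ → ℝ} (hu : ContDiffOn ℝ (⊤ : ℕ∞) u UH)
    (hv : ContDiffOn ℝ (⊤ : ℕ∞) v UH) : ContinuousOn (JJ u v) UH := by
  unfold JJ ux uy
  exact ((min_cont_fderiv hu 1).mul (min_cont_fderiv hv I)).sub
    ((min_cont_fderiv hu I).mul (min_cont_fderiv hv 1))

theorem hab_abs_JJ (u v : ℂ → ℝ) (z : ℂ) : |JJ u v z| ≤ DD u u z + DD v v z := by
  unfold JJ DD
  rw [abs_le]
  constructor
  · nlinarith [sq_nonneg (ux u z + uy v z), sq_nonneg (uy u z - ux v z), sq_nonneg (ux u z),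
      sq_nonneg (uy u z), sq_nonneg (ux v z), sq_nonneg (uy v z)]
  · nlinarith [sq_nonneg (ux u z - uy v z), sq_nonneg (uy u z + ux v z), sq_nonneg (ux u z),
      sq_nonneg (uy u z), sq_nonneg (ux v z), sq_nonneg (uy v z)]

theorem hab_int {N : ℕ} {W : ℂ → ℝ} {ρ ρ' : SL(2, ℤ) → ℝ} {u v : ℂ → ℝ}
    (hW : WOK N W) (hu : Adm N W ρ u) (hv : Adm N W ρ' v) :
    IntegrableOn (fun z => W z * JJ u v z) UH := by
  refine Integrable.mono' (hu.fin.add hv.fin) ?_ ?_
  · exact (hW.meas.aestronglyMeasurable).mul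
      ((hab_JJ_cont hu.smooth hv.smooth).aestronglyMeasurable min_meas_UH)
  · refine Eventually.of_forall fun z => ?_
    have h1 := hab_abs_JJ u v z
    have h2 := hW.nonneg z
    simp only [Pi.add_apply]
    rw [norm_mul, Real.norm_of_nonneg h2, Real.norm_eq_abs, ← mul_add]
    exact mul_le_mul_of_nonneg_left h1 h2

theorem hab_sub_right {u v w : ℂ → ℝ} (hv : ContDiffOn ℝ (⊤ : ℕ∞) v UH)
    (hw : ContDiffOn ℝ (⊤ : ℕ∞) w UH) {z : ℂ} (hz : z ∈ UH) :
    JJ u (fun x => v x - w x) z = JJ u v z - JJ u w z := by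
  unfold JJ ux uy
  rw [lim_sub hv hw hz, lim_sub hv hw hz]
  ring

theorem hab_sub_left {u v w : ℂ → ℝ} (hu : ContDiffOn ℝ (⊤ : ℕ∞) u UH)
    (hv : ContDiffOn ℝ (⊤ : ℕ∞) v UH) {z : ℂ} (hz : z ∈ UH) :
    JJ (fun x => u x - v x) w z = JJ u w z - JJ v w z := by
  unfold JJ ux uy
  rw [lim_sub hu hv hz, lim_sub hu hv hz]
  ring

/-! ### the ideal triangle -/

theorem hab_D0_UH : D0 ⊆ UH := fun z hz => hz.1

theorem hab_D0_null : volume (D0 \ interior D0) = 0 := by
  have hsub : {z : ℂ | 0 < z.im ∧ 0 < z.re ∧ z.re < 1 ∧ 1 / 2 < ‖z - 1 / 2‖} ⊆ interior D0 := by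
    refine interior_maximal ?_ ?_
    · rintro z ⟨h1, h2, h3, h4⟩
      exact ⟨h1, h2.le, h3.le, h4.le⟩
    · refine (isOpen_lt continuous_const Complex.continuous_im).inter ?_
      refine (isOpen_lt continuous_const Complex.continuous_re).inter ?_
      refine (isOpen_lt Complex.continuous_re continuous_const).inter ?_
      exact isOpen_lt continuous_const (continuous_id.sub continuous_const).norm
  have hline : ∀ c : ℝ, volume {z : ℂ | z.re = c} = 0 := by
    intro c
    have h1 : {z : ℂ | z.re = c} = Complex.measurableEquivRealProd ⁻¹' ({c} ×ˢ Set.univ) := by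
      ext z
      simp [Complex.measurableEquivRealProd]
    rw [h1, (Complex.volume_preserving_equiv_real_prod).measure_preimage_equiv]
    rw [Measure.volume_eq_prod, Measure.prod_prod]
    simp
  have hcov : D0 \ interior D0 ⊆ {z : ℂ | z.re = 0} ∪ {z : ℂ | z.re = 1} ∪
      Metric.sphere (1 / 2 : ℂ) (1 / 2) := by
    rintro z ⟨⟨h1, h2, h3, h4⟩, hz⟩
    by_contra hcon
    simp only [Set.mem_union, Set.mem_setOf_eq, mem_sphere_iff_norm, not_or] at hcon
    obtain ⟨⟨c1, c2⟩, c3⟩ := hcon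
    apply hz
    apply hsub
    exact ⟨h1, lt_of_le_of_ne h2 (Ne.symm c1), lt_of_le_of_ne h3 c2, lt_of_le_of_ne h4 (Ne.symm c3)⟩
  refine measure_mono_null hcov ?_
  rw [measure_union_null_iff, measure_union_null_iff]
  exact ⟨⟨hline 0, hline 1⟩, Measure.addHaar_sphere volume _ _⟩

theorem hab_D0_int (f : ℂ → ℝ) : ∫ z in D0, f z = ∫ z in interior D0, f z := by
  refine setIntegral_congr_set ?_
  have h1 : (D0 \ interior D0 : Set ℂ) =ᵐ[volume] (∅ : Set ℂ) :=
    ae_eq_empty.2 hab_D0_null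
  have h2 : D0 = interior D0 ∪ (D0 \ interior D0) := (Set.union_diff_cancel interior_subset).symm
  have h3 : (interior D0 ∪ (D0 \ interior D0) : Set ℂ) =ᵐ[volume] (interior D0 ∪ ∅ : Set ℂ) :=
    (Filter.EventuallyEq.refl _ _).union h1
  rw [Set.union_empty] at h3
  rw [← h2] at h3
  exact h3

/-- Jacobian of two combinations of barycentric coordinates -/
theorem hab_bary {lam : Fin 3 → ℂ → ℝ} (hlam : ∀ i, ContDiffOn ℝ (⊤ : ℕ∞) (lam i) (interior D0))
    (h1 : ∀ z ∈ interior D0, lam 0 z + lam 1 z + lam 2 z = 1) {u u' : ℂ → ℝ}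
    {A0 A1 A2 B0 B1 B2 : ℝ}
    (hu : ∀ z ∈ interior D0, u z = A0 * lam 0 z + A1 * lam 1 z + A2 * lam 2 z)
    (hu' : ∀ z ∈ interior D0, u' z = B0 * lam 0 z + B1 * lam 1 z + B2 * lam 2 z)
    {z : ℂ} (hz : z ∈ interior D0) :
    JJ u u' z = ((A0 - A2) * (B1 - B2) - (A1 - A2) * (B0 - B2)) * JJ (lam 0) (lam 1) z := by
  have hnh : interior D0 ∈ 𝓝 z := isOpen_interior.mem_nhds hz
  have hd : ∀ i, DifferentiableAt ℝ (lam i) z := fun i =>
    ((hlam i z hz).contDiffAt hnh).differentiableAt (by simp)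
  have key : ∀ (w : ℂ → ℝ) (E0 E1 E2 : ℝ),
      (∀ z ∈ interior D0, w z = E0 * lam 0 z + E1 * lam 1 z + E2 * lam 2 z) →
      fderiv ℝ w z = (E0 - E2) • fderiv ℝ (lam 0) z + (E1 - E2) • fderiv ℝ (lam 1) z := by
    intro w E0 E1 E2 hw
    have e1 : w =ᶠ[𝓝 z] fun y => (E0 - E2) * lam 0 y + (E1 - E2) * lam 1 y + E2 := by
      filter_upwards [hnh] with y hy
      have := h1 y hy
      rw [hw y hy]
      linear_combination E2 * this
    have e2 : HasFDerivAt (fun y => (E0 - E2) * lam 0 y + (E1 - E2) * lam 1 y + E2)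
        ((E0 - E2) • fderiv ℝ (lam 0) z + (E1 - E2) • fderiv ℝ (lam 1) z) z :=
      (((hd 0).hasFDerivAt.const_mul (E0 - E2)).add
        ((hd 1).hasFDerivAt.const_mul (E1 - E2))).add_const E2
    rw [e1.fderiv_eq, e2.fderiv]
  unfold JJ ux uy
  rw [key u A0 A1 A2 hu, key u' B0 B1 B2 hu']
  simp only [add_apply, smul_apply, smul_eq_mul]
  ring

theorem hab_mR00 (h : SL(2, ℤ)) : (h * mR) 0 0 = h 0 0 + h 0 1 := by
  have h1 : mR 0 0 = 1 := rfl
  have h2 : mR 1 0 = 1 := rfl
  rw [Lib.mul00, h1, h2]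
  ring

theorem hab_mR10 (h : SL(2, ℤ)) : (h * mR) 1 0 = h 1 0 + h 1 1 := by
  have h1 : mR 0 0 = 1 := rfl
  have h2 : mR 1 0 = 1 := rfl
  rw [Lib.mul10, h1, h2]
  ring

theorem hab_mR01 (h : SL(2, ℤ)) : (h * mR) 0 1 = (-1) * h 0 0 := by
  have h1 : mR 0 1 = -1 := rfl
  have h2 : mR 1 1 = 0 := rfl
  rw [Lib.mul01, h1, h2]
  ring

theorem hab_mR11 (h : SL(2, ℤ)) : (h * mR) 1 1 = (-1) * h 1 0 := by
  have h1 : mR 0 1 = -1 := rfl
  have h2 : mR 1 1 = 0 := rfl
  rw [Lib.mul11, h1, h2]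
  ring

theorem st_HAB (hHAB1 : ST_HAB1) (hHAB2 : ST_HAB2) (hHAB3 : ST_HAB3) (hHAB4 : ST_HAB4)
    (hSYB : ST_SYB) (hPET : ST_PET) (hFCL : ST_FCL) (hFLIM : ST_FLIM) (hQDIF : ST_QDIF) :
    ST_HAB := by
  obtain ⟨lam, hlam, hpot⟩ := hHAB3
  obtain ⟨C0, hC0, hpet⟩ := hPET
  set c0 : ℝ := ∫ z in interior D0, JJ (lam 0) (lam 1) z with hc0
  have main : ∀ (N : ℕ) (W : ℂ → ℝ), 1 ≤ N → WOK N W → ∀ b b' : ℕ → ℂ, Cusp N b → Cusp N b' →
      4 * Real.pi ^ 2 * (pet W b b').im = -(c0 * Bc N b b') := by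
    intro N W hN hW b b' hb hb'
    obtain ⟨hAu, horth⟩ := hHAB1 N W b hN hW hb
    obtain ⟨hAu', _⟩ := hHAB1 N W b' hN hW hb'
    obtain ⟨_, hhom, heqc, _, _⟩ := hFLIM N b hN hb
    obtain ⟨_, hhom', heqc', _, _⟩ := hFLIM N b' hN hb'
    obtain ⟨_, _, hder, _⟩ := hQDIF N b hN hb
    obtain ⟨_, _, hder', _⟩ := hQDIF N b' hN hb'
    have hHom : ∀ {b : ℕ → ℂ}, Hom0 (FC b) → Hom0 (fun p q => (FC b p q).re) := by
      intro b h k p q hk
      beta_reduce
      rw [h k p q hk]
    have hEqc : ∀ {b : ℕ → ℂ}, EqC N (FC b) → EqC N (fun p q => (FC b p q).re) := by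
      intro b h p q r s hg x y hxy
      beta_reduce
      rw [h p q r s hg x y hxy, Complex.add_re, Complex.sub_re]
    obtain ⟨uh, hAuh, _, huh⟩ := hpot N W (fun p q => (FC b p q).re) hN hW (hHom hhom) (hEqc heqc)
    obtain ⟨uh', hAuh', ⟨K, hK, hKU, hKz⟩, huh'⟩ := hpot N W (fun p q => (FC b' p q).re) hN hW
      (hHom hhom') (hEqc heqc')
    set u : ℂ → ℝ := fun z => (Fs b z).re with hu
    set u' : ℂ → ℝ := fun z => (Fs b' z).re with hu'
    -- difference functions
    have hρ : ∀ b : ℕ → ℂ, (fun g : SL(2, ℤ) => (FC b (g 0 0) (g 1 0) - FC b 1 0).re) =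
        fun g : SL(2, ℤ) => (FC b (g 0 0) (g 1 0)).re - (FC b 1 0).re := by
      intro b
      funext g
      exact Complex.sub_re _ _
    rw [hρ] at hAu hAu'
    have hφ : Adm N W (fun _ => 0) (fun z => u z - uh z) := lim_adm hW hAu hAuh
    have hφ' : Adm N W (fun _ => 0) (fun z => u' z - uh' z) := lim_adm hW hAu' hAuh'
    -- orthogonality for `i b`
    obtain ⟨_, hIb, _, _, _, hqI⟩ := hFCL N b b I hN hb hb
    obtain ⟨_, horthI⟩ := hHAB1 N W _ hN hW hIb
    obtain ⟨_, _, hderI, _⟩ := hQDIF N _ hN hIb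
    have s1 : ∫ z in UH, W z * JJ u (fun x => u' x - uh' x) z = 0 := by
      have h1 := horthI _ hφ'
      have h2 : ∫ z in UH, W z * JJ u (fun x => u' x - uh' x) z =
          ∫ z in UH, -(W z * DD (fun z => (Fs (fun n => I * b n) z).re) (fun x => u' x - uh' x) z) := by
        refine setIntegral_congr_fun min_meas_UH fun z hz => ?_
        have h3 : HasDerivAt (Fs (fun n => I * b n)) (I * (2 * (Real.pi : ℂ) * I * qs b z)) z := by
          have := hderI z hz
          rw [hqI z hz] at this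
          refine this.congr_deriv ?_
          ring
        rw [hu, hab_JJ_DD (hder z hz) h3]
        ring
      rw [h2, integral_neg, h1, neg_zero]
    have s2 : ∫ z in UH, W z * JJ (fun x => u x - uh x) uh' z = 0 :=
      (hHAB2 N W _ _ uh' K hN hW hφ hAuh' hK hKU hKz).2
    have e1 : ∫ z in UH, W z * JJ u u' z = ∫ z in UH, W z * JJ u uh' z := by
      have h1 : ∫ z in UH, W z * JJ u (fun x => u' x - uh' x) z =
          (∫ z in UH, W z * JJ u u' z) - ∫ z in UH, W z * JJ u uh' z := by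
        rw [← integral_sub (hab_int hW hAu hAu') (hab_int hW hAu hAuh')]
        refine setIntegral_congr_fun min_meas_UH fun z hz => ?_
        rw [hab_sub_right hAu'.smooth hAuh'.smooth hz]
        ring
      rw [s1] at h1
      linarith
    have e2 : ∫ z in UH, W z * JJ u uh' z = ∫ z in UH, W z * JJ uh uh' z := by
      have h1 : ∫ z in UH, W z * JJ (fun x => u x - uh x) uh' z =
          (∫ z in UH, W z * JJ u uh' z) - ∫ z in UH, W z * JJ uh uh' z := by
        rw [← integral_sub (hab_int hW hAu hAuh') (hab_int hW hAuh hAuh')]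
        refine setIntegral_congr_fun min_meas_UH fun z hz => ?_
        rw [hab_sub_left hAu.smooth hAuh.smooth hz]
        ring
      rw [s2] at h1
      linarith
    -- left side
    have e0 : ∫ z in UH, W z * JJ u u' z = 4 * Real.pi ^ 2 * (pet W b b').im := by
      have hint := (hpet N W hN hW b b' b hb hb' hb).1
      have h1 : (pet W b b').im = ∫ z in UH, ((W z : ℂ) * (qs b z * (starRingEnd ℂ) (qs b' z))).im := by
        unfold pet
        exact (integral_im hint).symm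
      rw [h1, ← integral_const_mul]
      refine setIntegral_congr_fun min_meas_UH fun z hz => ?_
      rw [hu, hu', hab_JJ_re (hder z hz) (hder' z hz)]
      simp
      ring
    -- right side
    have hΨc : ContinuousOn (JJ uh uh') UH := hab_JJ_cont hAuh.smooth hAuh'.smooth
    have hΨe : ∀ g ∈ CongruenceSubgroup.Gamma0 N, ∀ z ∈ UH,
        JJ uh uh' (mob g z) = ‖jj g z‖ ^ 4 * JJ uh uh' z := by
      intro g hg z hz
      have hgz := test_mem g hz
      have h1 := hab_JJcomp g hz uh uh' (test_diffAt hAuh.smooth hgz) (test_diffAt hAuh'.smooth hgz)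
      have h2 : ∀ {ρ : SL(2, ℤ) → ℝ} {v : ℂ → ℝ}, Adm N W ρ v →
          fderiv ℝ (fun w => v (mob g w)) z = fderiv ℝ v z := by
        intro ρ v hv
        have h6 : (fun w => v (mob g w)) =ᶠ[𝓝 z] fun w => v w + ρ g := by
          filter_upwards [test_open.mem_nhds hz] with w hw
          exact hv.eqv g hg w hw
        rw [h6.fderiv_eq, fderiv_add_const]
      have h3 : JJ (fun w => uh (mob g w)) (fun w => uh' (mob g w)) z = JJ uh uh' z := by
        unfold JJ ux uy
        rw [h2 hAuh, h2 hAuh']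
      rw [h3] at h1
      have h4 : ‖jj g z‖ ^ 4 ≠ 0 := by
        have := test_jj_ne g hz
        positivity
      rw [h1, mul_comm, mul_assoc, inv_mul_cancel₀ h4, mul_one]
    obtain ⟨_, h4⟩ := hHAB4 N W (JJ uh uh') hN hW hΨc hΨe (hab_int hW hAuh hAuh')
    have hPot := hSYB N b hN hb
    have hPot' := hSYB N b' hN hb'
    have hx : ∀ x : PN N, ∫ z in D0, JJ uh uh' (mob (rep N x) z) * (‖jj (rep N x) z‖ ^ 4)⁻¹ =
        -(c0 * (sy N b x * sy N b' (mv N x mR) - sy N b (mv N x mR) * sy N b' x)) := by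
      intro x
      set h := rep N x with hh
      have m00 := hab_mR00 h
      have m10 := hab_mR10 h
      have m01 := hab_mR01 h
      have m11 := hab_mR11 h
      have hsy : ∀ b : ℕ → ℂ, sy N b x = (FC b (h 0 0) (h 1 0)).re - (FC b (h 0 1) (h 1 1)).re := by
        intro b
        unfold sy
        rw [Complex.sub_re]
      have hsyR : ∀ b : ℕ → ℂ, Pot N (sy N b) (fun p q => (FC b p q).re) →
          sy N b (mv N x mR) = (FC b (h 0 0 + h 0 1) (h 1 0 + h 1 1)).re -
            (FC b (h 0 0) (h 1 0)).re := by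
        intro b hP
        have h5 := hP.dif (h * mR)
        unfold mv
        rw [h5, m00, m10, m01, m11]
        have h6 := hP.hom (-1) (h 0 0) (h 1 0) (by norm_num)
        rw [h6]
      rw [hab_D0_int]
      have h7 : ∫ z in interior D0, JJ uh uh' (mob h z) * (‖jj h z‖ ^ 4)⁻¹ =
          ∫ z in interior D0, (-(sy N b x * sy N b' (mv N x mR) - sy N b (mv N x mR) * sy N b' x)) *
            JJ (lam 0) (lam 1) z := by
        refine setIntegral_congr_fun isOpen_interior.measurableSet fun z hz => ?_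
        have hzU : z ∈ UH := hab_D0_UH (interior_subset hz)
        have hgz := test_mem h hzU
        rw [← hab_JJcomp h hzU uh uh' (test_diffAt hAuh.smooth hgz) (test_diffAt hAuh'.smooth hgz),
          hab_bary hlam (fun y hy => (huh h y hy).1) (fun y hy => (huh h y hy).2)
            (fun y hy => (huh' h y hy).2) hz, hsy b, hsy b', hsyR b hPot, hsyR b' hPot']
        ring
      rw [h7, integral_const_mul, ← hc0]
      ring
    rw [← e0, e1, e2, h4]
    have h8 : ∑ᶠ x : PN N, ∫ z in D0, JJ uh uh' (mob (rep N x) z) * (‖jj (rep N x) z‖ ^ 4)⁻¹ =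
        (-c0) * ∑ᶠ x : PN N, (sy N b x * sy N b' (mv N x mR) - sy N b (mv N x mR) * sy N b' x) := by
      rw [mul_finsum]
      refine finsum_congr fun x => ?_
      rw [hx x]
      ring
    rw [h8]
    unfold Bc Bs
    ring
  by_cases hc : c0 = 0
  · refine ⟨0, ?_⟩
    intro N W hN hW b b' hb hb'
    rw [zero_mul]
    have hpi : (0 : ℝ) < 4 * Real.pi ^ 2 := by positivity
    obtain ⟨_, hIb, _, hFCI, _, _⟩ := hFCL N b b I hN hb hb
    have h1 := main N W hN hW _ b hIb hb
    rw [hc, zero_mul, neg_zero] at h1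
    have h2 : (pet W (fun n => I * b n) b).im = 0 := by
      rcases mul_eq_zero.1 h1 with h | h
      · exact absurd h hpi.ne'
      · exact h
    obtain ⟨_, _, hmul, _, _, _, hz, _⟩ := hpet N W hN hW b b b hb hb hb
    rw [hmul I, Complex.I_mul_im] at h2
    have hb0 := hz h2
    have hsy0 : ∀ x, sy N b x = 0 := by
      intro x
      have h3 : b = fun n => (0 : ℂ) * b n := by
        funext n
        rw [zero_mul, hb0 n]
      have h4 := (hFCL N b b 0 hN hb hb).2.2.2.1
      unfold sy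
      rw [h3, h4, h4]
      simp
    unfold Bc Bs
    have h5 : ∀ x : PN N, sy N b x * sy N b' (mv N x mR) - sy N b (mv N x mR) * sy N b' x = 0 := by
      intro x
      rw [hsy0, hsy0]
      ring
    rw [finsum_congr h5]
    simp
  · refine ⟨-(4 * Real.pi ^ 2) / c0, ?_⟩
    intro N W hN hW b b' hb hb'
    have h1 := main N W hN hW b b' hb hb'
    rw [div_mul_eq_mul_div, eq_div_iff hc]
    linarith

end Pool.Agent.Helper96.MP
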