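import Pool.Agent.Helper1.MP.PADJ
import Pool.Agent.Helper1.MP.PER
import Pool.Agent.Helper11.MP.FCUSP
import Pool.Agent.Helper11.MP.FLIM
import Pool.Agent.Helper11.MP.INJ
import Pool.Agent.Helper11.MP.QEXP
import Pool.Agent.Helper11.MP.QUNI
import Pool.Agent.Helper11.MP.UB
import Pool.Agent.Helper18.MP.CHI
import Pool.Agent.Helper18.MP.CSP
import Pool.Agent.Helper18.MP.PET
import Pool.Agent.Helper18.MP.PWQ
import Pool.Agent.Helper18.MP.STRIP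
import Pool.Agent.Helper2.MP.HPE
import Pool.Agent.Helper21.MP.DIVB
import Pool.Agent.Helper21.MP.HERM
import Pool.Agent.Helper22.MP.COV
import Pool.Agent.Helper22.MP.FD
import Pool.Agent.Helper22.MP.WT
import Pool.Agent.Helper27.MP.ENT
import Pool.Agent.Helper27.MP.EQV
import Pool.Agent.Helper27.MP.WEX
import Pool.Agent.Helper28.MP.TQM
import Pool.Agent.Helper28.MP.WTL
import Pool.Agent.Helper30.MP.FAREY
import Pool.Agent.Helper30.MP.SEPW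
import Pool.Agent.Helper34.MP.HAB1
import Pool.Agent.Helper34.MP.MIN
import Pool.Agent.Helper34.MP.TF
import Pool.Agent.Helper37.MP.CNTA
import Pool.Agent.Helper37.MP.PIW
import Pool.Agent.Helper38.MP.DEPL
import Pool.Agent.Helper38.MP.HAB3
import Pool.Agent.Helper38.MP.HAB4
import Pool.Agent.Helper38.MP.LIM
import Pool.Agent.Helper42.MP.DUAL
import Pool.Agent.Helper42.MP.FORM
import Pool.Agent.Helper42.MP.MVB
import Pool.Agent.Helper42.MP.RAD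
import Pool.Agent.Helper45.MP.CONF
import Pool.Agent.Helper45.MP.OVER
import Pool.Agent.Helper45.MP.UNF
import Pool.Agent.Helper45.MP.VEX
import Pool.Agent.Helper50.MP.AL
import Pool.Agent.Helper50.MP.MV
import Pool.Agent.Helper53.MP.HAB2
import Pool.Agent.Helper53.MP.MAIND
import Pool.Agent.Helper53.MP.UZ
import Pool.Agent.Helper55.MP.AMDW
import Pool.Agent.Helper57.MP.HECKE
import Pool.Agent.Helper57.MP.STURM
import Pool.Agent.Helper59.MP.INT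
import Pool.Agent.Helper63.MP.LATC
import Pool.Agent.Helper63.MP.WLC
import Pool.Agent.Helper68.MP.EIG
import Pool.Agent.Helper68.MP.MONE
import Pool.Agent.Helper70.MP.OMB
import Pool.Agent.Helper70.MP.SMP
import Pool.Agent.Helper70.MP.UDC
import Pool.Agent.Helper77.MP.GEN
import Pool.Agent.Helper79.MP.DIMK
import Pool.Agent.Helper79.MP.FOLD
import Pool.Agent.Helper79.MP.WEYL2
import Pool.Agent.Helper85.MP.AMPW
import Pool.Agent.Helper87.MP.ALC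
import Pool.Agent.Helper87.MP.ALG
import Pool.Agent.Helper87.MP.FIX
import Pool.Agent.Helper87.MP.HPC
import Pool.Agent.Helper87.MP.KERN
import Pool.Agent.Helper87.MP.NBW
import Pool.Agent.Helper87.MP.PNF
import Pool.Agent.Helper9.MP.COS
import Pool.Agent.Helper9.MP.DISCF
import Pool.Agent.Helper9.MP.FCL
import Pool.Agent.Helper9.MP.HALF
import Pool.Agent.Helper9.MP.NRM
import Pool.Agent.Helper9.MP.SGN
import Pool.Agent.Helper9.MP.SUMB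
import Pool.Agent.Helper9.MP.SYB
import Pool.Agent.Helper9.MP.WFC
import Pool.Agent.Helper9.MP.WMUL
import Pool.Agent.Helper92.MP.SURJ
import Pool.Agent.Helper92.MP.TEST
import Pool.Agent.Helper96.MP.CONN
import Pool.Agent.Helper96.MP.ES
import Pool.Agent.Helper96.MP.HAB
import Pool.Agent.Helper96.MP.PERM
import Pool.Agent.Helper96.MP.QDIF
import Pool.Agent.Helper97.MP.CNTB
import Pool.Agent.Helper97.MP.HB

set_option autoImplicit false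

namespace Pool.Agent.Helper96.MP

theorem ad_WT : ST_WT := st_WT
theorem ad_UZ : ST_UZ := Pool.Agent.Helper53.MP.st_UZ
theorem ad_MIN : ST_MIN := st_MIN
theorem ad_COV : ST_COV := st_COV
theorem ad_OVER : ST_OVER := st_OVER
theorem ad_CONF : ST_CONF := st_CONF
theorem ad_UNF : ST_UNF := st_UNF
theorem ad_TEST : ST_TEST := st_TEST ad_UNF
theorem ad_WEYL2 : ST_WEYL2 := st_WEYL2
theorem ad_LIM : ST_LIM := st_LIM ad_COV ad_OVER ad_CONF ad_TEST ad_WEYL2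
theorem ad_EQV : ST_EQV := st_EQV ad_CONF
theorem ad_CSP : ST_CSP := st_CSP ad_COV ad_OVER
theorem ad_QEXP : ST_QEXP := st_QEXP
theorem ad_PER : ST_PER := st_PER
theorem ad_QDIF : ST_QDIF := st_QDIF
theorem ad_HERM : ST_HERM := st_HERM
theorem ad_FLIM : ST_FLIM := st_FLIM ad_QDIF ad_HERM
theorem ad_ES : ST_ES :=
  st_ES ad_WT ad_UZ ad_MIN ad_LIM ad_EQV ad_CSP ad_QEXP ad_PER ad_FLIM ad_QDIF
theorem ad_FCUSP : ST_FCUSP := st_FCUSP ad_QDIF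
theorem ad_QUNI : ST_QUNI := st_QUNI
theorem ad_INJ : ST_INJ := st_INJ ad_FCUSP ad_QDIF ad_QUNI ad_FLIM
theorem ad_SURJ : ST_SURJ := st_SURJ
theorem ad_COS : ST_COS := st_COS ad_SURJ
theorem ad_CONN : ST_CONN := st_CONN
theorem ad_FAREY : ST_FAREY := st_FAREY ad_CONN
theorem ad_VEX : ST_VEX := st_VEX ad_SURJ
theorem ad_MVB : ST_MVB := st_MVB ad_COS ad_FAREY ad_VEX
theorem ad_SYB : ST_SYB := st_SYB ad_FLIM ad_COS
theorem ad_FCL : ST_FCL := st_FCL ad_FLIM ad_QDIF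
theorem ad_STURM : ST_STURM := st_STURM ad_QDIF ad_QUNI
theorem ad_FD : ST_FD := st_FD ad_STURM
theorem ad_PNF : ST_PNF := st_PNF
theorem ad_LATC : ST_LATC := st_LATC ad_ES ad_INJ ad_MVB ad_CONN ad_SYB ad_FCL ad_FD ad_PNF
theorem ad_CHI : ST_CHI := st_CHI
theorem ad_KERN : ST_KERN := st_KERN
theorem ad_TQM : ST_TQM := st_TQM
theorem ad_WEX : ST_WEX := st_WEX ad_TQM ad_QDIF ad_QEXP
theorem ad_WMUL : ST_WMUL := st_WMUL ad_TQM ad_QUNI
theorem ad_WFC : ST_WFC := st_WFC ad_FLIM ad_QDIF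
theorem ad_TF : ST_TF := st_TF
theorem ad_PERM : ST_PERM := st_PERM ad_HERM
theorem ad_HECKE : ST_HECKE := st_HECKE ad_PERM
theorem ad_WLC : ST_WLC := st_WLC ad_WFC ad_FLIM ad_TF ad_PERM ad_HECKE ad_TQM
theorem ad_NRM : ST_NRM := st_NRM ad_QDIF
theorem ad_FOLD : ST_FOLD := st_FOLD ad_COS ad_NRM ad_PNF
theorem ad_STRIP : ST_STRIP := st_STRIP
theorem ad_MV : ST_MV := st_MV
theorem ad_UB : ST_UB := st_UB ad_FOLD ad_STRIP ad_MV ad_QDIF
theorem ad_PET : ST_PET := st_PET ad_QDIF ad_COS ad_PNF ad_NRM ad_UB ad_QUNI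
theorem ad_PWQ : ST_PWQ := st_PWQ ad_TQM ad_PET
theorem ad_PIW : ST_PIW := st_PIW ad_WEX ad_WMUL ad_TQM ad_WLC ad_PWQ ad_FCL ad_PET
theorem ad_WTL : ST_WTL := st_WTL ad_TQM ad_HERM
theorem ad_EIG : ST_EIG := st_EIG
theorem ad_ALG : ST_ALG := st_ALG
theorem ad_ALC : ST_ALC := st_ALC
theorem ad_AL : ST_AL := st_AL ad_ALG ad_ALC ad_SURJ ad_QDIF ad_QEXP ad_QUNI
theorem ad_DEPL : ST_DEPL := st_DEPL
theorem ad_MONE : ST_MONE := st_MONE ad_EIG ad_FD ad_AL ad_HECKE ad_DEPL ad_STURM ad_QDIF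
theorem ad_SGN : ST_SGN := st_SGN ad_WEX ad_WMUL ad_WTL ad_MONE ad_TQM ad_HECKE
theorem ad_FORM : ST_FORM := st_FORM ad_MVB ad_COS ad_PNF
theorem ad_DUAL : ST_DUAL := st_DUAL ad_MVB ad_FORM ad_COS ad_PNF
theorem ad_RAD : ST_RAD := st_RAD ad_FORM ad_MVB ad_COS ad_PNF
theorem ad_HALF : ST_HALF := st_HALF ad_MVB ad_COS ad_PNF
theorem ad_INT : ST_INT :=
  st_INT ad_DUAL ad_RAD ad_HALF ad_MVB ad_SYB ad_ES ad_CONN ad_FCL ad_FLIM ad_COS ad_PNF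
theorem ad_HAB1 : ST_HAB1 :=
  st_HAB1 ad_QDIF ad_FLIM ad_MIN ad_LIM ad_EQV ad_CSP ad_QEXP ad_PER ad_INJ ad_FCL ad_PET
theorem ad_HAB2 : ST_HAB2 := st_HAB2 ad_UNF
theorem ad_HAB3 : ST_HAB3 := st_HAB3
theorem ad_HAB4 : ST_HAB4 := st_HAB4 ad_COS ad_PNF
theorem ad_HAB : ST_HAB :=
  st_HAB ad_HAB1 ad_HAB2 ad_HAB3 ad_HAB4 ad_SYB ad_PET ad_FCL ad_FLIM ad_QDIF
theorem ad_PADJ : ST_PADJ := st_PADJ ad_HERM ad_NRM ad_QDIF ad_HECKE
theorem ad_HPC : ST_HPC := st_HPC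
theorem ad_HPE : ST_HPE := st_HPE ad_HPC
theorem ad_SUMB : ST_SUMB := st_SUMB
theorem ad_SEPW : ST_SEPW := st_SEPW ad_TQM
theorem ad_AMPW : ST_AMPW := st_AMPW ad_HPE ad_HPC ad_SUMB ad_SEPW ad_FOLD ad_MV ad_QDIF ad_TQM
theorem ad_ENT : ST_ENT := st_ENT
theorem ad_FIX : ST_FIX := st_FIX
theorem ad_CNTA : ST_CNTA := st_CNTA ad_FIX ad_PNF
theorem ad_CNTB : ST_CNTB := st_CNTB
theorem ad_DIVB : ST_DIVB := st_DIVB
theorem ad_NBW : ST_NBW := st_NBW ad_COS ad_ENT ad_CNTA ad_CNTB ad_DIVB ad_PNF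
theorem ad_DIMK : ST_DIMK := st_DIMK
theorem ad_OMB : ST_OMB := st_OMB
theorem ad_UDC : ST_UDC := st_UDC
theorem ad_AMDW : ST_AMDW :=
  st_AMDW ad_UB ad_AMPW ad_NBW ad_DIMK ad_NRM ad_COS ad_PNF ad_QDIF ad_QUNI ad_OMB ad_UDC ad_FCL
theorem ad_DISCF : ST_DISCF :=
  st_DISCF ad_LATC ad_CHI ad_KERN ad_PIW ad_SGN ad_INT ad_HAB ad_PET ad_PADJ ad_WLC ad_FCL ad_WT ad_FD ad_HECKE ad_MONE ad_AMDW ad_UDC ad_WTL
theorem ad_HB : ST_HB := st_HB ad_UB ad_QDIF ad_FLIM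
theorem ad_GEN : ST_GEN := st_GEN
theorem ad_SMP : ST_SMP := st_SMP
theorem ad_MAIND : ST_MAIND :=
  st_MAIND ad_DISCF ad_HB ad_GEN ad_FLIM ad_FCL ad_HAB ad_INT ad_PET ad_WT ad_SMP

end Pool.Agent.Helper96.MP
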