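import Pool.Agent.Helper9.MP.Amp
import Pool.Agent.Helper87.MP.PNF

/-!
# MP_bde085_nt: block B, the bound `exp (C ψ(N))` for all `N`

Exact statements `ST_X` of the modules.  Proofs: `/team-store/h96_mpB.md`.
-/

set_option autoImplicit false

namespace Pool.Agent.Helper96.MP

/-- `V` has a basis of `r` integral functions whose Gram determinant is at most `D` -/
def LB (P : Type) [Fintype P] (V : Submodule ℝ (P → ℝ)) (r : ℕ) (D : ℝ) : Prop :=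
  ∃ (ι : Type) (_ : Fintype ι) (_ : DecidableEq ι) (b : ι → P → ℤ), Fintype.card ι = r ∧
    LinearIndependent ℝ (fun (i : ι) (x : P) => (b i x : ℝ)) ∧
    Submodule.span ℝ (Set.range (fun (i : ι) (x : P) => (b i x : ℝ))) = V ∧
    (Matrix.of (fun i j : ι => ∑ x, (b i x : ℝ) * (b j x : ℝ))).det ≤ D

/-- CBD: Cauchy-Schwarz and Hadamard for determinants -/
def ST_CBD : Prop := ∀ (ι P : Type) [Fintype ι] [DecidableEq ι] [Fintype P] (X Y : ι → P → ℝ),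
  0 ≤ (Matrix.of (fun i j : ι => ∑ x, Y i x * Y j x)).det ∧
  |(Matrix.of (fun i j : ι => ∑ x, X i x * Y j x)).det| ≤
    Real.sqrt (Matrix.of (fun i j : ι => ∑ x, Y i x * Y j x)).det * ∏ i, ∑ x, |X i x|

/-- LA2: integer solutions of linear systems given in blocks, inside a lattice of small covolume -/
def ST_LA2 : Prop := ∀ (P : Type) [Fintype P] (V : Submodule ℝ (P → ℝ)) (r : ℕ) (D : ℝ), LB P V r D →
  ∀ (J : ℕ) (Rw : ℕ → Set (P → ℤ)) (B : ℕ → ℝ) (E : ℕ → Submodule ℝ (P → ℝ)), (∀ j, 1 ≤ B j) →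
  (∀ j, ∀ w ∈ Rw j, ∑ x, |(w x : ℝ)| ≤ B j) →
  (∀ j, ∀ v, v ∈ E j ↔ v ∈ V ∧ ∀ i, i < j → ∀ w ∈ Rw i, ∑ x, (w x : ℝ) * v x = 0) →
  Module.finrank ℝ (E J) = 1 →
  ∃ v : P → ℤ, v ≠ 0 ∧ (fun x => (v x : ℝ)) ∈ E J ∧
    ∀ x, |(v x : ℝ)| ≤ Real.sqrt D * ∏ j ∈ Finset.range J,
      (B j) ^ (Module.finrank ℝ (E j) - Module.finrank ℝ (E (j + 1)))

/-- KPROD: tensor products -/
def ST_KPROD : Prop := ∀ (P Q : Type) [Fintype P] [Fintype Q] (V : Submodule ℝ (P → ℝ))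
  (W : Submodule ℝ (Q → ℝ)) (r s : ℕ) (D E : ℝ), LB P V r D → LB Q W s E → 1 ≤ D → 1 ≤ E →
  ∀ U : Submodule ℝ (P × Q → ℝ),
  (∀ g, g ∈ U ↔ (∀ y, (fun x => g (x, y)) ∈ V) ∧ (∀ x, (fun y => g (x, y)) ∈ W)) →
  LB (P × Q) U (r * s) (D ^ s * E ^ r)

/-- KFIB: functions with vanishing sums over the fibres of a map -/
def ST_KFIB : Prop := ∀ (P P' : Type) [Fintype P] [Fintype P'] (π : P → P') (q : ℕ), 2 ≤ q →
  (∀ y, q ≤ Nat.card {x // π x = y} ∧ Nat.card {x // π x = y} ≤ q + 1) →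
  ∀ V : Submodule ℝ (P → ℝ), (∀ g, g ∈ V ↔ ∀ y, ∑ᶠ x : {x // π x = y}, g x.1 = 0) →
  ∃ (r : ℕ) (D : ℝ), LB P V r D ∧ 1 ≤ D ∧ (r : ℝ) ≤ (Fintype.card P : ℝ) * (1 - 1 / ((q : ℝ) + 1)) ∧
    Real.log D ≤ (Fintype.card P : ℝ) * (Real.log ((q : ℝ) + 1) / q)

/-- KEQ: all functions; transport by an equivalence -/
def ST_KEQ : Prop := (∀ (P : Type) [Fintype P], LB P ⊤ (Fintype.card P) 1) ∧
  ∀ (P P' : Type) [Fintype P] [Fintype P'] (e : P ≃ P') (V : Submodule ℝ (P → ℝ))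
    (V' : Submodule ℝ (P' → ℝ)) (r : ℕ) (D : ℝ), (∀ g : P' → ℝ, g ∈ V' ↔ (fun x => g (e x)) ∈ V) →
    LB P' V' r D → LB P V r D

/-- PRD: Chinese remainder theorem for the projective line -/
def ST_PRD : Prop := ∀ (M N : ℕ), 1 ≤ M → 1 ≤ N → Nat.Coprime M N →
  ∀ (h1 : M ∣ M * N) (h2 : N ∣ M * N),
  Function.Bijective (fun x : PN (M * N) => (pnf_red M h1 x, pnf_red N h2 x))

/-- RED: reductions on classes of pairs, and their transitivity -/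
def ST_RED : Prop := (∀ (N M : ℕ) (h : M ∣ N) (c d : ℤ) (hu : Uni N c d) (hu' : Uni M c d),
    pnf_red M h (Quotient.mk (sPN N) ⟨(c, d), hu⟩) = Quotient.mk (sPN M) ⟨(c, d), hu'⟩) ∧
  ∀ (N M L : ℕ) (h : M ∣ N) (h' : L ∣ M) (h'' : L ∣ N) (x : PN N),
    pnf_red L h' (pnf_red M h x) = pnf_red L h'' x

/-- FIBC: number of elements of the fibres -/
def ST_FIBC : Prop := ∀ (q e : ℕ), q.Prime → ∀ (h : q ^ e ∣ q ^ (e + 1)) (y : PN (q ^ e)),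
  q ≤ Nat.card {x : PN (q ^ (e + 1)) // pnf_red (q ^ e) h x = y} ∧
  Nat.card {x : PN (q ^ (e + 1)) // pnf_red (q ^ e) h x = y} ≤ q + 1

/-- the sums of `g` over the fibres of the reductions modulo `N / q`, `q ∈ S`, vanish -/
def VSp (N : ℕ) (S : Finset ℕ) (g : PN N → ℝ) : Prop :=
  ∀ q ∈ S, q ∣ N → ∀ (h : N / q ∣ N) (y : PN (N / q)),
    ∑ᶠ x : {x : PN N // pnf_red (N / q) h x = y}, g x.1 = 0

/-- KIND: basis of the space `VSp` -/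
def ST_KIND : Prop := ∀ (N : ℕ) (S : Finset ℕ) [Fintype (PN N)], 1 ≤ N →
  (∀ q ∈ S, q.Prime ∧ q ∣ N) → ∀ V : Submodule ℝ (PN N → ℝ), (∀ g, g ∈ V ↔ VSp N S g) →
  ∃ (r : ℕ) (D : ℝ), LB (PN N) V r D ∧ 1 ≤ D ∧
    (r : ℝ) ≤ (Nat.card (PN N) : ℝ) * ∏ q ∈ S, (1 - 1 / ((q : ℝ) + 1)) ∧
    Real.log D ≤ (Nat.card (PN N) : ℝ) *
      ∑ q ∈ S, Real.log ((q : ℝ) + 1) / q * ∏ t ∈ S.erase q, (1 - 1 / ((t : ℝ) + 1))

/-- MERT: estimates of Mertens type -/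
def ST_MERT : Prop := ∃ C : ℝ, 0 < C ∧ ∀ p : ℕ, p.Prime →
  ∏ q ∈ Nat.primesBelow p, (1 - 1 / ((q : ℝ) + 1)) ≤ C / Real.log p ∧
  ∑ q ∈ Nat.primesBelow p, Real.log ((q : ℝ) + 1) / q ≤ C * Real.log p

/-- COVB: the lattice of functions orthogonal to the old part for all small primes -/
def ST_COVB : Prop := ∃ C : ℝ, 0 < C ∧ ∀ (N p : ℕ) [Fintype (PN N)], 1 ≤ N → p.Prime →
  (∀ q : ℕ, q.Prime → q < p → q ∣ N) → ∀ V : Submodule ℝ (PN N → ℝ),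
  (∀ g, g ∈ V ↔ VSp N (Nat.primesBelow p) g) →
  ∃ (r : ℕ) (D : ℝ), LB (PN N) V r D ∧ 1 ≤ D ∧
    (r : ℝ) * Real.log p ≤ C * (Nat.card (PN N) : ℝ) ∧
    Real.log D ≤ C * (Nat.card (PN N) : ℝ)

/-- TRN: the Manin symbols of a newform have vanishing sums over the fibres -/
def ST_TRN : Prop := ∀ (N : ℕ) (a : ℕ → ℤ) (v : PN N → ℂ), 1 ≤ N → Newform N a →
  (∀ p x q y : ℤ, p * y - x * q = 1 →
    ev v q y = FC (fun k => (a k : ℂ)) p q - FC (fun k => (a k : ℂ)) x y) →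
  ∀ S : Finset ℕ, (∀ q ∈ S, q.Prime) → VSp N S (fun x => (v x).re) ∧ VSp N S (fun x => (v x).im)

/-- TOT3: a small integral generator of the line -/
def ST_TOT3 : Prop := ∃ C : ℝ, 0 < C ∧ ∀ (N p : ℕ) (a : ℕ → ℤ) (ε : ℤ), 1 ≤ N → p.Prime → ¬ p ∣ N →
  (∀ q : ℕ, q.Prime → q < p → q ∣ N) →
  (ε = 1 ∨ ε = -1) → (∀ l : ℕ, l.Prime → ¬ l ∣ N → |a l| ≤ l + 1) → (a p) ^ 2 ≠ ((p : ℤ) + 1) ^ 2 →
  ∀ E : Submodule ℝ (PN N → ℝ), (∀ v, v ∈ E ↔ Eall N a ε v) → Module.finrank ℝ E = 1 →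
  (∀ v ∈ E, VSp N (Nat.primesBelow p) v) →
  ∃ v : PN N → ℤ, v ≠ 0 ∧ (fun x => (v x : ℝ)) ∈ E ∧
    ∀ x, |(v x : ℝ)| ≤ Real.exp (C * psi N)

/-- MAIN3: the main theorem in terms of cusps -/
def ST_MAIN3 : Prop := ∃ C : ℝ, 0 < C ∧ ∀ (N : ℕ) (a : ℕ → ℤ), 1 ≤ N → Newform N a →
  ∀ (p1 r1 p2 r2 : ℤ) (q1 s1 q2 s2 : ℤ) (Ω₁ Ω₂ : ℂ), G0 N p1 q1 r1 s1 → G0 N p2 q2 r2 s2 →
  Ω₁ = FC (fun k => (a k : ℂ)) p1 r1 → Ω₂ = FC (fun k => (a k : ℂ)) p2 r2 →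
  Ω₁.im = 0 → 0 < Ω₁.re → 0 < Ω₂.im → 0 ≤ Ω₂.re → Ω₂.re < Ω₁.re →
  ∀ p q r s : ℤ, G0 N p q r s → ∀ m n : ℤ,
    FC (fun k => (a k : ℂ)) p r = (m : ℂ) * Ω₁ + (n : ℂ) * Ω₂ →
    |(m : ℝ)| ≤ (1 + Real.log (1 + |(r : ℝ)|)) * Real.exp (C * psi N) ∧
    |(n : ℝ)| ≤ (1 + Real.log (1 + |(r : ℝ)|)) * Real.exp (C * psi N)

end Pool.Agent.Helper96.MP
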